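import Pool.Agent.Lib.SPM.Defs

/-!
MODULE SPM.Base (0.5 h).  Orders 0, 1, 2.

PROOF.  n = 0: both sides are 0.  n = 1: adj A = 1, per A = A 0 0: equality.
n = 2: adj A = !![A 1 1, -A 0 1; -A 1 0, A 0 0] (`Matrix.adjugate_fin_two`),
qf A x = A00 A11 (|x0|^2+|x1|^2) - 2 |A01|^2 Re(conj x0 x1) (A Hermitian: A 1 0 = conj(A 0 1)),
per A = A00 A11 + |A01|^2, and -2 Re(conj x0 x1) ≤ |x0|^2 + |x1|^2.
-/

namespace SPM

open Matrix Finset
open scoped ComplexOrder

theorem T_zero : T 0 1 := by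
  intro A _ x
  simp [qf, qfC, nsq]

theorem T_one : T 1 1 := by
  intro A _ x
  have h1 : A.adjugate = 1 := Matrix.adjugate_subsingleton A
  have h2 : A.permanent = A 0 0 := by
    rw [Matrix.permanent]
    simp
  rw [qf, qfC, nsq, h1, h2]
  simp only [Finset.univ_unique, Fin.default_eq_zero, Finset.sum_singleton, Matrix.one_apply_eq,
    mul_one, one_mul]
  have e : star (x 0) * A 0 0 * x 0 = A 0 0 * ((‖x 0‖ ^ 2 : ℝ) : ℂ) := by
    rw [← Complex.normSq_eq_norm_sq, ← Complex.mul_conj, Complex.star_def]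
    ring
  rw [e, Complex.re_mul_ofReal]

private theorem perm_two (A : Matrix (Fin 2) (Fin 2) ℂ) :
    A.permanent = A 0 0 * A 1 1 + A 0 1 * A 1 0 := by
  have h : (Finset.univ : Finset (Equiv.Perm (Fin 2))) = {1, Equiv.swap 0 1} := by decide
  rw [Matrix.permanent, h, Finset.sum_pair (by decide)]
  simp [Fin.prod_univ_two]
  ring

theorem T_two : T 2 1 := by
  intro A hA x
  have h10 : A 1 0 = star (A 0 1) := by
    have := hA.isHermitian.apply 0 1
    rw [← this]
    simp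
  have h00 : (A 0 0).im = 0 := by
    have := hA.isHermitian.apply 0 0
    have h := congrArg Complex.im this
    simp at h
    linarith
  have h11 : (A 1 1).im = 0 := by
    have := hA.isHermitian.apply 1 1
    have h := congrArg Complex.im this
    simp at h
    linarith
  have hre : A 0 1 * A 1 0 = ((Complex.normSq (A 0 1) : ℝ) : ℂ) := by
    rw [h10, Complex.star_def, Complex.mul_conj]
  have hre' : A 1 0 * A 0 1 = ((Complex.normSq (A 0 1) : ℝ) : ℂ) := by
    rw [mul_comm, hre]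
  have hD : A 0 0 * A 1 1 = (((A 0 0).re * (A 1 1).re : ℝ) : ℂ) := by
    apply Complex.ext
    · simp [h00, h11]
    · simp [h00, h11]
  have hD' : A 1 1 * A 0 0 = (((A 0 0).re * (A 1 1).re : ℝ) : ℂ) := by
    rw [mul_comm, hD]
  rw [perm_two, qf, qfC, nsq]
  simp only [Fin.sum_univ_two, Matrix.adjugate_fin_two]
  have e : star (x 0) * (A 0 0 * (!![A 1 1, -A 0 1; -A 1 0, A 0 0] : Matrix (Fin 2) (Fin 2) ℂ) 0 0)
        * x 0
      + star (x 0) * (A 0 1 * (!![A 1 1, -A 0 1; -A 1 0, A 0 0] : Matrix (Fin 2) (Fin 2) ℂ) 1 0)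
        * x 1
      + (star (x 1) * (A 1 0 * (!![A 1 1, -A 0 1; -A 1 0, A 0 0] : Matrix (Fin 2) (Fin 2) ℂ) 0 1)
        * x 0
      + star (x 1) * (A 1 1 * (!![A 1 1, -A 0 1; -A 1 0, A 0 0] : Matrix (Fin 2) (Fin 2) ℂ) 1 1)
        * x 1)
      = (A 0 0 * A 1 1) * (star (x 0) * x 0) + (A 1 1 * A 0 0) * (star (x 1) * x 1)
        - (A 0 1 * A 1 0) * (star (x 0) * x 1) - (A 1 0 * A 0 1) * (star (x 1) * x 0) := by
    simp
    ring
  rw [e, hre, hre', hD, hD']
  have hd : 0 ≤ Complex.normSq (A 0 1) := Complex.normSq_nonneg _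
  generalize Complex.normSq (A 0 1) = d at *
  generalize (A 0 0).re * (A 1 1).re = D at *
  rw [← Complex.normSq_eq_norm_sq, ← Complex.normSq_eq_norm_sq]
  simp only [Complex.sub_re, Complex.add_re, Complex.mul_re, Complex.ofReal_im, zero_mul, sub_zero,
    Complex.ofReal_re, Complex.star_def, Complex.conj_re, Complex.conj_im, Complex.normSq_apply]
  nlinarith [mul_nonneg hd (sq_nonneg ((x 0).re + (x 1).re)),
    mul_nonneg hd (sq_nonneg ((x 0).im + (x 1).im))]

end SPM
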