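import Pool.Agent.Lib.SPM.Modes

/-!
MODULE SPM.PerPos (0.5 h).

PROOF of `per_ge_tail`: `Modes.modes` at r = 1 (`Ar A 1 = A`): per A = A_00 ∑ (m+1) c_m ≥
A_00 ∑ c_m = A_00 per(tail A).
PROOF of `per_ge_one`: induction on n (tail of a PSD matrix with unit diagonal is again such one).
PROOF of `per_nonneg`: `CB.per_gram` with A = W^* W (`Matrix.posSemidef_iff_eq_conjTranspose_mul_self`
or the current name), both sides real and nonnegative; `per_im`: the same.
-/

namespace SPM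

open Matrix Finset
open scoped ComplexOrder

open scoped MatrixOrder in
private theorem exists_gram' {n : ℕ} (R : Matrix (Fin n) (Fin n) ℂ) (hR : R.PosSemidef) :
    ∃ C : Matrix (Fin n) (Fin n) ℂ, R = Cᴴ * C := by
  obtain ⟨C, hC⟩ := CStarAlgebra.nonneg_iff_eq_star_mul_self.mp hR.nonneg
  exact ⟨C, by rw [hC, star_eq_conjTranspose]⟩

private theorem per_real {n : ℕ} (A : Matrix (Fin n) (Fin n) ℂ) (hA : A.PosSemidef) :
    ∃ p : ℝ, 0 ≤ p ∧ A.permanent = (p : ℂ) := by
  obtain ⟨C, hC⟩ := exists_gram' A hA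
  have h1 := per_gram C
  rw [← hC] at h1
  have hfac : (0 : ℝ) < (n.factorial : ℝ) := by exact_mod_cast n.factorial_pos
  have hfacC : ((n.factorial : ℕ) : ℂ) ≠ 0 := by exact_mod_cast n.factorial_ne_zero
  refine ⟨(n.factorial : ℝ)⁻¹ * ∑ f : Fin n → Fin n,
    ‖(C.submatrix f id).permanent‖ ^ 2, ?_, ?_⟩
  · apply mul_nonneg (inv_nonneg.2 hfac.le)
    exact Finset.sum_nonneg fun f _ => by positivity
  · apply mul_left_cancel₀ hfacC
    rw [h1]
    push_cast
    rw [← mul_assoc, mul_inv_cancel₀ hfacC, one_mul]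

theorem per_nonneg {n : ℕ} (A : Matrix (Fin n) (Fin n) ℂ) (hA : A.PosSemidef) :
    0 ≤ A.permanent.re := by
  obtain ⟨p, hp, h⟩ := per_real A hA
  rw [h, Complex.ofReal_re]
  exact hp

theorem per_im {n : ℕ} (A : Matrix (Fin n) (Fin n) ℂ) (hA : A.PosSemidef) :
    A.permanent.im = 0 := by
  obtain ⟨p, _, h⟩ := per_real A hA
  rw [h, Complex.ofReal_im]

private theorem Ar_one {n : ℕ} (A : Matrix (Fin (n + 1)) (Fin (n + 1)) ℂ) : Ar A 1 = A := by
  ext i j
  simp [Ar]

theorem per_ge_tail {n : ℕ} (A : Matrix (Fin (n + 1)) (Fin (n + 1)) ℂ) (hA : A.PosSemidef)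
    (h0 : 0 < (A 0 0).re) : (A 0 0).re * (tail A).permanent.re ≤ A.permanent.re := by
  obtain ⟨c, hc, h1, h2⟩ := modes A hA h0
  have h3 := h2 1 zero_le_one
  rw [Ar_one] at h3
  rw [h1, h3, Complex.ofReal_re, Complex.ofReal_re]
  apply mul_le_mul_of_nonneg_left _ h0.le
  apply Finset.sum_le_sum
  intro m _
  rw [one_pow, mul_one]
  have : 0 ≤ (m : ℝ) * c m := mul_nonneg (Nat.cast_nonneg m) (hc m)
  linarith

theorem per_ge_one {n : ℕ} (A : Matrix (Fin n) (Fin n) ℂ) (hA : A.PosSemidef)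
    (h1 : ∀ i, A i i = 1) : 1 ≤ A.permanent.re := by
  induction n with
  | zero => simp [Matrix.permanent]
  | succ n ih =>
    have h00 : (A 0 0).re = 1 := by rw [h1 0, Complex.one_re]
    have h2 : 1 ≤ (tail A).permanent.re :=
      ih (tail A) (hA.submatrix Fin.succ) (fun i => h1 i.succ)
    have h3 := per_ge_tail A hA (by rw [h00]; exact one_pos)
    rw [h00, one_mul] at h3
    exact h2.trans h3

end SPM
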