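import Pool.Agent.Lib.SPM.Inv
import Pool.Agent.Lib.SPM.PerPos

/-!
MODULE SPM.Mx (1.3 h).  If the inequality T n 1 fails there is a worst matrix.

PROOF.  Let X = {(A,x) : A PSD, A i i = 1 for all i, nsq x = 1} in (Fin n → Fin n → ℂ) × (Fin n → ℂ).
X is compact: closed (PosSemidef is a closed condition: IsHermitian and all forms ≥ 0, see the
definition; all maps are continuous) and bounded (|A i j| ≤ 1 for PSD A with unit diagonal,
|x i| ≤ 1).  On X: `PerPos.per_ge_one`, so f(A,x) = qf A x / per(A).re is continuous on X.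
By hypothesis there are PSD A and x with qf A x > per A nsq x.  If some A i i = 0 then qf A x = 0 by
`Inv.qf_zero_diag` and per A nsq x ≥ 0: contradiction.  So all A i i > 0, and scaling
(`qf_scale`, `per_scale` with u_i = 1/√(A i i)) and `qf_smul` (x ≠ 0: otherwise qf A x = 0) give a
point of X with f > 1.  Let ρ = max f > 1, attained at (A0,x0).
`T n ρ`: for PSD A and any x: if some A i i = 0 then qf A x = 0 ≤ ρ per A nsq x (`per_nonneg`);
if x = 0 both sides are 0; otherwise scale to X as before.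
-/

namespace SPM

open Matrix Finset
open scoped ComplexOrder

namespace MxAux

/-- The compact set of normalised pairs. -/
def X (n : ℕ) : Set ((Fin n → Fin n → ℂ) × (Fin n → ℂ)) :=
  {p | (Matrix.of p.1).PosSemidef ∧ (∀ i, p.1 i i = 1) ∧ nsq p.2 = 1}

lemma entry_le {n : ℕ} (A : Matrix (Fin n) (Fin n) ℂ) (hA : A.PosSemidef)
    (h1 : ∀ i, A i i = 1) (i j : Fin n) : ‖A i j‖ ≤ 1 := by
  have h2 := (hA.submatrix (![i, j] : Fin 2 → Fin n)).det_nonneg
  rw [Matrix.det_fin_two] at h2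
  simp only [Matrix.submatrix_apply, Matrix.cons_val_zero, Matrix.cons_val_one] at h2
  rw [h1 i, h1 j] at h2
  have h3 : A j i = star (A i j) := by
    have := hA.isHermitian.apply j i
    exact this.symm
  rw [h3, Complex.star_def, Complex.mul_conj'] at h2
  have h4 : (0 : ℝ) ≤ 1 - ‖A i j‖ ^ 2 := by
    have h5 : (1 * 1 - ((‖A i j‖ : ℂ)) ^ 2) = ((1 - ‖A i j‖ ^ 2 : ℝ) : ℂ) := by
      push_cast; ring
    rw [h5] at h2
    exact_mod_cast h2
  have h6 : ‖A i j‖ ^ 2 ≤ 1 := by linarith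
  have h7 := norm_nonneg (A i j)
  nlinarith

lemma vec_le {n : ℕ} (x : Fin n → ℂ) (hx : nsq x = 1) (i : Fin n) : ‖x i‖ ≤ 1 := by
  have h1 : ‖x i‖ ^ 2 ≤ nsq x :=
    Finset.single_le_sum (f := fun i => ‖x i‖ ^ 2) (fun _ _ => by positivity) (Finset.mem_univ i)
  rw [hx] at h1
  have h7 := norm_nonneg (x i)
  nlinarith

lemma cont_of {n : ℕ} : Continuous fun p : (Fin n → Fin n → ℂ) × (Fin n → ℂ) =>
    (Matrix.of p.1 : Matrix (Fin n) (Fin n) ℂ) := by
  exact continuous_fst

lemma cont_entry {n : ℕ} (i j : Fin n) :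
    Continuous fun p : (Fin n → Fin n → ℂ) × (Fin n → ℂ) => p.1 i j :=
  (continuous_apply j).comp ((continuous_apply i).comp continuous_fst)

lemma cont_vec {n : ℕ} (i : Fin n) :
    Continuous fun p : (Fin n → Fin n → ℂ) × (Fin n → ℂ) => p.2 i :=
  (continuous_apply i).comp continuous_snd

lemma isClosed_X (n : ℕ) : IsClosed (X n) := by
  have h1 : X n = ({p | (Matrix.of p.1).IsHermitian} ∩
      ⋂ z : Fin n → ℂ, {p | 0 ≤ star z ⬝ᵥ (Matrix.of p.1 *ᵥ z)}) ∩
      ((⋂ i : Fin n, {p | p.1 i i = 1}) ∩ {p | nsq p.2 = 1}) := by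
    ext p
    simp only [X, Set.mem_ofPred_eq, Set.mem_inter_iff, Set.mem_iInter,
      Matrix.posSemidef_iff_dotProduct_mulVec]
  rw [h1]
  refine IsClosed.inter (IsClosed.inter ?_ ?_) (IsClosed.inter ?_ ?_)
  · exact isClosed_eq (cont_of.matrix_conjTranspose) cont_of
  · refine isClosed_iInter fun z => ?_
    refine isClosed_le continuous_const ?_
    exact continuous_const.dotProduct (cont_of.matrix_mulVec continuous_const)
  · refine isClosed_iInter fun i => ?_
    exact isClosed_eq (cont_entry i i) continuous_const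
  · refine isClosed_eq ?_ continuous_const
    unfold nsq
    exact continuous_finsetSum _ fun i _ => (cont_vec i).norm.pow 2

lemma isCompact_X (n : ℕ) : IsCompact (X n) := by
  have h1 : IsCompact ((Set.univ.pi fun _ : Fin n => Set.univ.pi fun _ : Fin n =>
      Metric.closedBall (0 : ℂ) 1) ×ˢ (Set.univ.pi fun _ : Fin n => Metric.closedBall (0 : ℂ) 1)) :=
    (isCompact_univ_pi fun _ => isCompact_univ_pi fun _ => isCompact_closedBall _ _).prod
      (isCompact_univ_pi fun _ => isCompact_closedBall _ _)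
  refine h1.of_isClosed_subset (isClosed_X n) ?_
  rintro ⟨A, x⟩ ⟨hA, hd, hx⟩
  refine ⟨?_, ?_⟩
  · intro i _ j _
    rw [mem_closedBall_zero_iff]
    exact entry_le (Matrix.of A) hA hd i j
  · intro i _
    rw [mem_closedBall_zero_iff]
    exact vec_le x hx i

/-- The quotient to be maximised. -/
noncomputable def f {n : ℕ} (p : (Fin n → Fin n → ℂ) × (Fin n → ℂ)) : ℝ :=
  qf (Matrix.of p.1) p.2 / (Matrix.of p.1).permanent.re

lemma continuousOn_f (n : ℕ) : ContinuousOn (f (n := n)) (X n) := by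
  refine ContinuousOn.div ?_ ?_ ?_
  · refine Continuous.continuousOn ?_
    unfold qf qfC
    refine Complex.continuous_re.comp ?_
    refine continuous_finsetSum _ fun i _ => continuous_finsetSum _ fun j _ => ?_
    refine ((cont_vec i).star.mul ((cont_entry i j).mul ?_)).mul (cont_vec j)
    exact (cont_of.matrix_adjugate).matrix_elem j i
  · refine Continuous.continuousOn ?_
    refine Complex.continuous_re.comp ?_
    unfold Matrix.permanent
    refine continuous_finsetSum _ fun σ _ => continuous_finsetProd _ fun i _ => ?_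
    exact cont_entry (σ i) i
  · rintro ⟨A, x⟩ ⟨hA, hd, _⟩
    have := per_ge_one (Matrix.of A) hA hd
    simp only
    linarith

/-- Scaling to the compact set. -/
lemma scale {n : ℕ} (A : Matrix (Fin n) (Fin n) ℂ) (hA : A.PosSemidef) (x : Fin n → ℂ)
    (hd : ∀ i, A i i ≠ 0) (hx : 0 < nsq x) :
    ∃ (B : Matrix (Fin n) (Fin n) ℂ) (y : Fin n → ℂ) (t : ℝ), 0 < t ∧ B.PosSemidef ∧
      (∀ i, B i i = 1) ∧ nsq y = 1 ∧ qf B y = t * qf A x / nsq x ∧
      B.permanent.re = t * A.permanent.re := by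
  have hdr : ∀ i, A i i = (((A i i).re : ℝ) : ℂ) ∧ 0 < (A i i).re := by
    intro i
    have h0 := hA.diag_nonneg (i := i)
    obtain ⟨h1, h2⟩ := Complex.le_def.mp h0
    simp only [Complex.zero_re, Complex.zero_im] at h1 h2
    have h3 : A i i = (((A i i).re : ℝ) : ℂ) := by
      apply Complex.ext
      · simp
      · simp [← h2]
    refine ⟨h3, lt_of_le_of_ne h1 ?_⟩
    intro h4
    apply hd i
    rw [h3, ← h4, Complex.ofReal_zero]
  set u : Fin n → ℂ := fun i => ((1 / Real.sqrt (A i i).re : ℝ) : ℂ) with hu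
  have hun : ∀ i, 0 < ‖u i‖ := by
    intro i
    rw [norm_pos_iff, hu]
    have := Real.sqrt_pos.mpr (hdr i).2
    simp only [ne_eq, Complex.ofReal_eq_zero]
    positivity
  set c : ℂ := ((1 / Real.sqrt (nsq x) : ℝ) : ℂ) with hc
  have hcn : ‖c‖ ^ 2 = 1 / nsq x := by
    rw [hc, Complex.norm_real, Real.norm_eq_abs, sq_abs, div_pow, Real.sq_sqrt hx.le, one_pow]
  refine ⟨Matrix.of fun i j => star (u i) * A i j * u j, fun i => c * x i, ∏ k, ‖u k‖ ^ 2,
    Finset.prod_pos fun k _ => by have := hun k; positivity, psd_scale A hA u, ?_, ?_, ?_, ?_⟩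
  · intro i
    simp only [Matrix.of_apply]
    rw [(hdr i).1]
    simp only [hu, Complex.star_def, Complex.conj_ofReal]
    rw [← Complex.ofReal_mul, ← Complex.ofReal_mul, Complex.ofReal_eq_one]
    have h3 := Real.mul_self_sqrt (hdr i).2.le
    have h4 := Real.sqrt_pos.mpr (hdr i).2
    field_simp
    nlinarith
  · unfold nsq
    simp only [norm_mul, mul_pow]
    rw [← Finset.mul_sum, hcn]
    unfold nsq at hx ⊢
    field_simp
  · rw [qf_smul, qf_scale, hcn]
    ring
  · rw [per_scale, Complex.re_ofReal_mul]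

lemma qf_zero_vec {n : ℕ} (A : Matrix (Fin n) (Fin n) ℂ) (x : Fin n → ℂ) (hx : nsq x = 0) :
    qf A x = 0 := by
  have h0 : ∀ i, x i = 0 := by
    intro i
    unfold nsq at hx
    rw [Finset.sum_eq_zero_iff_of_nonneg (fun _ _ => by positivity)] at hx
    have h6 := hx i (Finset.mem_univ _)
    simpa using h6
  unfold qf qfC
  simp [h0]

lemma nsq_nonneg {n : ℕ} (x : Fin n → ℂ) : 0 ≤ nsq x := by
  unfold nsq
  exact Finset.sum_nonneg fun _ _ => by positivity

end MxAux

open MxAux in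
theorem exists_worst {n : ℕ} (h : ¬ T n 1) :
    ∃ ρ : ℝ, 1 < ρ ∧ T n ρ ∧ ∃ (A : Matrix (Fin n) (Fin n) ℂ) (x : Fin n → ℂ),
      A.PosSemidef ∧ (∀ i, A i i = 1) ∧ nsq x = 1 ∧ qf A x = ρ * A.permanent.re := by
  unfold T at h
  push Not at h
  obtain ⟨A1, hA1, x1, hx1⟩ := h
  have hper1 := per_nonneg A1 hA1
  have hns1 := nsq_nonneg x1
  have hd1 : ∀ i, A1 i i ≠ 0 := by
    intro i hi
    rw [qf_zero_diag A1 hA1 i hi x1] at hx1
    have : 0 ≤ 1 * A1.permanent.re * nsq x1 := by positivity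
    linarith
  have hn1 : 0 < nsq x1 := by
    refine lt_of_le_of_ne hns1 fun h0 => ?_
    rw [qf_zero_vec A1 x1 h0.symm] at hx1
    have : 0 ≤ 1 * A1.permanent.re * nsq x1 := by positivity
    linarith
  obtain ⟨B1, y1, t1, ht1, hB1, hBd1, hy1, hqf1, hp1⟩ := scale A1 hA1 x1 hd1 hn1
  have hmem1 : ((fun i j => B1 i j, y1) : (Fin n → Fin n → ℂ) × (Fin n → ℂ)) ∈ X n :=
    ⟨hB1, hBd1, hy1⟩
  obtain ⟨⟨A0, x0⟩, hm0, hmax⟩ := (isCompact_X n).exists_isMaxOn ⟨_, hmem1⟩ (continuousOn_f n)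
  have hge : ∀ (B : Matrix (Fin n) (Fin n) ℂ) (y : Fin n → ℂ), B.PosSemidef → (∀ i, B i i = 1) →
      nsq y = 1 → qf B y ≤ f (A0, x0) * B.permanent.re := by
    intro B y hB hBd hy
    have hm : ((fun i j => B i j, y) : (Fin n → Fin n → ℂ) × (Fin n → ℂ)) ∈ X n := ⟨hB, hBd, hy⟩
    have h1 := hmax hm
    have h2 : qf B y / B.permanent.re ≤ f (A0, x0) := h1
    have h3 := per_ge_one B hB hBd
    rwa [div_le_iff₀ (by linarith)] at h2
  refine ⟨f (A0, x0), ?_, ?_, Matrix.of A0, x0, hm0.1, hm0.2.1, hm0.2.2, ?_⟩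
  · have h1 := hge B1 y1 hB1 hBd1 hy1
    rw [hqf1, hp1] at h1
    have h2 : t1 * qf A1 x1 ≤ f (A0, x0) * (t1 * A1.permanent.re) * nsq x1 := by
      rwa [div_le_iff₀ hn1] at h1
    have h3 : t1 * (1 * A1.permanent.re * nsq x1) < t1 * qf A1 x1 :=
      mul_lt_mul_of_pos_left hx1 ht1
    have hp2 := per_ge_one B1 hB1 hBd1
    rw [hp1] at hp2
    by_contra hcon
    push Not at hcon
    have h4 : 0 ≤ t1 * A1.permanent.re * nsq x1 := by positivity
    nlinarith
  · intro A hA x
    have hper := per_nonneg A hA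
    have hns := nsq_nonneg x
    have hf0 : 0 ≤ f (A0, x0) := by
      by_contra hcon
      push Not at hcon
      have h1 := hge B1 y1 hB1 hBd1 hy1
      rw [hqf1, hp1] at h1
      have h2 : t1 * qf A1 x1 ≤ f (A0, x0) * (t1 * A1.permanent.re) * nsq x1 := by
        rwa [div_le_iff₀ hn1] at h1
      have h3 : t1 * (1 * A1.permanent.re * nsq x1) < t1 * qf A1 x1 :=
        mul_lt_mul_of_pos_left hx1 ht1
      have h4 : 0 ≤ t1 * A1.permanent.re * nsq x1 := by positivity
      nlinarith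
    by_cases hd : ∀ i, A i i ≠ 0
    · rcases hns.eq_or_lt with h0 | h0
      · rw [qf_zero_vec A x h0.symm, ← h0, mul_zero]
      · obtain ⟨B, y, t, ht, hB, hBd, hy, hqf, hp⟩ := scale A hA x hd h0
        have h1 := hge B y hB hBd hy
        rw [hqf, hp] at h1
        have h2 : t * qf A x ≤ f (A0, x0) * (t * A.permanent.re) * nsq x := by
          rwa [div_le_iff₀ h0] at h1
        have h3 : t * qf A x ≤ t * (f (A0, x0) * A.permanent.re * nsq x) := by
          calc t * qf A x ≤ f (A0, x0) * (t * A.permanent.re) * nsq x := h2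
            _ = _ := by ring
        exact le_of_mul_le_mul_left h3 ht
    · push Not at hd
      obtain ⟨i, hi⟩ := hd
      rw [qf_zero_diag A hA i hi x]
      positivity
  · have h3 := per_ge_one (Matrix.of A0) hm0.1 hm0.2.1
    have h4 : (Matrix.of A0).permanent.re ≠ 0 := by linarith
    change _ = qf (Matrix.of A0) x0 / (Matrix.of A0).permanent.re * _
    rw [div_mul_cancel₀ _ h4]

end SPM
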