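import Pool.Agent.Lib.SPM.Defs

/-!
MODULE SPM.Ran (1.2 h).  A PSD matrix with nonzero adjugate none of whose diagonal entries can be
decreased has a null vector without zero entries.

PROOF.
(1) If `A.mulVec y = e_k` (Pi.single k 1) for some y then `bump A k (-s)` is PSD for some s > 0: for
every z, z_k = e_k^* z = y^* A z, so |z_k|^2 ≤ (y^* A y) (z^* A z) (Cauchy-Schwarz for the PSD form;
e.g. from 0 ≤ (z - c y)^* A (z - c y), c = (y^* A z)/(y^* A y), note y^* A y = y_k-type real number > 0
because A y ≠ 0), and s = 1/(y^* A y).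
(2) So by hypothesis no e_k is in the range.  In particular det A = 0 (otherwise y = A⁻¹ e_k).
(3) A = C^* C (posSemidef_iff...), adj A = adj C * (adj C)^* (`adjugate_mul_distrib`,
`adjugate_conjTranspose`).  adj A ≠ 0, so some row i of adj C is nonzero, adj A i i = ∑_j |adj C i j|^2
≠ 0.  Put u k = adj A k i (column i).  A u = det A e_i = 0 (`mul_adjugate`).
(4) Suppose u k = 0; then k ≠ i.  The minor A(i|i) is invertible: its det is adj A i i ≠ 0
(`Matrix.adjugate_fin_succ_eq_det_submatrix`, n = m+1; sign (-1)^(i+i) = 1).  So there is y with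
y_i = 0 and (A y)_j = δ_jk for all j ≠ i (solve with the inverse of A.submatrix i.succAbove
i.succAbove).  As A is Hermitian and A u = 0: ∑_j conj(u_j) (A y)_j = 0, i.e.
conj(u_i) (A y)_i + conj(u_k) = 0, so (A y)_i = 0 and A y = e_k, contradiction with (2).
-/

namespace SPM

open Matrix Finset
open scoped ComplexOrder

namespace RanAux

/-- If `e_k` lies in the range of `A`, the `k`-th diagonal entry can be decreased. -/
lemma bump_psd {n : ℕ} (A : Matrix (Fin n) (Fin n) ℂ) (hA : A.PosSemidef) (k : Fin n)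
    (y : Fin n → ℂ) (hy : A *ᵥ y = Pi.single k 1) :
    ∃ s : ℝ, 0 < s ∧ (bump A k (-s)).PosSemidef := by
  have hH : Aᴴ = A := hA.isHermitian
  have h0 : star y ⬝ᵥ (A *ᵥ y) = star (y k) := by
    rw [hy]; simp
  have hne : star y ⬝ᵥ (A *ᵥ y) ≠ 0 := by
    intro h
    rw [hA.dotProduct_mulVec_zero_iff] at h
    rw [h] at hy
    have := congrFun hy k
    simp at this
  have hnn := hA.dotProduct_mulVec_nonneg y
  have hpos : 0 < star (y k) := by
    rw [← h0]
    exact lt_of_le_of_ne hnn (Ne.symm hne)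
  obtain ⟨hre, him⟩ := Complex.lt_def.mp hpos
  simp only [Complex.zero_re, Complex.zero_im, Complex.star_def, Complex.conj_re,
    Complex.conj_im] at hre him
  set t : ℝ := (y k).re with ht
  have hyk : y k = (t : ℂ) := by
    apply Complex.ext
    · simp [ht]
    · simp; linarith
  have htne : (t : ℂ) ≠ 0 := by exact_mod_cast hre.ne'
  refine ⟨1 / t, by positivity, ?_⟩
  have hHb : (bump A k (-(1 / t))).IsHermitian := by
    unfold bump
    refine hA.isHermitian.add ?_
    ext a b
    simp only [Matrix.conjTranspose_apply, Matrix.smul_apply, smul_eq_mul, star_mul',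
      Matrix.single_apply]
    by_cases h1 : k = a ∧ k = b
    · obtain ⟨rfl, rfl⟩ := h1
      simp
    · have h2 : ¬ (k = b ∧ k = a) := fun h => h1 ⟨h.2, h.1⟩
      simp [h1, h2]
  refine Matrix.PosSemidef.of_dotProduct_mulVec_nonneg hHb fun z => ?_
  have key : star z ⬝ᵥ (bump A k (-(1 / t)) *ᵥ z)
      = star (z - (z k / t) • y) ⬝ᵥ (A *ᵥ (z - (z k / t) • y)) := by
    have e1 : star z ⬝ᵥ (A *ᵥ y) = star (z k) := by rw [hy]; simp
    have e2 : star y ⬝ᵥ (A *ᵥ z) = z k := by
      rw [Matrix.dotProduct_mulVec, ← hH, ← Matrix.star_mulVec, hy]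
      simp
    have e3 : star z ⬝ᵥ ((((-(1 / t) : ℝ) : ℂ) • Matrix.single k k (1 : ℂ)) *ᵥ z)
        = -(1 / t) * (star (z k) * z k) := by
      have e4 : (Matrix.single k k (1 : ℂ)) *ᵥ z = Pi.single k (z k) := by
        funext a
        simp only [Matrix.mulVec, dotProduct, Matrix.single_apply, Pi.single_apply]
        by_cases ha : a = k
        · subst ha; simp
        · have : ¬ k = a := fun h => ha h.symm
          simp [ha, this]
      rw [Matrix.smul_mulVec, dotProduct_smul, e4]
      simp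
    unfold bump
    rw [Matrix.add_mulVec, dotProduct_add, e3, star_sub, star_smul, Matrix.mulVec_sub,
      Matrix.mulVec_smul, sub_dotProduct, dotProduct_sub, dotProduct_sub, smul_dotProduct,
      smul_dotProduct, dotProduct_smul, dotProduct_smul, e1, e2, h0, hyk]
    simp only [smul_eq_mul, star_div₀, Complex.star_def, Complex.conj_ofReal]
    field_simp
    ring
  rw [key]
  exact hA.dotProduct_mulVec_nonneg _

lemma diag_ne {n : ℕ} (A : Matrix (Fin n) (Fin n) ℂ) (hA : A.PosSemidef)
    (hadj : A.adjugate ≠ 0) : ∃ i, A.adjugate i i ≠ 0 := by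
  obtain ⟨B, hB⟩ : ∃ B : Matrix (Fin n) (Fin n) ℂ, A = Bᴴ * B := by
    open scoped MatrixOrder in
    obtain ⟨B, hB⟩ := CStarAlgebra.nonneg_iff_eq_star_mul_self.mp hA.nonneg
    exact ⟨B, hB⟩
  subst hB
  by_contra hcon
  push Not at hcon
  apply hadj
  have h1 : (Bᴴ * B).adjugate = B.adjugate * B.adjugateᴴ := by
    rw [Matrix.adjugate_mul_distrib, Matrix.adjugate_conjTranspose]
  have h2 : B.adjugate = 0 := by
    ext i j
    have h3 := hcon i
    rw [h1, Matrix.mul_apply] at h3
    simp only [Matrix.conjTranspose_apply] at h3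
    have h4 : ∑ j, B.adjugate i j * star (B.adjugate i j)
        = ((∑ j, ‖B.adjugate i j‖ ^ 2 : ℝ) : ℂ) := by
      push_cast
      refine Finset.sum_congr rfl fun l _ => ?_
      rw [Complex.star_def, Complex.mul_conj']
    rw [h4] at h3
    have h5 : (∑ j, ‖B.adjugate i j‖ ^ 2 : ℝ) = 0 := by exact_mod_cast h3
    rw [Finset.sum_eq_zero_iff_of_nonneg (fun _ _ => by positivity)] at h5
    have h6 := h5 j (Finset.mem_univ _)
    simpa using h6
  rw [h1, h2, zero_mul]

end RanAux

theorem exists_null {n : ℕ} (A : Matrix (Fin n) (Fin n) ℂ) (hA : A.PosSemidef)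
    (hadj : A.adjugate ≠ 0)
    (hb : ∀ k, ∀ s : ℝ, 0 < s → ¬ (bump A k (-s)).PosSemidef) :
    ∃ u : Fin n → ℂ, (∀ k, u k ≠ 0) ∧ A.mulVec u = 0 := by
  have hno : ∀ k, ∀ y : Fin n → ℂ, A *ᵥ y ≠ Pi.single k 1 := by
    intro k y hy
    obtain ⟨s, hs, hp⟩ := RanAux.bump_psd A hA k y hy
    exact hb k s hs hp
  obtain ⟨i, hi⟩ := RanAux.diag_ne A hA hadj
  have hdet : A.det = 0 := by
    by_contra hd
    apply hno i (A⁻¹ *ᵥ Pi.single i 1)
    rw [Matrix.mulVec_mulVec, Matrix.mul_nonsing_inv _ (Ne.isUnit hd), Matrix.one_mulVec]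
  have hAu : A *ᵥ (fun k => A.adjugate k i) = 0 := by
    have h := Matrix.mul_adjugate A
    rw [hdet, zero_smul] at h
    funext a
    have := congrFun (congrFun h a) i
    simpa [Matrix.mul_apply, Matrix.mulVec, dotProduct] using this
  refine ⟨fun k => A.adjugate k i, ?_, hAu⟩
  intro k hk
  simp only at hk
  have hki : k ≠ i := by
    rintro rfl
    exact hi hk
  obtain _ | m := n
  · exact i.elim0
  obtain ⟨k', rfl⟩ := Fin.exists_succAbove_eq hki
  set M : Matrix (Fin m) (Fin m) ℂ := A.submatrix i.succAbove i.succAbove with hM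
  have hMd : M.det ≠ 0 := by
    rw [Matrix.adjugate_fin_succ_eq_det_submatrix] at hi
    intro h
    apply hi
    rw [← hM, h, mul_zero]
  set y' : Fin m → ℂ := M⁻¹ *ᵥ Pi.single k' 1 with hy'
  have hMy : M *ᵥ y' = Pi.single k' 1 := by
    rw [hy', Matrix.mulVec_mulVec, Matrix.mul_nonsing_inv _ (Ne.isUnit hMd), Matrix.one_mulVec]
  set y : Fin (m + 1) → ℂ := i.insertNth 0 y' with hyd
  have hAy : ∀ j, (A *ᵥ y) (i.succAbove j) = (Pi.single k' 1 : Fin m → ℂ) j := by
    intro j
    rw [← hMy]
    simp only [Matrix.mulVec, dotProduct]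
    rw [Fin.sum_univ_succAbove _ i]
    simp [hyd, hM]
  have horth : star (fun k => A.adjugate k i) ⬝ᵥ (A *ᵥ y) = 0 := by
    rw [Matrix.dotProduct_mulVec, ← (show Aᴴ = A from hA.isHermitian), ← Matrix.star_mulVec]
    rw [(show Aᴴ = A from hA.isHermitian), hAu]
    simp
  have hci : (A *ᵥ y) i = 0 := by
    rw [dotProduct, Fin.sum_univ_succAbove _ i] at horth
    simp only [Pi.star_apply, hAy] at horth
    rw [Finset.sum_eq_single k'] at horth
    · rw [hk] at horth
      simp only [star_zero, zero_mul, add_zero] at horth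
      rcases mul_eq_zero.mp horth with h | h
      · exact absurd (star_eq_zero.mp h) hi
      · exact h
    · intro b _ hb'
      rw [Pi.single_eq_of_ne hb', mul_zero]
    · intro h
      exact absurd (Finset.mem_univ _) h
  apply hno (i.succAbove k') y
  funext a
  rcases Fin.eq_self_or_eq_succAbove i a with h | ⟨b, h⟩
  · rw [h, hci, Pi.single_eq_of_ne]
    exact (Fin.succAbove_ne i k').symm
  · rw [h, hAy]
    by_cases hb2 : b = k'
    · subst hb2
      simp
    · rw [Pi.single_eq_of_ne hb2, Pi.single_eq_of_ne]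
      intro h'
      exact hb2 (Fin.succAbove_right_injective h')

end SPM
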