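import Pool.Agent.Lib.SPM.RepA

/-!
MODULE SPM.RepB (1.3 h).  The two-sided ideal of the Young symmetriser of the diagram (2,1^(n-2)) is
contained in the space of the functions `FX X` with all X_j of sum zero.

The diagram: cells i ↦ (row i, col i), injective, down-closed, contains (0,1), but neither (0,2) nor
(1,1).  So there is exactly one cell c1 with col c1 = 1 (row 0), all other cells have col = 0, and c0 is
the cell (0,0); rows of cells of column 0 are pairwise different (injectivity), so only c0 and c1 have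
row 0 and `∀ i, row (p i) = row i` forces p = 1 or p = swap c0 c1;
`∀ i, col (q i) = col i` is equivalent to q c1 = c1.
PROOF.  Let y(h) = ∑_p ∑_q [row cond, col cond, p*q = h] sgn q.
* y(h) = sgn(h) ([h c1 = c1] - [h c1 = c0]):  p = 1: q = h, requires h c1 = c1, contributes sgn h;
  p = swap c0 c1: q = p*h, requires p (h c1) = c1, i.e. h c1 = c0, contributes sgn(p h) = -sgn h.
* The generator with (s,t) is g ↦ y(s⁻¹ g t⁻¹) = sgn(s) sgn(t) sgn(g) z(s⁻¹ (g (t⁻¹ c1))), z = e_{c1} - e_{c0}: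
  this is FX X for X j i = [j = t⁻¹ c1] sgn(s) sgn(t) z(s⁻¹ i), which has sum zero.
* The set {x | ∃ X, (∀ j, ∑ i, X j i = 0) ∧ x = FX X} is a submodule (FX is linear in X), so it
  contains the span (`Submodule.span_le` or `span_induction`).
-/

set_option autoImplicit false
open scoped Classical

namespace SPM

open Matrix Finset

namespace RepBAux

/-- Geometry of the diagram. -/
theorem cells {n : ℕ} (row col : Fin n → ℕ)
    (hinj : Function.Injective (fun i : Fin n => (row i, col i)))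
    (hdown : ∀ (i : Fin n) (a b : ℕ), a ≤ row i → b ≤ col i → ∃ j : Fin n, row j = a ∧ col j = b)
    (h01 : ∃ i : Fin n, row i = 0 ∧ col i = 1)
    (h02 : ¬ ∃ i : Fin n, row i = 0 ∧ col i = 2)
    (h11 : ¬ ∃ i : Fin n, row i = 1 ∧ col i = 1) :
    ∃ c0 c1 : Fin n, c0 ≠ c1 ∧ row c0 = 0 ∧ row c1 = 0 ∧ col c1 = 1 ∧
      (∀ i, i ≠ c1 → col i = 0) ∧ (∀ i, row i = 0 → i = c0 ∨ i = c1) := by
  obtain ⟨c1, hr1, hc1⟩ := h01
  obtain ⟨c0, hr0, hc0⟩ := hdown c1 0 0 (Nat.zero_le _) (Nat.zero_le _)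
  have hne : c0 ≠ c1 := by
    rintro rfl
    omega
  have hcol : ∀ i, i ≠ c1 → col i = 0 := by
    intro i hi
    by_contra hc
    have h1 : 1 ≤ col i := Nat.one_le_iff_ne_zero.mpr hc
    have hr : row i = 0 := by
      by_contra hr
      obtain ⟨j, hj1, hj2⟩ := hdown i 1 1 (Nat.one_le_iff_ne_zero.mpr hr) h1
      exact h11 ⟨j, hj1, hj2⟩
    have h2 : col i = 1 := by
      by_contra hne1
      have h3 : 2 ≤ col i := by omega
      obtain ⟨j, hj1, hj2⟩ := hdown i 0 2 (Nat.zero_le _) h3
      exact h02 ⟨j, hj1, hj2⟩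
    apply hi
    apply hinj
    simp only [Prod.mk.injEq]
    exact ⟨by rw [hr, hr1], by rw [h2, hc1]⟩
  refine ⟨c0, c1, hne, hr0, hr1, hc1, hcol, ?_⟩
  intro i hi
  by_cases h : i = c1
  · exact Or.inr h
  · left
    apply hinj
    simp only [Prod.mk.injEq]
    exact ⟨by rw [hi, hr0], by rw [hcol i h, hc0]⟩

theorem rowcond {n : ℕ} {row col : Fin n → ℕ} {c0 c1 : Fin n}
    (hinj : Function.Injective (fun i : Fin n => (row i, col i)))
    (hr0 : row c0 = 0) (hr1 : row c1 = 0)
    (hcol : ∀ i, i ≠ c1 → col i = 0) (hrow : ∀ i, row i = 0 → i = c0 ∨ i = c1)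
    (p : Equiv.Perm (Fin n)) :
    (∀ i, row (p i) = row i) ↔ (p = 1 ∨ p = Equiv.swap c0 c1) := by
  constructor
  · intro h
    -- cells with nonzero row are fixed
    have hfix : ∀ i, i ≠ c0 → i ≠ c1 → p i = i := by
      intro i h0 h1
      have hri : row i ≠ 0 := by
        intro hz
        rcases hrow i hz with h2 | h2
        · exact h0 h2
        · exact h1 h2
      have hrp : row (p i) ≠ 0 := by rw [h i]; exact hri
      have hp1 : p i ≠ c1 := by
        intro hz
        rw [hz] at hrp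
        exact hrp hr1
      apply hinj
      simp only [Prod.mk.injEq]
      exact ⟨h i, by rw [hcol _ hp1, hcol _ h1]⟩
    have h0 : p c0 = c0 ∨ p c0 = c1 := hrow _ (by rw [h c0, hr0])
    have h1 : p c1 = c0 ∨ p c1 = c1 := hrow _ (by rw [h c1, hr1])
    by_cases hc : c0 = c1
    · left
      ext i
      by_cases hi : i = c0
      · subst hi
        rcases h0 with h2 | h2
        · rw [h2]; rfl
        · rw [h2, ← hc]; rfl
      · rw [hfix i hi (by rw [← hc]; exact hi)]; rfl
    rcases h0 with h0 | h0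
    · left
      have h1' : p c1 = c1 := by
        rcases h1 with h1 | h1
        · exact absurd (p.injective (h0.trans h1.symm)) hc
        · exact h1
      ext i
      by_cases hi : i = c0
      · subst hi; rw [h0]; rfl
      · by_cases hi1 : i = c1
        · subst hi1; rw [h1']; rfl
        · rw [hfix i hi hi1]; rfl
    · right
      have h1' : p c1 = c0 := by
        rcases h1 with h1 | h1
        · exact h1
        · exact absurd (p.injective (h0.trans h1.symm)) hc
      ext i
      by_cases hi : i = c0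
      · subst hi; rw [h0, Equiv.swap_apply_left]
      · by_cases hi1 : i = c1
        · subst hi1; rw [h1', Equiv.swap_apply_right]
        · rw [hfix i hi hi1, Equiv.swap_apply_of_ne_of_ne hi hi1]
  · rintro (rfl | rfl)
    · intro i; rfl
    · intro i
      by_cases hi : i = c0
      · subst hi; rw [Equiv.swap_apply_left, hr0, hr1]
      · by_cases hi1 : i = c1
        · subst hi1; rw [Equiv.swap_apply_right, hr0, hr1]
        · rw [Equiv.swap_apply_of_ne_of_ne hi hi1]

theorem colcond {n : ℕ} {col : Fin n → ℕ} {c1 : Fin n}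
    (hc1 : col c1 = 1) (hcol : ∀ i, i ≠ c1 → col i = 0) (q : Equiv.Perm (Fin n)) :
    (∀ i, col (q i) = col i) ↔ q c1 = c1 := by
  constructor
  · intro h
    by_contra hne
    have h1 := h c1
    rw [hcol _ hne, hc1] at h1
    exact absurd h1 (by norm_num)
  · intro h i
    by_cases hi : i = c1
    · subst hi; rw [h]
    · have hq : q i ≠ c1 := by
        intro hz
        apply hi
        apply q.injective
        rw [hz, h]
      rw [hcol _ hi, hcol _ hq]

/-- The Young symmetriser, explicitly. -/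
theorem young {n : ℕ} {row col : Fin n → ℕ} {c0 c1 : Fin n} (hne : c0 ≠ c1)
    (hinj : Function.Injective (fun i : Fin n => (row i, col i)))
    (hr0 : row c0 = 0) (hr1 : row c1 = 0) (hc1 : col c1 = 1)
    (hcol : ∀ i, i ≠ c1 → col i = 0) (hrow : ∀ i, row i = 0 → i = c0 ∨ i = c1)
    (h : Equiv.Perm (Fin n)) :
    (∑ p : Equiv.Perm (Fin n), ∑ q : Equiv.Perm (Fin n),
      if (∀ i, row (p i) = row i) ∧ (∀ i, col (q i) = col i) ∧ p * q = h
      then ((Equiv.Perm.sign q : ℤ) : ℂ) else 0) =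
    ((Equiv.Perm.sign h : ℤ) : ℂ) *
      ((if h c1 = c1 then 1 else 0) - (if h c1 = c0 then 1 else 0)) := by
  have hswap : (1 : Equiv.Perm (Fin n)) ≠ Equiv.swap c0 c1 := by
    intro he
    have h1 := congrArg (fun p : Equiv.Perm (Fin n) => p c0) he
    simp only [Equiv.Perm.coe_one, id_eq, Equiv.swap_apply_left] at h1
    exact hne h1
  have inner : ∀ p : Equiv.Perm (Fin n),
      (∑ q : Equiv.Perm (Fin n),
        if (∀ i, row (p i) = row i) ∧ (∀ i, col (q i) = col i) ∧ p * q = h
        then ((Equiv.Perm.sign q : ℤ) : ℂ) else 0) =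
      if (p = 1 ∨ p = Equiv.swap c0 c1) ∧ (p⁻¹ * h) c1 = c1
        then ((Equiv.Perm.sign (p⁻¹ * h) : ℤ) : ℂ) else 0 := by
    intro p
    rw [Finset.sum_eq_single (p⁻¹ * h)]
    · have e1 := rowcond hinj hr0 hr1 hcol hrow p
      have e2 := colcond hc1 hcol (p⁻¹ * h)
      have e3 : p * (p⁻¹ * h) = h := by group
      by_cases hc : (p = 1 ∨ p = Equiv.swap c0 c1) ∧ (p⁻¹ * h) c1 = c1
      · rw [if_pos hc, if_pos ⟨e1.mpr hc.1, e2.mpr hc.2, e3⟩]
      · rw [if_neg hc, if_neg]
        rintro ⟨a, b, _⟩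
        exact hc ⟨e1.mp a, e2.mp b⟩
    · intro q _ hq
      rw [if_neg]
      rintro ⟨_, _, he⟩
      apply hq
      rw [← he]
      group
    · intro hnot
      exact absurd (Finset.mem_univ _) hnot
  rw [Finset.sum_congr rfl (fun p _ => inner p)]
  have hsub : (∑ p : Equiv.Perm (Fin n),
      if (p = 1 ∨ p = Equiv.swap c0 c1) ∧ (p⁻¹ * h) c1 = c1
        then ((Equiv.Perm.sign (p⁻¹ * h) : ℤ) : ℂ) else 0) =
      ∑ p ∈ ({1, Equiv.swap c0 c1} : Finset (Equiv.Perm (Fin n))),
        if (p = 1 ∨ p = Equiv.swap c0 c1) ∧ (p⁻¹ * h) c1 = c1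
          then ((Equiv.Perm.sign (p⁻¹ * h) : ℤ) : ℂ) else 0 := by
    symm
    apply Finset.sum_subset (Finset.subset_univ _)
    intro p _ hp
    rw [if_neg]
    rintro ⟨ha, _⟩
    apply hp
    simpa using ha
  rw [hsub, Finset.sum_pair hswap]
  have k1 : ((1 : Equiv.Perm (Fin n))⁻¹ * h) = h := by group
  have k2 : ((Equiv.swap c0 c1)⁻¹ * h) c1 = c1 ↔ h c1 = c0 := by
    rw [Equiv.swap_inv, Equiv.Perm.mul_apply, Equiv.swap_apply_eq_iff, Equiv.swap_apply_right]
  have k3 : ((Equiv.Perm.sign ((Equiv.swap c0 c1)⁻¹ * h) : ℤ) : ℂ) =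
      - ((Equiv.Perm.sign h : ℤ) : ℂ) := by
    rw [Equiv.swap_inv, Equiv.Perm.sign_mul, Equiv.Perm.sign_swap hne]
    push_cast
    ring
  rw [k1, k3]
  simp only [true_or, or_true, true_and, k2]
  by_cases a : h c1 = c1
  · have b : ¬ h c1 = c0 := by
      rw [a]; exact fun hz => hne hz.symm
    rw [if_pos a, if_neg b, if_pos a, if_neg b]
    ring
  · by_cases b : h c1 = c0
    · rw [if_neg a, if_pos b, if_neg a, if_pos b]
      ring
    · rw [if_neg a, if_neg b, if_neg a, if_neg b]
      ring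

theorem FX_add {n : ℕ} (X Y : Fin n → Fin n → ℂ) : FX (X + Y) = FX X + FX Y := by
  funext g
  simp only [FX, Pi.add_apply, Finset.sum_add_distrib]
  ring

theorem FX_smul {n : ℕ} (c : ℂ) (X : Fin n → Fin n → ℂ) : FX (c • X) = c • FX X := by
  funext g
  simp only [FX, Pi.smul_apply, smul_eq_mul, ← Finset.mul_sum]
  ring

theorem FX_zero {n : ℕ} : FX (0 : Fin n → Fin n → ℂ) = 0 := by
  funext g
  simp [FX]

end RepBAux

open RepBAux in
theorem ideal_le (n : ℕ) (row col : Fin n → ℕ)
    (hinj : Function.Injective (fun i : Fin n => (row i, col i)))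
    (hdown : ∀ (i : Fin n) (a b : ℕ), a ≤ row i → b ≤ col i → ∃ j : Fin n, row j = a ∧ col j = b)
    (h01 : ∃ i : Fin n, row i = 0 ∧ col i = 1)
    (h02 : ¬ ∃ i : Fin n, row i = 0 ∧ col i = 2)
    (h11 : ¬ ∃ i : Fin n, row i = 1 ∧ col i = 1)
    (x : Equiv.Perm (Fin n) → ℂ)
    (hx : x ∈ Submodule.span ℂ (Set.range
        (fun st : Equiv.Perm (Fin n) × Equiv.Perm (Fin n) =>
          fun g : Equiv.Perm (Fin n) =>
            ∑ p : Equiv.Perm (Fin n), ∑ q : Equiv.Perm (Fin n),
              if (∀ i, row (p i) = row i) ∧ (∀ i, col (q i) = col i) ∧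
                  p * q = st.1⁻¹ * g * st.2⁻¹
              then ((Equiv.Perm.sign q : ℤ) : ℂ) else 0))) :
    ∃ X : Fin n → Fin n → ℂ, (∀ j, ∑ i, X j i = 0) ∧ x = FX X := by
  obtain ⟨c0, c1, hne, hr0, hr1, hc1, hcol, hrow⟩ := cells row col hinj hdown h01 h02 h11
  induction hx using Submodule.span_induction with
  | mem x hx =>
    obtain ⟨⟨s, t⟩, rfl⟩ := hx
    refine ⟨fun j i => if j = t⁻¹ c1 then
      ((Equiv.Perm.sign s : ℤ) : ℂ) * ((Equiv.Perm.sign t : ℤ) : ℂ) *
        ((if s⁻¹ i = c1 then 1 else 0) - (if s⁻¹ i = c0 then 1 else 0)) else 0, ?_, ?_⟩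
    · intro j
      by_cases hj : j = t⁻¹ c1
      · simp only [if_pos hj]
        rw [← Finset.mul_sum, Finset.sum_sub_distrib]
        have hs : ∀ c : Fin n, (∑ i : Fin n, (if s⁻¹ i = c then (1 : ℂ) else 0)) = 1 := by
          intro c
          rw [Finset.sum_eq_single (s c)]
          · simp
          · intro b _ hb
            rw [if_neg]
            intro hz
            apply hb
            rw [← hz]
            simp
          · intro hnot
            exact absurd (Finset.mem_univ _) hnot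
        rw [hs, hs]
        ring
      · simp only [if_neg hj, Finset.sum_const_zero]
    · funext g
      have hy := young hne hinj hr0 hr1 hc1 hcol hrow (s⁻¹ * g * t⁻¹)
      simp only
      rw [hy]
      simp only [FX]
      rw [Finset.sum_eq_single (t⁻¹ c1)]
      · rw [if_pos rfl]
        have e1 : (s⁻¹ * g * t⁻¹) c1 = s⁻¹ (g (t⁻¹ c1)) := rfl
        rw [e1]
        have e2 : ((Equiv.Perm.sign (s⁻¹ * g * t⁻¹) : ℤ) : ℂ) =
            ((Equiv.Perm.sign g : ℤ) : ℂ) *
              (((Equiv.Perm.sign s : ℤ) : ℂ) * ((Equiv.Perm.sign t : ℤ) : ℂ)) := by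
          rw [Equiv.Perm.sign_mul, Equiv.Perm.sign_mul, Equiv.Perm.sign_inv, Equiv.Perm.sign_inv]
          push_cast
          ring
        rw [e2]
        ring
      · intro b _ hb
        rw [if_neg hb]
      · intro hnot
        exact absurd (Finset.mem_univ _) hnot
  | zero => exact ⟨0, fun j => by simp, FX_zero.symm⟩
  | add x y _ _ hx hy =>
    obtain ⟨X, hX, rfl⟩ := hx
    obtain ⟨Y, hY, rfl⟩ := hy
    refine ⟨X + Y, fun j => ?_, (FX_add X Y).symm⟩
    simp only [Pi.add_apply, Finset.sum_add_distrib]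
    rw [hX j, hY j, add_zero]
  | smul c x _ hx =>
    obtain ⟨X, hX, rfl⟩ := hx
    refine ⟨c • X, fun j => ?_, (FX_smul c X).symm⟩
    simp only [Pi.smul_apply, smul_eq_mul, ← Finset.mul_sum]
    rw [hX j, mul_zero]

end SPM
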