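import Pool.Agent.Lib.SPM.Defs

/-!
MODULE SPM.Adj (1 h).  `qfC` is affine in the corner entry.

PROOF of `qfC_bump`.  Let A' = bump A 0 s.  Use `Matrix.adjugate_apply : adjugate A i j =
det (A.updateRow j (Pi.single i 1))` (or `adjugate_fin_succ_eq_det_submatrix`).
* adj A' 0 0 = adj A 0 0 = det (tail A); adj A' 0 j = adj A 0 j and adj A' j 0 = adj A j 0 for all j
  (the cofactor does not contain the entry (0,0): row 0 resp. column 0 is deleted).
* adj A' (j+1) (i+1) = adj A (j+1) (i+1) + s * adj (tail A) j i : det is linear in row 0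
  (`det_updateRow_add`, `det_updateRow_smul`) and for a matrix with first row (1,0,..,0) the det is
  the det of the tail (`det_succ_row_zero`); the tail of `A.updateRow (i+1) (Pi.single (j+1) 1)` is
  `(tail A).updateRow i (Pi.single j 1)`.
Now expand `qfC A' x` with `Fin.sum_univ_succ` twice: the (0,0) term is
conj(x0) x0 (A00 + s) det(tail A), the (0,j), (j,0) terms do not change, and the (i+1,j+1) terms get
s * qfC (tail A) (vtail x).
PROOF of `qfC_one`: ∑_j A i j * adj A j i = det A (`Matrix.mul_adjugate`), and the same for columns.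
`qfC_add_const`: expand, use `∑_j A i j adj A j i = det A` and `∑_i A i j adj A j i = det A`.
-/

namespace SPM

open Matrix Finset

private theorem bump_apply {n : ℕ} (A : Matrix (Fin n) (Fin n) ℂ) (k : Fin n) (s : ℝ)
    (i j : Fin n) : bump A k s i j = A i j + if k = i ∧ k = j then (s : ℂ) else 0 := by
  simp only [bump, Matrix.add_apply, Matrix.smul_apply, Matrix.single_apply, smul_eq_mul]
  split_ifs <;> simp

private theorem bump_succ_row {n : ℕ} (A : Matrix (Fin (n + 1)) (Fin (n + 1)) ℂ) (s : ℝ)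
    (i : Fin n) (j : Fin (n + 1)) : bump A 0 s i.succ j = A i.succ j := by
  rw [bump_apply, if_neg (fun h => (Fin.succ_ne_zero i) h.1.symm), add_zero]

private theorem bump_succ_col {n : ℕ} (A : Matrix (Fin (n + 1)) (Fin (n + 1)) ℂ) (s : ℝ)
    (i : Fin (n + 1)) (j : Fin n) : bump A 0 s i j.succ = A i j.succ := by
  rw [bump_apply, if_neg (fun h => (Fin.succ_ne_zero j) h.2.symm), add_zero]

private theorem bump_zero {n : ℕ} (A : Matrix (Fin (n + 1)) (Fin (n + 1)) ℂ) (s : ℝ) :
    bump A 0 s 0 0 = A 0 0 + s := by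
  rw [bump_apply, if_pos ⟨rfl, rfl⟩]

private theorem adj_col0 {n : ℕ} (A : Matrix (Fin (n + 1)) (Fin (n + 1)) ℂ) (s : ℝ)
    (j : Fin (n + 1)) : (bump A 0 s).adjugate j 0 = A.adjugate j 0 := by
  rw [Matrix.adjugate_apply, Matrix.adjugate_apply]
  congr 1
  ext a b
  rcases Fin.eq_zero_or_eq_succ a with rfl | ⟨a, rfl⟩
  · rw [Matrix.updateRow_self, Matrix.updateRow_self]
  · rw [Matrix.updateRow_ne (Fin.succ_ne_zero a), Matrix.updateRow_ne (Fin.succ_ne_zero a),
      bump_succ_row]

private theorem bump_transpose {n : ℕ} (A : Matrix (Fin n) (Fin n) ℂ) (k : Fin n) (s : ℝ) :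
    (bump A k s)ᵀ = bump Aᵀ k s := by
  ext i j
  rw [Matrix.transpose_apply, bump_apply, bump_apply, Matrix.transpose_apply]
  congr 1
  by_cases h : k = j ∧ k = i
  · rw [if_pos h, if_pos ⟨h.2, h.1⟩]
  · rw [if_neg h, if_neg (fun h' => h ⟨h'.2, h'.1⟩)]

private theorem adj_row0 {n : ℕ} (A : Matrix (Fin (n + 1)) (Fin (n + 1)) ℂ) (s : ℝ)
    (j : Fin (n + 1)) : (bump A 0 s).adjugate 0 j = A.adjugate 0 j := by
  have h1 : (bump A 0 s).adjugate 0 j = (bump A 0 s)ᵀ.adjugate j 0 := by
    rw [← Matrix.adjugate_transpose, Matrix.transpose_apply]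
  have h2 : A.adjugate 0 j = Aᵀ.adjugate j 0 := by
    rw [← Matrix.adjugate_transpose, Matrix.transpose_apply]
  rw [h1, h2, bump_transpose, adj_col0]

private theorem adj_zero_zero {n : ℕ} (A : Matrix (Fin (n + 1)) (Fin (n + 1)) ℂ) :
    A.adjugate 0 0 = (tail A).det := by
  rw [Matrix.adjugate_fin_succ_eq_det_submatrix]
  simp only [Fin.val_zero, add_zero, pow_zero, one_mul]
  congr 1

private theorem adj_succ {n : ℕ} (A : Matrix (Fin (n + 1)) (Fin (n + 1)) ℂ) (s : ℝ)
    (i j : Fin n) : (bump A 0 s).adjugate j.succ i.succ =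
      A.adjugate j.succ i.succ + s * (tail A).adjugate j i := by
  rw [Matrix.adjugate_apply, Matrix.adjugate_apply]
  set M := A.updateRow i.succ (Pi.single j.succ (1 : ℂ)) with hM
  have hM0 : M 0 = A 0 := by
    rw [hM]; exact Matrix.updateRow_ne (Fin.succ_ne_zero i).symm
  have e1 : (bump A 0 s).updateRow i.succ (Pi.single j.succ (1 : ℂ)) =
      M.updateRow 0 (M 0 + (s : ℂ) • Pi.single 0 1) := by
    ext a b
    rcases Fin.eq_zero_or_eq_succ a with rfl | ⟨a, rfl⟩
    · rw [Matrix.updateRow_ne (Fin.succ_ne_zero i).symm, Matrix.updateRow_self, hM0]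
      simp only [Pi.add_apply, Pi.smul_apply, smul_eq_mul]
      rcases Fin.eq_zero_or_eq_succ b with rfl | ⟨b, rfl⟩
      · rw [bump_zero, Pi.single_eq_same, mul_one]
      · rw [bump_succ_col, Pi.single_eq_of_ne (Fin.succ_ne_zero b), mul_zero, add_zero]
    · rw [Matrix.updateRow_ne (Fin.succ_ne_zero a)]
      by_cases h : a = i
      · subst h
        rw [Matrix.updateRow_self, hM, Matrix.updateRow_self]
      · have h' : a.succ ≠ i.succ := fun h2 => h (Fin.succ_injective _ h2)
        rw [Matrix.updateRow_ne h', hM, Matrix.updateRow_ne h', bump_succ_row]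
  rw [e1, Matrix.det_updateRow_add, Matrix.det_updateRow_smul, Matrix.updateRow_eq_self]
  congr 2
  rw [← Matrix.adjugate_apply, adj_zero_zero, Matrix.adjugate_apply]
  congr 1
  ext a b
  rw [tail, Matrix.submatrix_apply]
  by_cases h : a = i
  · subst h
    rw [Matrix.updateRow_self, hM, Matrix.updateRow_self]
    by_cases hb : b = j
    · subst hb; rw [Pi.single_eq_same, Pi.single_eq_same]
    · rw [Pi.single_eq_of_ne hb, Pi.single_eq_of_ne (fun h2 => hb (Fin.succ_injective _ h2))]
  · have h' : a.succ ≠ i.succ := fun h2 => h (Fin.succ_injective _ h2)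
    rw [Matrix.updateRow_ne h, hM, Matrix.updateRow_ne h', tail, Matrix.submatrix_apply]

theorem qfC_bump {n : ℕ} (A : Matrix (Fin (n + 1)) (Fin (n + 1)) ℂ) (s : ℝ)
    (x : Fin (n + 1) → ℂ) :
    qfC (bump A 0 s) x = qfC A x +
      (s : ℂ) * (star (x 0) * x 0 * (tail A).det + qfC (tail A) (vtail x)) := by
  unfold qfC
  rw [Fin.sum_univ_succ, Fin.sum_univ_succ (n := n) (f := fun i => ∑ j, star (x i) * (A i j * A.adjugate j i) * x j)]
  simp only [Fin.sum_univ_succ (n := n), bump_zero, bump_succ_col, bump_succ_row, adj_col0,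
    adj_row0, adj_succ]
  have h1 : ∀ i j : Fin n, star (x i.succ) *
      (A i.succ j.succ * (A.adjugate j.succ i.succ + s * (tail A).adjugate j i)) * x j.succ =
      star (x i.succ) * (A i.succ j.succ * A.adjugate j.succ i.succ) * x j.succ +
        s * (star (vtail x i) * (tail A i j * (tail A).adjugate j i) * vtail x j) := by
    intro i j
    simp only [vtail, tail, Matrix.submatrix_apply]
    ring
  simp only [h1, Finset.sum_add_distrib, ← Finset.mul_sum]
  rw [adj_zero_zero]
  ring

theorem qfC_add_const {n : ℕ} (A : Matrix (Fin n) (Fin n) ℂ) (x : Fin n → ℂ) (c : ℂ) :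
    qfC A (fun i => x i + c) = qfC A x +
      A.det * (star c * ∑ i, x i + c * ∑ i, star (x i) + (n : ℂ) * (star c * c)) := by
  unfold qfC
  have hr : ∀ i, ∑ j, A i j * A.adjugate j i = A.det := by
    intro i
    have := congrFun (congrFun (Matrix.mul_adjugate A) i) i
    rw [Matrix.mul_apply] at this
    rw [this]
    simp
  have hc : ∀ j, ∑ i, A i j * A.adjugate j i = A.det := by
    intro j
    have := congrFun (congrFun (Matrix.adjugate_mul A) j) j
    rw [Matrix.mul_apply] at this
    have h2 : ∑ i, A i j * A.adjugate j i = ∑ i, A.adjugate j i * A i j :=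
      Finset.sum_congr rfl fun i _ => mul_comm _ _
    rw [h2, this]
    simp
  have h1 : ∀ i j : Fin n, star (x i + c) * (A i j * A.adjugate j i) * (x j + c) =
      star (x i) * (A i j * A.adjugate j i) * x j +
      (star (x i) * c) * (A i j * A.adjugate j i) +
      (star c * x j) * (A i j * A.adjugate j i) + (star c * c) * (A i j * A.adjugate j i) := by
    intro i j
    rw [star_add]
    ring
  simp only [h1, Finset.sum_add_distrib]
  have e2 : ∑ i, ∑ j, (star (x i) * c) * (A i j * A.adjugate j i) =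
      c * (∑ i, star (x i)) * A.det := by
    rw [Finset.mul_sum, Finset.sum_mul]
    refine Finset.sum_congr rfl fun i _ => ?_
    rw [← Finset.mul_sum, hr]
    ring
  have e3 : ∑ i, ∑ j, (star c * x j) * (A i j * A.adjugate j i) =
      star c * (∑ j, x j) * A.det := by
    rw [Finset.sum_comm, Finset.mul_sum, Finset.sum_mul]
    refine Finset.sum_congr rfl fun j _ => ?_
    rw [← Finset.mul_sum, hc]
  have e4 : ∑ i, ∑ j, (star c * c) * (A i j * A.adjugate j i) =
      (star c * c) * (n : ℂ) * A.det := by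
    simp only [← Finset.mul_sum, hr]
    rw [Finset.sum_const, Finset.card_univ, Fintype.card_fin, nsmul_eq_mul]
    ring
  rw [e2, e3, e4]
  ring

end SPM
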