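import Pool.Agent.Lib.SPM.RepI
import Pool.Agent.Lib.SPM.Adj

/-!
MODULE SPM.RepR (1 h).  The Rayleigh quotient of the Schur power matrix at `FX X`.

PROOF.  M i l = A i l * adj A l i, Hermitian (adj A is Hermitian), M 1 = det A 1 and 1^T M = det A 1^T
(`mul_adjugate`, `adjugate_mul`).  (M X_j) i = ∑_l M i l X_j l has zero sum:
∑_i ∑_l M i l X_j l = det A ∑_l X_j l = 0.
By `RepA.intertwine` the left side is Re ∑_σ conj(FX X σ) FX (M X) σ, so by `RepI.inner_FX`
RHS - LHS = (n-2)! Re( n ∑_j <X_j, R X_j> - ∑_{j,l} <X_j, R X_l> ), R = per A.re • 1 - M, where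
<x, R x> = per A.re nsq x - qf A x ≥ 0 for every x: R is PSD.  Let Y = ∑_l X_l / n (n ≥ 2 > 0):
n ∑_j <X_j, R X_j> - ∑_{j,l} <X_j, R X_l> = n ∑_j <X_j - Y, R (X_j - Y)> ≥ 0 (expand, using only
sesquilinearity).
-/

namespace SPM

open Matrix Finset
open scoped ComplexOrder

private noncomputable def BB {n : ℕ} (R : Matrix (Fin n) (Fin n) ℂ) (x y : Fin n → ℂ) : ℂ :=
  ∑ i, ∑ l, star (x i) * R i l * y l

private theorem BB_sub {n : ℕ} (R : Matrix (Fin n) (Fin n) ℂ) (x y : Fin n → ℂ) :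
    BB R (fun i => x i - y i) (fun i => x i - y i) = BB R x x - BB R x y - BB R y x + BB R y y := by
  unfold BB
  have h : ∀ i l, star (x i - y i) * R i l * (x l - y l) =
      star (x i) * R i l * x l - star (x i) * R i l * y l - star (y i) * R i l * x l +
        star (y i) * R i l * y l := by
    intro i l
    rw [star_sub]
    ring
  simp only [h, Finset.sum_add_distrib, Finset.sum_sub_distrib]

private theorem BB_sum {n : ℕ} (R : Matrix (Fin n) (Fin n) ℂ) (X : Fin n → Fin n → ℂ) :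
    2 * ((n : ℂ) * ∑ j, BB R (X j) (X j) - ∑ j, ∑ l, BB R (X j) (X l)) =
      ∑ j, ∑ l, BB R (fun i => X j i - X l i) (fun i => X j i - X l i) := by
  simp only [BB_sub, Finset.sum_add_distrib, Finset.sum_sub_distrib]
  have h1 : ∑ j : Fin n, ∑ _l : Fin n, BB R (X j) (X j) = (n : ℂ) * ∑ j, BB R (X j) (X j) := by
    simp only [Finset.sum_const, Finset.card_univ, Fintype.card_fin, nsmul_eq_mul]
    rw [Finset.mul_sum]
  have h2 : ∑ _j : Fin n, ∑ l : Fin n, BB R (X l) (X l) = (n : ℂ) * ∑ j, BB R (X j) (X j) := by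
    rw [Finset.sum_const, Finset.card_univ, Fintype.card_fin, nsmul_eq_mul]
  have h3 : ∑ j, ∑ l, BB R (X l) (X j) = ∑ j, ∑ l, BB R (X j) (X l) := Finset.sum_comm
  rw [h1, h2, h3]
  ring

theorem rayleigh_FX {n : ℕ} (hn : 2 ≤ n) (A : Matrix (Fin n) (Fin n) ℂ) (hA : A.PosSemidef)
    (hT : ∀ x, qf A x ≤ A.permanent.re * nsq x) (X : Fin n → Fin n → ℂ)
    (hX : ∀ j, ∑ i, X j i = 0) :
    (∑ σ : Equiv.Perm (Fin n), ∑ τ : Equiv.Perm (Fin n),
        star (FX X σ) * (∏ i, A (σ i) (τ i)) * FX X τ).re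
      ≤ A.permanent.re * ∑ σ : Equiv.Perm (Fin n), ‖FX X σ‖ ^ 2 := by
  set X' : Fin n → Fin n → ℂ := fun j i => ∑ l, A i l * A.adjugate l i * X j l with hX'
  set p : ℝ := A.permanent.re with hp
  set R : Matrix (Fin n) (Fin n) ℂ :=
    Matrix.of fun i l => (if i = l then (p : ℂ) else 0) - A i l * A.adjugate l i with hR
  have hX'0 : ∀ j, ∑ i, X' j i = 0 := by
    intro j
    rw [hX']
    simp only
    rw [Finset.sum_comm]
    have hc : ∀ l, ∑ i, A i l * A.adjugate l i * X j l = A.det * X j l := by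
      intro l
      have h1 := congrFun (congrFun (Matrix.adjugate_mul A) l) l
      rw [Matrix.mul_apply] at h1
      rw [← Finset.sum_mul]
      congr 1
      have h2 : ∑ i, A i l * A.adjugate l i = ∑ i, A.adjugate l i * A i l :=
        Finset.sum_congr rfl fun i _ => mul_comm _ _
      rw [h2, h1]
      simp
    simp only [hc]
    rw [← Finset.mul_sum, hX j, mul_zero]
  have hL : ∑ σ : Equiv.Perm (Fin n), ∑ τ : Equiv.Perm (Fin n),
        star (FX X σ) * (∏ i, A (σ i) (τ i)) * FX X τ =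
      (((n - 2).factorial : ℕ) : ℂ) * ((n : ℂ) * ∑ j, ∑ i, star (X j i) * X' j i -
        ∑ j, ∑ l, ∑ i, star (X j i) * X' l i) := by
    rw [← inner_FX hn X X' hX'0]
    refine Finset.sum_congr rfl fun σ _ => ?_
    rw [hX', ← intertwine, Finset.mul_sum]
    refine Finset.sum_congr rfl fun τ _ => ?_
    ring
  have hRr : (((∑ σ : Equiv.Perm (Fin n), ‖FX X σ‖ ^ 2 : ℝ)) : ℂ) =
      (((n - 2).factorial : ℕ) : ℂ) * ((n : ℂ) * ∑ j, ∑ i, star (X j i) * X j i -
        ∑ j, ∑ l, ∑ i, star (X j i) * X l i) := by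
    rw [← inner_FX hn X X hX]
    push_cast
    refine Finset.sum_congr rfl fun σ _ => ?_
    rw [← Complex.conj_mul']
    rfl
  have hB : ∀ j l, BB R (X j) (X l) =
      (p : ℂ) * ∑ i, star (X j i) * X l i - ∑ i, star (X j i) * X' l i := by
    intro j l
    unfold BB
    rw [hR, hX', Finset.mul_sum, ← Finset.sum_sub_distrib]
    refine Finset.sum_congr rfl fun i _ => ?_
    simp only [Matrix.of_apply]
    have h1 : ∀ k, star (X j i) * ((if i = k then (p : ℂ) else 0) - A i k * A.adjugate k i) * X l k =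
        (if i = k then (p : ℂ) * (star (X j i) * X l k) else 0) -
          star (X j i) * (A i k * A.adjugate k i * X l k) := by
      intro k
      split_ifs <;> ring
    simp only [h1, Finset.sum_sub_distrib, Finset.sum_ite_eq, Finset.mem_univ, if_true,
      ← Finset.mul_sum]
  have hpos : ∀ x : Fin n → ℂ, 0 ≤ (BB R x x).re := by
    intro x
    have h2 : BB R x x = (p : ℂ) * ((nsq x : ℝ) : ℂ) - qfC A x := by
      unfold BB nsq qfC
      rw [hR]
      push_cast
      rw [Finset.mul_sum, ← Finset.sum_sub_distrib]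
      refine Finset.sum_congr rfl fun i _ => ?_
      simp only [Matrix.of_apply]
      have h1 : ∀ k, star (x i) * ((if i = k then (p : ℂ) else 0) - A i k * A.adjugate k i) * x k =
          (if i = k then (p : ℂ) * (star (x i) * x k) else 0) -
            star (x i) * (A i k * A.adjugate k i) * x k := by
        intro k
        split_ifs <;> ring
      simp only [h1, Finset.sum_sub_distrib, Finset.sum_ite_eq, Finset.mem_univ, if_true]
      congr 2
      rw [← Complex.conj_mul']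
      rfl
    rw [h2, Complex.sub_re, Complex.re_ofReal_mul, Complex.ofReal_re]
    have := hT x
    unfold qf at this
    linarith
  have key : 0 ≤ ((n : ℂ) * ∑ j, BB R (X j) (X j) - ∑ j, ∑ l, BB R (X j) (X l)).re := by
    have h3 := congrArg Complex.re (BB_sum R X)
    have h4 : 0 ≤ (∑ j, ∑ l, BB R (fun i => X j i - X l i) (fun i => X j i - X l i)).re := by
      rw [Complex.re_sum]
      refine Finset.sum_nonneg fun j _ => ?_
      rw [Complex.re_sum]
      exact Finset.sum_nonneg fun l _ => hpos _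
    rw [← h3] at h4
    have h5 : (2 * ((n : ℂ) * ∑ j, BB R (X j) (X j) - ∑ j, ∑ l, BB R (X j) (X l))).re =
        2 * ((n : ℂ) * ∑ j, BB R (X j) (X j) - ∑ j, ∑ l, BB R (X j) (X l)).re := by
      have := Complex.re_ofReal_mul 2
        ((n : ℂ) * ∑ j, BB R (X j) (X j) - ∑ j, ∑ l, BB R (X j) (X l))
      push_cast at this
      exact this
    rw [h5] at h4
    linarith
  have hdiff : (p : ℂ) * (((∑ σ : Equiv.Perm (Fin n), ‖FX X σ‖ ^ 2 : ℝ)) : ℂ) -
      ∑ σ : Equiv.Perm (Fin n), ∑ τ : Equiv.Perm (Fin n),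
        star (FX X σ) * (∏ i, A (σ i) (τ i)) * FX X τ =
      (((n - 2).factorial : ℕ) : ℂ) *
        ((n : ℂ) * ∑ j, BB R (X j) (X j) - ∑ j, ∑ l, BB R (X j) (X l)) := by
    rw [hL, hRr]
    simp only [hB, Finset.sum_sub_distrib, ← Finset.mul_sum]
    ring
  have h6 := congrArg Complex.re hdiff
  rw [Complex.sub_re, Complex.re_ofReal_mul, Complex.ofReal_re] at h6
  have h7 : ((((n - 2).factorial : ℕ) : ℂ) *
        ((n : ℂ) * ∑ j, BB R (X j) (X j) - ∑ j, ∑ l, BB R (X j) (X l))).re =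
      (((n - 2).factorial : ℕ) : ℝ) *
        ((n : ℂ) * ∑ j, BB R (X j) (X j) - ∑ j, ∑ l, BB R (X j) (X l)).re := by
    have := Complex.re_ofReal_mul (((n - 2).factorial : ℕ) : ℝ)
      ((n : ℂ) * ∑ j, BB R (X j) (X j) - ∑ j, ∑ l, BB R (X j) (X l))
    push_cast at this
    exact this
  rw [h7] at h6
  have h8 : 0 ≤ (((n - 2).factorial : ℕ) : ℝ) *
        ((n : ℂ) * ∑ j, BB R (X j) (X j) - ∑ j, ∑ l, BB R (X j) (X l)).re :=
    mul_nonneg (Nat.cast_nonneg _) key
  linarith

end SPM
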