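import Pool.Agent.Lib.SPM.Defs

/-!
MODULE SPM.Inv (1 h).  Invariance of `qf` and `per` under permutations and diagonal scaling, and the
zero-diagonal case.

PROOF.  `perm`: `Matrix.adjugate_reindex`/`adjugate_submatrix_equiv_self`, `det_submatrix_equiv_self`,
`permanent_permute_rows/cols`, `Equiv.sum_comp`.
`scale`: (D^* A D) with D = diagonal u: `adjugate_mul_distrib`, `adjugate_diagonal`
(adj(D^*AD) = adj D * adj A * adj D^*), so `A'_ij adj(A')_ji = conj(u_i) u_j A_ij *
(∏_{k≠j} u_k) adj(A)_ji (∏_{k≠i} conj u_k) = (∏ |u_k|^2) A_ij adj(A)_ji`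
(`Finset.mul_prod_erase`).  per: pull conj(u i) out of row i and u j out of column j.
`zero_diag`: for PSD A with A k k = 0 row k and column k vanish (2x2 minors; Mathlib may have
`Matrix.PosSemidef.diag_eq_zero...`; else Cauchy-Schwarz `|A k j|^2 ≤ A k k A j j` from the PSD form on
the vector t e_k + e_j).  Then every term of qfC vanishes: if i = k or j = k since A i j = 0, otherwise
adj A j i = det (A.updateRow i (Pi.single j 1)) has the zero row k.
-/

namespace SPM

open Matrix Finset
open scoped ComplexOrder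

theorem qf_perm {n : ℕ} (A : Matrix (Fin n) (Fin n) ℂ) (σ : Equiv.Perm (Fin n)) (x : Fin n → ℂ) :
    qf (A.submatrix σ σ) (fun i => x (σ i)) = qf A x := by
  unfold qf qfC
  congr 1
  rw [Matrix.adjugate_submatrix_equiv_self]
  simp only [Matrix.submatrix_apply]
  rw [Equiv.sum_comp σ (fun i => ∑ j, star (x i) * (A i (σ j) * A.adjugate (σ j) i) * x (σ j))]
  refine Finset.sum_congr rfl fun i _ => ?_
  exact Equiv.sum_comp σ (fun j => star (x i) * (A i j * A.adjugate j i) * x j)

theorem per_perm {n : ℕ} (A : Matrix (Fin n) (Fin n) ℂ) (σ : Equiv.Perm (Fin n)) :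
    (A.submatrix σ σ).permanent = A.permanent := by
  have h : A.submatrix σ σ = (A.submatrix σ id).submatrix id σ := by
    ext i j; rfl
  rw [h, Matrix.permanent_permute_rows, Matrix.permanent_permute_cols]

theorem nsq_perm {n : ℕ} (σ : Equiv.Perm (Fin n)) (x : Fin n → ℂ) :
    nsq (fun i => x (σ i)) = nsq x := by
  unfold nsq
  exact Equiv.sum_comp σ (fun i => ‖x i‖ ^ 2)

theorem bump_perm {n : ℕ} (A : Matrix (Fin n) (Fin n) ℂ) (σ : Equiv.Perm (Fin n)) (k : Fin n)
    (s : ℝ) : (bump A (σ k) s).submatrix σ σ = bump (A.submatrix σ σ) k s := by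
  ext i j
  simp only [bump, Matrix.submatrix_apply, Matrix.add_apply, Matrix.smul_apply,
    Matrix.single_apply, σ.injective.eq_iff]

theorem qf_scale {n : ℕ} (A : Matrix (Fin n) (Fin n) ℂ) (u x : Fin n → ℂ) :
    qf (Matrix.of fun i j => star (u i) * A i j * u j) x = (∏ k, ‖u k‖ ^ 2) * qf A x := by
  have hD : (Matrix.of fun i j => star (u i) * A i j * u j) =
      Matrix.diagonal (fun i => star (u i)) * A * Matrix.diagonal u := by
    ext i j
    rw [Matrix.mul_diagonal, Matrix.diagonal_mul]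
    rfl
  have key : ∀ i j, (Matrix.diagonal (fun i => star (u i)) * A * Matrix.diagonal u) i j *
      (Matrix.diagonal (fun i => star (u i)) * A * Matrix.diagonal u).adjugate j i =
      ((∏ k, ‖u k‖ ^ 2 : ℝ) : ℂ) * (A i j * A.adjugate j i) := by
    intro i j
    rw [Matrix.adjugate_mul_distrib, Matrix.adjugate_mul_distrib, Matrix.adjugate_diagonal,
      Matrix.adjugate_diagonal, Matrix.mul_diagonal, Matrix.diagonal_mul, Matrix.diagonal_mul,
      Matrix.mul_diagonal]
    have h1 : star (u i) * ∏ k ∈ univ.erase i, star (u k) = ∏ k, star (u k) :=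
      Finset.mul_prod_erase univ (fun k => star (u k)) (Finset.mem_univ i)
    have h2 : u j * ∏ k ∈ univ.erase j, u k = ∏ k, u k :=
      Finset.mul_prod_erase univ u (Finset.mem_univ j)
    have h3 : ((∏ k, ‖u k‖ ^ 2 : ℝ) : ℂ) = (∏ k, star (u k)) * ∏ k, u k := by
      rw [← Finset.prod_mul_distrib, Complex.ofReal_prod]
      refine Finset.prod_congr rfl fun k _ => ?_
      rw [Complex.ofReal_pow]
      exact (Complex.conj_mul' (u k)).symm
    rw [h3, ← h1, ← h2]
    ring
  unfold qf qfC
  rw [hD]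
  simp only [key]
  have h4 : ∑ i, ∑ j, star (x i) * (((∏ k, ‖u k‖ ^ 2 : ℝ) : ℂ) * (A i j * A.adjugate j i)) * x j =
      ((∏ k, ‖u k‖ ^ 2 : ℝ) : ℂ) * ∑ i, ∑ j, star (x i) * (A i j * A.adjugate j i) * x j := by
    rw [Finset.mul_sum]
    refine Finset.sum_congr rfl fun i _ => ?_
    rw [Finset.mul_sum]
    refine Finset.sum_congr rfl fun j _ => ?_
    ring
  rw [h4, Complex.re_ofReal_mul]

theorem per_scale {n : ℕ} (A : Matrix (Fin n) (Fin n) ℂ) (u : Fin n → ℂ) :
    (Matrix.of fun i j => star (u i) * A i j * u j).permanent =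
      ((∏ k, ‖u k‖ ^ 2 : ℝ) : ℂ) * A.permanent := by
  unfold Matrix.permanent
  rw [Finset.mul_sum]
  refine Finset.sum_congr rfl fun σ _ => ?_
  simp only [Matrix.of_apply]
  rw [Finset.prod_mul_distrib, Finset.prod_mul_distrib,
    Equiv.prod_comp σ (fun i => star (u i))]
  have h3 : ((∏ k, ‖u k‖ ^ 2 : ℝ) : ℂ) = (∏ k, star (u k)) * ∏ k, u k := by
    rw [← Finset.prod_mul_distrib, Complex.ofReal_prod]
    refine Finset.prod_congr rfl fun k _ => ?_
    rw [Complex.ofReal_pow]
    exact (Complex.conj_mul' (u k)).symm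
  rw [h3]
  ring

theorem psd_scale {n : ℕ} (A : Matrix (Fin n) (Fin n) ℂ) (hA : A.PosSemidef) (u : Fin n → ℂ) :
    (Matrix.of fun i j => star (u i) * A i j * u j).PosSemidef := by
  have hD : (Matrix.of fun i j => star (u i) * A i j * u j) =
      (Matrix.diagonal u)ᴴ * A * Matrix.diagonal u := by
    ext i j
    rw [Matrix.diagonal_conjTranspose, Matrix.mul_diagonal, Matrix.diagonal_mul]
    rfl
  rw [hD]
  exact hA.conjTranspose_mul_mul_same _

theorem qf_zero_diag {n : ℕ} (A : Matrix (Fin n) (Fin n) ℂ) (hA : A.PosSemidef) (k : Fin n)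
    (hk : A k k = 0) (x : Fin n → ℂ) : qf A x = 0 := by
  have hcol : ∀ i, A i k = 0 := by
    have h0 : star (Pi.single k (1 : ℂ) : Fin n → ℂ) ⬝ᵥ (A *ᵥ (Pi.single k (1 : ℂ))) = 0 := by
      have : star (Pi.single k (1 : ℂ) : Fin n → ℂ) = Pi.single k (1 : ℂ) := by
        rw [← Pi.single_star, star_one]
      rw [this, Matrix.mulVec_single_one, single_one_dotProduct]
      exact hk
    have h1 := (hA.dotProduct_mulVec_zero_iff _).mp h0
    intro i
    have := congrFun h1 i
    rwa [Matrix.mulVec_single_one] at this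
  have hrow : ∀ j, A k j = 0 := by
    intro j
    have := hA.isHermitian.apply k j
    rw [hcol j, star_zero] at this
    exact this.symm
  unfold qf qfC
  have : ∑ i, ∑ j, star (x i) * (A i j * A.adjugate j i) * x j = 0 := by
    refine Finset.sum_eq_zero fun i _ => Finset.sum_eq_zero fun j _ => ?_
    by_cases hi : i = k
    · subst hi; rw [hrow j]; ring
    · have : A.adjugate j i = 0 := by
        rw [Matrix.adjugate_apply]
        apply Matrix.det_eq_zero_of_row_eq_zero k
        intro b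
        rw [Matrix.updateRow_ne (fun h => hi h.symm)]
        exact hrow b
      rw [this]; ring
  rw [this, Complex.zero_re]

theorem qf_smul {n : ℕ} (A : Matrix (Fin n) (Fin n) ℂ) (x : Fin n → ℂ) (c : ℂ) :
    qf A (fun i => c * x i) = ‖c‖ ^ 2 * qf A x := by
  unfold qf qfC
  have h4 : ∑ i, ∑ j, star (c * x i) * (A i j * A.adjugate j i) * (c * x j) =
      ((‖c‖ ^ 2 : ℝ) : ℂ) * ∑ i, ∑ j, star (x i) * (A i j * A.adjugate j i) * x j := by
    have h3 : ((‖c‖ ^ 2 : ℝ) : ℂ) = star c * c := by
      rw [Complex.ofReal_pow]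
      exact (Complex.conj_mul' c).symm
    rw [h3, Finset.mul_sum]
    refine Finset.sum_congr rfl fun i _ => ?_
    rw [Finset.mul_sum]
    refine Finset.sum_congr rfl fun j _ => ?_
    rw [star_mul']
    ring
  rw [h4, Complex.re_ofReal_mul]

end SPM
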