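import Pool.Agent.Lib.SPM.Border
import Pool.Agent.Lib.SPM.Adj
import Pool.Agent.Lib.SPM.Inv

/-!
MODULE SPM.Slope (0.7 h).  At a worst matrix no diagonal entry can be decreased.

PROOF.  First k = 0.  Suppose A' = bump A 0 (-s) is PSD, s > 0.  By `T (n+1) ρ` for A' and x:
qf A' x ≤ ρ per A'.re nsq x.  By `Border.per_bump` and `Adj.qfC_bump`
qf A' x = qf A x - s (|x0|^2 (det tail A).re + qf (tail A) (vtail x))   [det (tail A) is real, or take
real parts: |x0|^2 is real], per A' = per A - s per(tail A).  With the equality qf A x = ρ per A and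
nsq x = 1 we get  ρ per(tail A) ≤ |x0|^2 det(tail A) + qf (tail A) (vtail x).
`T n 1` for tail A (PSD) and vtail x: qf (tail A) (vtail x) ≤ per(tail A) nsq (vtail x); and for the
vector 1 (`Adj.qfC_add_const` with x = 0, c = 1): n det(tail A).re ≤ per(tail A).re n, so
det(tail A).re ≤ per(tail A).re if n ≥ 1; if n = 0 both are 1.  So
ρ per(tail A) ≤ per(tail A) (|x0|^2 + nsq (vtail x)) = per(tail A), contradiction with ρ > 1 and
per(tail A) > 0.
General k: apply this to A.submatrix σ σ, σ = swap 0 k, and x ∘ σ (`Inv`).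
-/

namespace SPM

open Matrix Finset
open scoped ComplexOrder

private theorem det_le_per {n : ℕ} (hT : T n 1) (B : Matrix (Fin n) (Fin n) ℂ)
    (hB : B.PosSemidef) : B.det.re ≤ B.permanent.re := by
  rcases Nat.eq_zero_or_pos n with rfl | hn
  · rw [Matrix.det_isEmpty, Matrix.permanent_isEmpty]
  · have h1 := hT B hB (fun i => (0 : Fin n → ℂ) i + 1)
    have h2 : qf B (fun i => (0 : Fin n → ℂ) i + 1) = n * B.det.re := by
      unfold qf
      rw [qfC_add_const]
      have h3 : qfC B 0 = 0 := by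
        unfold qfC
        simp
      rw [h3]
      simp [mul_comm]
    have h4 : nsq (fun i => (0 : Fin n → ℂ) i + 1) = n := by
      unfold nsq
      simp
    rw [h2, h4] at h1
    have hn' : (0 : ℝ) < n := by exact_mod_cast hn
    nlinarith

private theorem no_decrease0 {n : ℕ} (ρ : ℝ) (hρ : 1 < ρ) (hT : T n 1) (hTρ : T (n + 1) ρ)
    (A : Matrix (Fin (n + 1)) (Fin (n + 1)) ℂ) (hA : A.PosSemidef) (x : Fin (n + 1) → ℂ)
    (hx : nsq x = 1) (heq : qf A x = ρ * A.permanent.re)
    (hpos : 0 < (tail A).permanent.re) (s : ℝ) (hs : 0 < s) :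
    ¬ (bump A 0 (-s)).PosSemidef := by
  intro h
  have h1 := hTρ _ h x
  rw [hx, mul_one] at h1
  have hq : qf (bump A 0 (-s)) x =
      qf A x - s * (‖x 0‖ ^ 2 * (tail A).det.re + qf (tail A) (vtail x)) := by
    unfold qf
    rw [qfC_bump]
    have h3 : star (x 0) * x 0 = ((‖x 0‖ ^ 2 : ℝ) : ℂ) := by
      rw [Complex.ofReal_pow]
      exact Complex.conj_mul' _
    rw [h3, Complex.add_re, Complex.re_ofReal_mul, Complex.add_re, Complex.re_ofReal_mul]
    ring
  have hp : (bump A 0 (-s)).permanent.re = A.permanent.re - s * (tail A).permanent.re := by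
    rw [per_bump, Complex.add_re, Complex.re_ofReal_mul]
    ring
  rw [hq, hp, heq] at h1
  have hB : (tail A).PosSemidef := hA.submatrix _
  have h2 := hT _ hB (vtail x)
  have hdet := det_le_per hT _ hB
  have hnsq : ‖x 0‖ ^ 2 + nsq (vtail x) = 1 := by
    rw [← hx]
    unfold nsq
    rw [Fin.sum_univ_succ]
    rfl
  have h0 : 0 ≤ ‖x 0‖ ^ 2 := by positivity
  have h5 : ‖x 0‖ ^ 2 * (tail A).det.re ≤ ‖x 0‖ ^ 2 * (tail A).permanent.re :=
    mul_le_mul_of_nonneg_left hdet h0
  have h6 : ‖x 0‖ ^ 2 * (tail A).det.re + qf (tail A) (vtail x) ≤ (tail A).permanent.re := by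
    calc ‖x 0‖ ^ 2 * (tail A).det.re + qf (tail A) (vtail x)
        ≤ ‖x 0‖ ^ 2 * (tail A).permanent.re + 1 * (tail A).permanent.re * nsq (vtail x) :=
          add_le_add h5 h2
      _ = (tail A).permanent.re * (‖x 0‖ ^ 2 + nsq (vtail x)) := by ring
      _ = (tail A).permanent.re := by rw [hnsq, mul_one]
  have h7 : s * (‖x 0‖ ^ 2 * (tail A).det.re + qf (tail A) (vtail x)) ≤
      s * (tail A).permanent.re := mul_le_mul_of_nonneg_left h6 hs.le
  have h8 : 0 < s * (tail A).permanent.re := mul_pos hs hpos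
  nlinarith

theorem no_decrease {n : ℕ} (ρ : ℝ) (hρ : 1 < ρ) (hT : T n 1) (hTρ : T (n + 1) ρ)
    (A : Matrix (Fin (n + 1)) (Fin (n + 1)) ℂ) (hA : A.PosSemidef) (x : Fin (n + 1) → ℂ)
    (hx : nsq x = 1) (heq : qf A x = ρ * A.permanent.re)
    (hpos : ∀ k : Fin (n + 1), 0 < (tail (A.submatrix (Equiv.swap 0 k) (Equiv.swap 0 k))).permanent.re)
    (k : Fin (n + 1)) (s : ℝ) (hs : 0 < s) : ¬ (bump A k (-s)).PosSemidef := by
  intro h
  refine no_decrease0 ρ hρ hT hTρ (A.submatrix (Equiv.swap 0 k) (Equiv.swap 0 k)) (hA.submatrix _)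
    (fun i => x (Equiv.swap 0 k i)) ?_ ?_ (hpos k) s hs ?_
  · rw [nsq_perm, hx]
  · rw [qf_perm, per_perm, heq]
  · rw [← bump_perm, Equiv.swap_apply_left]
    exact h.submatrix _

end SPM
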