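import Pool.Agent.Lib.SPM.Core
import Pool.Agent.Lib.SPM.Slope
import Pool.Agent.Lib.SPM.Ran
import Pool.Agent.Lib.SPM.Mx
import Pool.Agent.Lib.SPM.Base
import Pool.Agent.Lib.SPM.RepR
import Pool.Agent.Lib.SPM.RepB

/-! Assembly: the inequality `T n 1` for all `n`. -/

namespace SPM

open Matrix Finset
open scoped ComplexOrder

theorem T_succ {n : ℕ} (hn : 2 ≤ n) (hT : T n 1) : T (n + 1) 1 := by
  by_contra hnot
  obtain ⟨ρ, hρ, hTρ, A, x, hA, hd, hx, heq⟩ := exists_worst hnot
  have hper : 1 ≤ A.permanent.re := per_ge_one A hA hd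
  have hdec := no_decrease ρ hρ hT hTρ A hA x hx heq (by
    intro k
    have h1 : (tail (A.submatrix (Equiv.swap 0 k) (Equiv.swap 0 k))).PosSemidef :=
      (hA.submatrix _).submatrix _
    have h2 := per_ge_one _ h1 (fun i => by simp [tail, hd])
    linarith)
  have hadj : A.adjugate ≠ 0 := by
    intro h
    have : qf A x = 0 := by simp [qf, qfC, h]
    rw [this] at heq
    have : 0 < ρ * A.permanent.re := mul_pos (by linarith) (by linarith)
    linarith
  obtain ⟨u, hu, hAu⟩ := exists_null A hA hadj hdec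
  -- zero-sum form
  set L0 : Matrix (Fin (n + 1)) (Fin (n + 1)) ℂ := Matrix.of fun i j => star (u i) * A i j * u j
    with hL0
  have hL0psd : L0.PosSemidef := psd_scale A hA u
  have hz0 : ZeroSum L0 := by
    intro i
    have h1 : ∑ j, A i j * u j = 0 := by
      have := congrFun hAu i
      simpa [Matrix.mulVec, dotProduct] using this
    calc ∑ j, L0 i j = star (u i) * ∑ j, A i j * u j := by
          rw [Finset.mul_sum]
          exact Finset.sum_congr rfl fun j _ => by simp [hL0]; ring
      _ = 0 := by rw [h1, mul_zero]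
  have hc : 0 < ∏ k, ‖u k‖ ^ 2 := Finset.prod_pos fun k _ => by
    have := norm_pos_iff.2 (hu k)
    positivity
  have hq0 : qf L0 x = ρ * L0.permanent.re := by
    rw [hL0, qf_scale, per_scale, heq]
    rw [Complex.re_ofReal_mul]
    ring
  have hp0 : 0 < L0.permanent.re := by
    rw [hL0, per_scale, Complex.re_ofReal_mul]
    exact mul_pos hc (by linarith)
  -- move the smallest entry to the front
  obtain ⟨k, hk⟩ := Finite.exists_min (fun i => ‖x i‖)
  set σ : Equiv.Perm (Fin (n + 1)) := Equiv.swap 0 k with hσ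
  refine core hn ρ hρ hT hTρ (L0.submatrix σ σ) (hL0psd.submatrix _) ?_ (fun i => x (σ i))
    (by rw [nsq_perm]; exact hx) (by rw [per_perm]; exact hp0)
    (by rw [qf_perm, per_perm]; exact hq0) ?_
  · intro i
    calc ∑ j, (L0.submatrix σ σ) i j = ∑ j, L0 (σ i) (σ j) := rfl
      _ = ∑ j, L0 (σ i) j := Equiv.sum_comp σ (fun j => L0 (σ i) j)
      _ = 0 := hz0 _
  · intro i
    have : σ 0 = k := by simp [hσ]
    simp only [this]
    exact hk _

theorem T_all (n : ℕ) : T n 1 := by
  rcases Nat.lt_or_ge n 3 with h | h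
  · interval_cases n
    · exact T_zero
    · exact T_one
    · exact T_two
  · induction n, h using Nat.le_induction with
    | base => exact T_succ (le_refl 2) T_two
    | succ m hm ih => exact T_succ (by omega) ih

/-- The Hadamard product of `A` and the transposed adjugate is at most `per A` times the identity. -/
theorem hadamard_le (n : ℕ) (A : Matrix (Fin n) (Fin n) ℂ) (hA : A.PosSemidef) :
    (A.permanent • (1 : Matrix (Fin n) (Fin n) ℂ) -
      Matrix.of fun i j => A i j * A.adjugate j i).PosSemidef := by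
  have him : A.permanent.im = 0 := per_im A hA
  have hper : star A.permanent = A.permanent := by
    rw [Complex.star_def]
    exact Complex.conj_eq_iff_im.2 him
  have hadj : A.adjugateᴴ = A.adjugate := by
    rw [Matrix.adjugate_conjTranspose, hA.1.eq]
  have hherm : (A.permanent • (1 : Matrix (Fin n) (Fin n) ℂ) -
      Matrix.of fun i j => A i j * A.adjugate j i).IsHermitian := by
    apply Matrix.IsHermitian.sub
    · rw [Matrix.IsHermitian, Matrix.conjTranspose_smul, Matrix.conjTranspose_one, hper]
    · ext i j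
      have h1 : star (A j i) = A i j := hA.1.apply i j
      have h2 : star (A.adjugate i j) = A.adjugate j i := by
        have := congrFun (congrFun hadj j) i
        simpa [Matrix.conjTranspose_apply] using this
      simp only [Matrix.conjTranspose_apply, Matrix.of_apply, star_mul', h1, h2]
  refine Matrix.PosSemidef.of_dotProduct_mulVec_nonneg hherm fun x => ?_
  have hval : star x ⬝ᵥ ((A.permanent • (1 : Matrix (Fin n) (Fin n) ℂ) -
      Matrix.of fun i j => A i j * A.adjugate j i) *ᵥ x) =
      A.permanent * ((nsq x : ℝ) : ℂ) - qfC A x := by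
    rw [Matrix.sub_mulVec, dotProduct_sub, Matrix.smul_mulVec, Matrix.one_mulVec,
      dotProduct_smul, smul_eq_mul]
    congr 1
    · congr 1
      simp only [nsq, dotProduct, Complex.ofReal_sum, Pi.star_apply]
      refine Finset.sum_congr rfl fun i _ => ?_
      rw [Complex.star_def, mul_comm, Complex.mul_conj, Complex.normSq_eq_norm_sq]
    · simp only [qfC, dotProduct, Matrix.mulVec, Matrix.of_apply, Pi.star_apply, Finset.mul_sum]
      exact Finset.sum_congr rfl fun i _ => Finset.sum_congr rfl fun j _ => by ring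
  have hreal : (star x ⬝ᵥ ((A.permanent • (1 : Matrix (Fin n) (Fin n) ℂ) -
      Matrix.of fun i j => A i j * A.adjugate j i) *ᵥ x)).im = 0 := by
    have h := hherm.im_star_dotProduct_mulVec_self x
    simpa using h
  rw [Complex.nonneg_iff]
  refine ⟨?_, hreal.symm⟩
  rw [hval, Complex.sub_re, Complex.mul_re, Complex.ofReal_re, Complex.ofReal_im, mul_zero, sub_zero]
  have := T_all n A hA x
  rw [one_mul] at this
  have h2 : (qfC A x).re = qf A x := rfl
  rw [h2]
  linarith

theorem block (n : ℕ) (row col : Fin n → ℕ)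
    (hinj : Function.Injective (fun i : Fin n => (row i, col i)))
    (hdown : ∀ (i : Fin n) (a b : ℕ), a ≤ row i → b ≤ col i → ∃ j : Fin n, row j = a ∧ col j = b)
    (h01 : ∃ i : Fin n, row i = 0 ∧ col i = 1)
    (h02 : ¬ ∃ i : Fin n, row i = 0 ∧ col i = 2)
    (h11 : ¬ ∃ i : Fin n, row i = 1 ∧ col i = 1)
    (A : Matrix (Fin n) (Fin n) ℂ) (hA : A.PosSemidef)
    (x : Equiv.Perm (Fin n) → ℂ)
    (hx : x ∈ Submodule.span ℂ (Set.range
        (fun st : Equiv.Perm (Fin n) × Equiv.Perm (Fin n) =>
          fun g : Equiv.Perm (Fin n) =>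
            ∑ p : Equiv.Perm (Fin n), ∑ q : Equiv.Perm (Fin n),
              if (∀ i, row (p i) = row i) ∧ (∀ i, col (q i) = col i) ∧
                  p * q = st.1⁻¹ * g * st.2⁻¹
              then ((Equiv.Perm.sign q : ℤ) : ℂ) else 0))) :
    (∑ σ : Equiv.Perm (Fin n), ∑ τ : Equiv.Perm (Fin n),
        star (x σ) * (∏ i, A (σ i) (τ i)) * x τ).re
      ≤ A.permanent.re * ∑ σ : Equiv.Perm (Fin n), ‖x σ‖ ^ 2 := by
  obtain ⟨X, hX, rfl⟩ := ideal_le n row col hinj hdown h01 h02 h11 x hx
  have hn : 2 ≤ n := by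
    obtain ⟨i, hi0, hi1⟩ := h01
    obtain ⟨j, hj0, hj1⟩ := hdown i 0 0 (Nat.zero_le _) (Nat.zero_le _)
    have hij : i ≠ j := by
      rintro rfl
      omega
    have h1 := i.2
    have h2 := j.2
    by_contra h
    apply hij
    apply Fin.ext
    omega
  exact rayleigh_FX hn A hA (fun x => by simpa using T_all n A hA x) X hX

end SPM
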