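import Pool.Agent.Lib.SPM.Defs

/-!
MODULE SPM.Border.  Expansion of the permanent along the first row AND the first column, and
the derivative of `r ↦ per(B + r u v^T)`.

`dper B u v = ∑_τ ∑_i u_i v_{τ i} ∏_{k ≠ i} B_{k, τ k}` is the derivative of per at `B` in the
direction `u v^T`.
-/

namespace SPM

open Matrix Finset

/-- Derivative of the permanent at `B` in the direction `u v^T`. -/
noncomputable def dper {n : ℕ} (B : Matrix (Fin n) (Fin n) ℂ) (u v : Fin n → ℂ) : ℂ :=
  ∑ τ : Equiv.Perm (Fin n), ∑ i, u i * v (τ i) * ∏ k ∈ univ.erase i, B k (τ k)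

private theorem per_eq {n : ℕ} (A : Matrix (Fin n) (Fin n) ℂ) :
    A.permanent = ∑ σ : Equiv.Perm (Fin n), ∏ i, A i (σ i) := by
  rw [← permanent_transpose]
  rfl

private theorem prod_swap {n : ℕ} (A : Matrix (Fin (n + 1)) (Fin (n + 1)) ℂ)
    (e : Equiv.Perm (Fin n)) (i : Fin n) :
    ∏ x : Fin n, A x.succ (Equiv.swap 0 (e i).succ (e x).succ) =
      A i.succ 0 * ∏ k ∈ univ.erase i, (tail A) k (e k) := by
  rw [← mul_prod_erase univ _ (mem_univ i), Equiv.swap_apply_right]
  congr 1
  refine prod_congr rfl fun k hk => ?_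
  have hki : k ≠ i := ne_of_mem_erase hk
  rw [Equiv.swap_apply_of_ne_of_ne (Fin.succ_ne_zero _)
    (fun h => hki (e.injective (Fin.succ_injective _ h)))]
  rfl

theorem per_border {n : ℕ} (A : Matrix (Fin (n + 1)) (Fin (n + 1)) ℂ) :
    A.permanent = A 0 0 * (tail A).permanent +
      dper (tail A) (fun i => A i.succ 0) (fun j => A 0 j.succ) := by
  rw [per_eq A, per_eq (tail A), ← Equiv.Perm.decomposeFin.symm.sum_comp, Fintype.sum_prod_type,
    Fin.sum_univ_succ]
  congr 1
  · rw [mul_sum]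
    refine sum_congr rfl fun e _ => ?_
    rw [Fin.prod_univ_succ, Equiv.Perm.decomposeFin_symm_apply_zero]
    simp only [Equiv.Perm.decomposeFin_symm_apply_succ, Equiv.swap_self]
    rfl
  · rw [dper, sum_comm]
    refine sum_congr rfl fun e _ => ?_
    rw [← Equiv.sum_comp e]
    refine sum_congr rfl fun i _ => ?_
    rw [Fin.prod_univ_succ, Equiv.Perm.decomposeFin_symm_apply_zero]
    simp only [Equiv.Perm.decomposeFin_symm_apply_succ]
    rw [prod_swap A e i]
    ring

theorem dper_smul {n : ℕ} (B : Matrix (Fin n) (Fin n) ℂ) (u v : Fin n → ℂ) (a b : ℂ) :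
    dper B (fun i => a * u i) (fun j => b * v j) = a * b * dper B u v := by
  unfold dper
  rw [mul_sum]
  refine sum_congr rfl fun τ _ => ?_
  rw [mul_sum]
  refine sum_congr rfl fun i _ => ?_
  ring

theorem hasDerivAt_per {n : ℕ} (B : Matrix (Fin n) (Fin n) ℂ) (u v : Fin n → ℂ) (r : ℝ) :
    HasDerivAt (fun r : ℝ => (Matrix.of fun i j => B i j + (r : ℂ) * (u i * v j)).permanent)
      (dper (Matrix.of fun i j => B i j + (r : ℂ) * (u i * v j)) u v) r := by
  have hfun : (fun r : ℝ => (Matrix.of fun i j => B i j + (r : ℂ) * (u i * v j)).permanent) =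
      fun r : ℝ => ∑ σ : Equiv.Perm (Fin n), ∏ i, (B i (σ i) + (r : ℂ) * (u i * v (σ i))) := by
    funext r
    rw [per_eq]
    rfl
  rw [hfun]
  unfold dper
  refine HasDerivAt.fun_sum fun τ _ => ?_
  have hd : ∀ i ∈ (univ : Finset (Fin n)),
      HasDerivAt (fun r : ℝ => B i (τ i) + (r : ℂ) * (u i * v (τ i))) (u i * v (τ i)) r := by
    intro i _
    have h1 : HasDerivAt (fun r : ℝ => (r : ℂ)) 1 r := Complex.ofRealCLM.hasDerivAt
    have h2 := (h1.mul_const (u i * v (τ i))).const_add (B i (τ i))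
    simpa using h2
  have h := HasDerivAt.fun_finsetProd hd
  refine h.congr_deriv ?_
  refine sum_congr rfl fun i _ => ?_
  simp only [smul_eq_mul, Matrix.of_apply]
  ring

theorem per_bump {n : ℕ} (A : Matrix (Fin (n + 1)) (Fin (n + 1)) ℂ) (s : ℝ) :
    (bump A 0 s).permanent = A.permanent + (s : ℂ) * (tail A).permanent := by
  have h0 : bump A 0 s 0 0 = A 0 0 + s := by
    simp [bump]
  have h1 : ∀ i : Fin n, bump A 0 s i.succ 0 = A i.succ 0 := by
    intro i
    simp [bump, (Fin.succ_ne_zero i).symm]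
  have h2 : ∀ i : Fin n, bump A 0 s 0 i.succ = A 0 i.succ := by
    intro i
    simp [bump, (Fin.succ_ne_zero i).symm]
  have h3 : tail (bump A 0 s) = tail A := by
    ext i j
    simp [tail, bump, (Fin.succ_ne_zero i).symm]
  rw [per_border (bump A 0 s), per_border A, h3, h0]
  simp only [h1, h2]
  ring

end SPM
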