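import Pool.Agent.Lib.SPM.Defs

/-!
MODULE SPM.CB (0.8 h).  Cauchy-Binet for permanents, and its weighted version.

PROOF of `per_gram`.  For `A = W^* W`, `W : Matrix R (Fin n) ℂ`:
`per A = ∑_σ ∏_i ∑_ρ conj(W ρ (σ i)) W ρ i = ∑_σ ∑_{f : Fin n → R} ∏_i conj(W (f i) (σ i)) W (f i) i`
(`Finset.prod_univ_sum` / `Fintype.piFinset`).  Hence `n! per A = ∑_π per(A∘π)` and, reindexing
`f ↦ f ∘ π`: `n! per A = ∑_f conj(per W_f) per W_f` with `W_f = W.submatrix f id`
(`per W_f = ∑_σ ∏_i W (f (σ i)) i = ∑_σ ∏_i W (f i) (σ⁻¹ i)`).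
In detail: `∑_f conj(per W_f) per W_f = ∑_f ∑_σ ∑_π ∏_i conj(W (f i) (σ i)) * ∏_i W (f i) (π i)`, for
fixed π substitute i = π⁻¹ k and f = g ∘ π, σ = σ' ∘ π.
`per_modes` is `per_gram` for `W = (Y; √r b)`, rows indexed by `Option (Fin n)`:
each row `none` contributes a factor √r to per W_f, so the summand for f gets the factor r^{m_f},
m_f = number of i with f i = none ≤ n; collect the f with the same m_f.
-/

namespace SPM

open Matrix Finset
open scoped ComplexOrder

private theorem per_expand {n : ℕ} {R : Type*} [Fintype R] (W : Matrix R (Fin n) ℂ) :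
    (Wᴴ * W).permanent = ∑ σ : Equiv.Perm (Fin n), ∑ f : Fin n → R,
      (∏ i, star (W (f i) (σ i))) * ∏ i, W (f i) i := by
  classical
  unfold Matrix.permanent
  apply Finset.sum_congr rfl
  intro σ _
  simp only [Matrix.mul_apply, Matrix.conjTranspose_apply]
  rw [Finset.prod_univ_sum, Fintype.piFinset_univ]
  apply Finset.sum_congr rfl
  intro f _
  rw [Finset.prod_mul_distrib]

private theorem inner_sum {n : ℕ} {R : Type*} [Fintype R] (W : Matrix R (Fin n) ℂ)
    (σ : Equiv.Perm (Fin n)) :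
    ∑ τ : Equiv.Perm (Fin n), ∑ f : Fin n → R,
      (∏ i, star (W (f (τ i)) i)) * ∏ i, W (f (σ i)) i = (Wᴴ * W).permanent := by
  classical
  rw [per_expand, ← Equiv.sum_comp ((Equiv.inv (Equiv.Perm (Fin n))).trans (Equiv.mulLeft σ))]
  apply Finset.sum_congr rfl
  intro ρ _
  have h1 : ∀ f : Fin n → R,
      (∏ i, star (W (f ((((Equiv.inv (Equiv.Perm (Fin n))).trans (Equiv.mulLeft σ)) ρ) i)) i)) *
        ∏ i, W (f (σ i)) i =
      (∏ i, star (W ((f ∘ σ) i) (ρ i))) * ∏ i, W ((f ∘ σ) i) i := by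
    intro f
    congr 1
    rw [← Equiv.prod_comp ρ]
    apply Finset.prod_congr rfl
    intro i _
    simp [Equiv.Perm.mul_apply]
  simp only [h1]
  exact Fintype.sum_equiv (σ.arrowCongr (Equiv.refl R)).symm _
    (fun g => (∏ i, star (W (g i) (ρ i))) * ∏ i, W (g i) i) (fun f => rfl)

theorem per_gram {n : ℕ} {R : Type*} [Fintype R] (W : Matrix R (Fin n) ℂ) :
    ((n.factorial : ℕ) : ℂ) * (Wᴴ * W).permanent =
      ∑ f : Fin n → R, ((‖(W.submatrix f id).permanent‖ ^ 2 : ℝ) : ℂ) := by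
  classical
  have h1 : ∀ f : Fin n → R, ((‖(W.submatrix f id).permanent‖ ^ 2 : ℝ) : ℂ) =
      ∑ σ : Equiv.Perm (Fin n), ∑ τ : Equiv.Perm (Fin n),
        (∏ i, star (W (f (τ i)) i)) * ∏ i, W (f (σ i)) i := by
    intro f
    have h2 : ((‖(W.submatrix f id).permanent‖ ^ 2 : ℝ) : ℂ) =
        star (W.submatrix f id).permanent * (W.submatrix f id).permanent := by
      push_cast
      exact (Complex.conj_mul' _).symm
    rw [h2]
    unfold Matrix.permanent
    simp only [Matrix.submatrix_apply, id]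
    rw [Finset.mul_sum]
    apply Finset.sum_congr rfl
    intro σ _
    rw [star_sum, Finset.sum_mul]
    apply Finset.sum_congr rfl
    intro τ _
    rw [star_prod]
  simp only [h1]
  rw [Finset.sum_comm]
  have h3 : ∀ σ : Equiv.Perm (Fin n), (∑ f : Fin n → R, ∑ τ : Equiv.Perm (Fin n),
      (∏ i, star (W (f (τ i)) i)) * ∏ i, W (f (σ i)) i) = (Wᴴ * W).permanent := by
    intro σ
    rw [Finset.sum_comm]
    exact inner_sum W σ
  simp only [h3]
  rw [Finset.sum_const, Finset.card_univ, Fintype.card_perm, Fintype.card_fin, nsmul_eq_mul]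

open scoped MatrixOrder in
private theorem exists_gram {n : ℕ} (R : Matrix (Fin n) (Fin n) ℂ) (hR : R.PosSemidef) :
    ∃ C : Matrix (Fin n) (Fin n) ℂ, R = Cᴴ * C := by
  obtain ⟨C, hC⟩ := CStarAlgebra.nonneg_iff_eq_star_mul_self.mp hR.nonneg
  exact ⟨C, by rw [hC, star_eq_conjTranspose]⟩

/-- the rows of `Y` and the row `b^*` -/
private noncomputable def W1 {n : ℕ} (Y : Matrix (Fin n) (Fin n) ℂ) (b : Fin n → ℂ) :
    Matrix (Option (Fin n)) (Fin n) ℂ :=
  fun p j => match p with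
    | none => star (b j)
    | some i => Y i j

private noncomputable def Wr {n : ℕ} (Y : Matrix (Fin n) (Fin n) ℂ) (b : Fin n → ℂ) (r : ℝ) :
    Matrix (Option (Fin n)) (Fin n) ℂ :=
  fun p j => (if p = none then ((√r : ℝ) : ℂ) else 1) * W1 Y b p j

private theorem Wr_gram {n : ℕ} (Y : Matrix (Fin n) (Fin n) ℂ) (b : Fin n → ℂ) {r : ℝ}
    (hr : 0 ≤ r) :
    (Wr Y b r)ᴴ * Wr Y b r = Matrix.of fun i j => (Yᴴ * Y) i j + (r : ℂ) * (b i * star (b j)) := by
  ext i j
  rw [Matrix.mul_apply, Matrix.of_apply, Fintype.sum_option, Matrix.mul_apply, add_comm]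
  have hs : ((√r : ℝ) : ℂ) * ((√r : ℝ) : ℂ) = (r : ℂ) := by
    rw [← Complex.ofReal_mul, Real.mul_self_sqrt hr]
  congr 1
  · apply Finset.sum_congr rfl
    intro k _
    simp [Wr, W1, Matrix.conjTranspose_apply]
  · have h1 : (Wr Y b r)ᴴ i none = ((√r : ℝ) : ℂ) * b i := by
      simp [Wr, W1, Matrix.conjTranspose_apply]
    have h2 : Wr Y b r none j = ((√r : ℝ) : ℂ) * star (b j) := by
      simp [Wr, W1]
    rw [h1, h2, ← hs]
    ring

/-- the number of rows `none` -/
private def cnt {n : ℕ} (f : Fin n → Option (Fin n)) : ℕ := (univ.filter fun i => f i = none).card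

private theorem per_Wr {n : ℕ} (Y : Matrix (Fin n) (Fin n) ℂ) (b : Fin n → ℂ) (r : ℝ)
    (f : Fin n → Option (Fin n)) :
    ((Wr Y b r).submatrix f id).permanent =
      ((√r : ℝ) : ℂ) ^ cnt f * ((W1 Y b).submatrix f id).permanent := by
  unfold Matrix.permanent
  rw [Finset.mul_sum]
  apply Finset.sum_congr rfl
  intro σ _
  simp only [Matrix.submatrix_apply, id, Wr]
  rw [Finset.prod_mul_distrib]
  congr 1
  rw [Equiv.prod_comp σ (fun i => if f i = none then ((√r : ℝ) : ℂ) else 1)]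
  rw [Finset.prod_ite, Finset.prod_const, Finset.prod_const_one, mul_one]
  rfl

private theorem norm_per_Wr {n : ℕ} (Y : Matrix (Fin n) (Fin n) ℂ) (b : Fin n → ℂ) {r : ℝ}
    (hr : 0 ≤ r) (f : Fin n → Option (Fin n)) :
    ‖((Wr Y b r).submatrix f id).permanent‖ ^ 2 =
      ‖((W1 Y b).submatrix f id).permanent‖ ^ 2 * r ^ cnt f := by
  rw [per_Wr, norm_mul, norm_pow, Complex.norm_real, Real.norm_of_nonneg (Real.sqrt_nonneg _),
    mul_pow, ← pow_mul, mul_comm (cnt f) 2, pow_mul, Real.sq_sqrt hr]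
  ring

private theorem cnt_le {n : ℕ} (f : Fin n → Option (Fin n)) : cnt f ≤ n := by
  unfold cnt
  exact (Finset.card_le_univ _).trans (by rw [Fintype.card_fin])

/-- `per (B + r b b^*)` for PSD `B` is a polynomial in `r ≥ 0` of degree `≤ n` with nonnegative
coefficients. -/
theorem per_modes {n : ℕ} (B : Matrix (Fin n) (Fin n) ℂ) (hB : B.PosSemidef) (b : Fin n → ℂ) :
    ∃ c : ℕ → ℝ, (∀ m, 0 ≤ c m) ∧ ∀ r : ℝ, 0 ≤ r →
      (Matrix.of fun i j => B i j + (r : ℂ) * (b i * star (b j))).permanent =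
        ((∑ m ∈ range (n + 1), c m * r ^ m : ℝ) : ℂ) := by
  classical
  obtain ⟨Y, hY⟩ := exists_gram B hB
  have hfac : (0 : ℝ) < (n.factorial : ℝ) := by exact_mod_cast n.factorial_pos
  refine ⟨fun m => (n.factorial : ℝ)⁻¹ * ∑ f : Fin n → Option (Fin n),
    if cnt f = m then ‖((W1 Y b).submatrix f id).permanent‖ ^ 2 else 0, ?_, ?_⟩
  · intro m
    apply mul_nonneg (inv_nonneg.2 hfac.le)
    apply Finset.sum_nonneg
    intro f _
    split_ifs
    · positivity
    · exact le_refl _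
  · intro r hr
    have h1 := per_gram (Wr Y b r)
    rw [Wr_gram Y b hr, ← hY] at h1
    simp only [norm_per_Wr Y b hr] at h1
    have hfacC : ((n.factorial : ℕ) : ℂ) ≠ 0 := by exact_mod_cast n.factorial_ne_zero
    have h2 : (Matrix.of fun i j => B i j + (r : ℂ) * (b i * star (b j))).permanent =
        (((n.factorial : ℝ)⁻¹ * ∑ f : Fin n → Option (Fin n),
          ‖((W1 Y b).submatrix f id).permanent‖ ^ 2 * r ^ cnt f : ℝ) : ℂ) := by
      apply mul_left_cancel₀ hfacC
      rw [h1]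
      push_cast
      rw [← mul_assoc, mul_inv_cancel₀ hfacC, one_mul]
    rw [h2]
    congr 1
    simp only [mul_assoc]
    rw [← Finset.mul_sum]
    congr 1
    simp only [Finset.sum_mul]
    rw [Finset.sum_comm]
    apply Finset.sum_congr rfl
    intro f _
    have h3 : ∀ m ∈ range (n + 1),
        (if cnt f = m then ‖((W1 Y b).submatrix f id).permanent‖ ^ 2 else 0) * r ^ m =
        if cnt f = m then ‖((W1 Y b).submatrix f id).permanent‖ ^ 2 * r ^ cnt f else 0 := by
      intro m _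
      split_ifs with h
      · rw [h]
      · rw [zero_mul]
    rw [Finset.sum_congr rfl h3, Finset.sum_ite_eq, if_pos]
    rw [Finset.mem_range]
    have := cnt_le f
    omega

end SPM
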