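import Mathlib

/-!
MODULE SPM.Chord (0.5 h).  Pure real analysis.

PROOF.  F(r) = b ∑ (m+1) c_m r^(m+1) - K r (1 + (r-1) e) is ≥ 0 for r > 0 and F(1) = 0, so 1 is a local
minimum and F'(1) = 0 (`IsLocalMin.deriv_eq_zero` or `IsLocalMin.hasDerivAt_eq_zero`):
b ∑ (m+1)^2 c_m = K (1 + e), and F(1) = 0: b ∑ (m+1) c_m = K.  Subtract: K e = b ∑ m (m+1) c_m.
K - b ∑ c_m = b ∑ m c_m ≥ b ∑ m (m+1) c_m /(n+1) = K e/(n+1) because m + 1 ≤ n + 1.
-/

namespace SPM

open Finset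

theorem chord (n : ℕ) (c : ℕ → ℝ) (hc : ∀ m, 0 ≤ c m) (b K e : ℝ) (hb : 0 ≤ b)
    (h : ∀ r : ℝ, 0 ≤ r →
      K * (r * (1 + (r - 1) * e)) ≤ b * ∑ m ∈ range (n + 1), ((m : ℝ) + 1) * c m * r ^ (m + 1))
    (h1 : b * ∑ m ∈ range (n + 1), ((m : ℝ) + 1) * c m = K) :
    b * ∑ m ∈ range (n + 1), c m ≤ K * (1 - e / (n + 1)) := by
  have hd : HasDerivAt (fun r : ℝ =>
      b * ∑ m ∈ range (n + 1), ((m : ℝ) + 1) * c m * r ^ (m + 1) - K * (r * (1 + (r - 1) * e)))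
      (b * ∑ m ∈ range (n + 1), ((m : ℝ) + 1) * c m * ((m : ℝ) + 1) - K * (1 + e)) 1 := by
    have h2 : HasDerivAt (fun r : ℝ => ∑ m ∈ range (n + 1), ((m : ℝ) + 1) * c m * r ^ (m + 1))
        (∑ m ∈ range (n + 1), ((m : ℝ) + 1) * c m * ((m : ℝ) + 1)) 1 := by
      apply HasDerivAt.fun_sum
      intro m _
      have := (hasDerivAt_pow (m + 1) (1 : ℝ)).const_mul (((m : ℝ) + 1) * c m)
      simpa using this
    have h3 : HasDerivAt (fun r : ℝ => r * (1 + (r - 1) * e)) (1 + e) 1 := by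
      have h4 : HasDerivAt (fun r : ℝ => 1 + (r - 1) * e) e 1 := by
        have := (((hasDerivAt_id (1 : ℝ)).sub_const 1).mul_const e).const_add 1
        simpa using this
      have h9 := (hasDerivAt_id (1 : ℝ)).fun_mul h4
      have h10 : (1 : ℝ) * (1 + (1 - 1) * e) + id 1 * e = 1 + e := by simp
      rw [h10] at h9
      exact h9
    exact (h2.const_mul b).sub (h3.const_mul K)
  have hm : IsLocalMin (fun r : ℝ =>
      b * ∑ m ∈ range (n + 1), ((m : ℝ) + 1) * c m * r ^ (m + 1) - K * (r * (1 + (r - 1) * e)))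
      1 := by
    filter_upwards [lt_mem_nhds (zero_lt_one : (0 : ℝ) < 1)] with r hr
    have e1 : b * ∑ m ∈ range (n + 1), ((m : ℝ) + 1) * c m * (1 : ℝ) ^ (m + 1) = K := by
      rw [← h1]; simp
    have e2 := h r hr.le
    simp only [e1]
    linarith
  have h0 := hm.hasDerivAt_eq_zero hd
  have h5 : b * ∑ m ∈ range (n + 1), (m : ℝ) * ((m : ℝ) + 1) * c m = K * e := by
    have : ∑ m ∈ range (n + 1), ((m : ℝ) + 1) * c m * ((m : ℝ) + 1) =
        ∑ m ∈ range (n + 1), (m : ℝ) * ((m : ℝ) + 1) * c m +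
          ∑ m ∈ range (n + 1), ((m : ℝ) + 1) * c m := by
      rw [← sum_add_distrib]; apply sum_congr rfl; intro m _; ring
    rw [this, mul_add, h1] at h0
    linarith
  have h6 : K - b * ∑ m ∈ range (n + 1), c m = b * ∑ m ∈ range (n + 1), (m : ℝ) * c m := by
    rw [← h1, ← mul_sub, ← sum_sub_distrib]
    congr 1; apply sum_congr rfl; intro m _; ring
  have h7 : (∑ m ∈ range (n + 1), (m : ℝ) * ((m : ℝ) + 1) * c m) / ((n : ℝ) + 1) ≤
      ∑ m ∈ range (n + 1), (m : ℝ) * c m := by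
    rw [div_le_iff₀ (by positivity), sum_mul]
    apply sum_le_sum
    intro m hm
    have hmn : (m : ℝ) ≤ n := by
      have := mem_range.1 hm
      exact_mod_cast Nat.lt_succ_iff.1 this
    have : 0 ≤ (m : ℝ) * c m := mul_nonneg (Nat.cast_nonneg _) (hc m)
    nlinarith
  have h8 : K * (1 - e / (n + 1)) = K - (K * e) / (n + 1) := by ring
  rw [h8, ← h5, mul_div_assoc]
  have := mul_le_mul_of_nonneg_left h7 hb
  linarith

end SPM
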