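import Pool.Agent.Lib.SPM.Defs

/-!
MODULE SPM.Tree (0.7 h).  All cofactors of a matrix with zero row and column sums are equal.

PROOF of `adj_const`.  `adj L i j = det (L.updateRow j (Pi.single i 1))`
(`Matrix.adjugate_apply`).  So `adj L i j - adj L i' j = det (L.updateRow j (e_i - e_i'))`
(`det_updateRow_add`/`sub`), and this matrix kills the vector 1 (all row sums are zero), so its det is
0 (`Matrix.exists_mulVec_eq_zero_iff`).  Hence adj L i j does not depend on i.  The same for L^T
(`adjugate_transpose`; for Hermitian L the column sums are zero too) shows that it does not depend on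
j.  `adj L 0 0 = det (tail L)` (`adjugate_fin_succ_eq_det_submatrix`).
PROOF of `qf_zeroSum`: every term of `qfC L x` is det(tail L) times the term of the form, and
det (tail L) is real (`IsHermitian.det_eq_..`, or the det of a Hermitian matrix equals its conjugate:
`Matrix.det_conjTranspose`).
-/

namespace SPM

open Matrix Finset
open scoped ComplexOrder

private lemma adj_row {n : ℕ} (L : Matrix (Fin (n + 1)) (Fin (n + 1)) ℂ)
    (hz : ZeroSum L) (i i' j : Fin (n + 1)) : L.adjugate i j = L.adjugate i' j := by
  rw [Matrix.adjugate_apply, Matrix.adjugate_apply]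
  have h1 : (Pi.single i 1 : Fin (n + 1) → ℂ)
      = (Pi.single i 1 - Pi.single i' 1) + Pi.single i' 1 := by
    simp
  rw [h1, Matrix.det_updateRow_add]
  have h2 : (L.updateRow j (Pi.single i 1 - Pi.single i' 1)).det = 0 := by
    rw [← Matrix.exists_mulVec_eq_zero_iff]
    refine ⟨fun _ => 1, ?_, ?_⟩
    · intro h
      have := congrFun h 0
      simp at this
    · funext k
      simp only [Matrix.mulVec, dotProduct, mul_one, Pi.zero_apply]
      by_cases hk : k = j
      · subst hk
        simp [Matrix.updateRow_self, Finset.sum_sub_distrib]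
      · rw [Matrix.updateRow_ne hk]
        exact hz k
  rw [h2, zero_add]

theorem adj_const {n : ℕ} (L : Matrix (Fin (n + 1)) (Fin (n + 1)) ℂ) (hL : L.IsHermitian)
    (hz : ZeroSum L) (i j : Fin (n + 1)) : L.adjugate i j = (tail L).det := by
  have hzT : ZeroSum Lᵀ := by
    intro k
    have h := hz k
    have h2 : ∑ l, Lᵀ k l = star (∑ l, L k l) := by
      rw [star_sum]
      refine Finset.sum_congr rfl fun l _ => ?_
      rw [Matrix.transpose_apply]
      exact (hL.apply l k).symm
    rw [h2, h, star_zero]
  have e1 : L.adjugate i j = L.adjugate 0 j := adj_row L hz i 0 j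
  have e2 : L.adjugate 0 j = Lᵀ.adjugate j 0 := by
    rw [← Matrix.adjugate_transpose, Matrix.transpose_apply]
  have e3 : Lᵀ.adjugate j 0 = Lᵀ.adjugate 0 0 := adj_row Lᵀ hzT j 0 0
  have e4 : Lᵀ.adjugate 0 0 = L.adjugate 0 0 := by
    rw [← Matrix.adjugate_transpose, Matrix.transpose_apply]
  rw [e1, e2, e3, e4, Matrix.adjugate_fin_succ_eq_det_submatrix]
  simp [tail]

theorem qf_zeroSum {n : ℕ} (L : Matrix (Fin (n + 1)) (Fin (n + 1)) ℂ) (hL : L.IsHermitian)
    (hz : ZeroSum L) (x : Fin (n + 1) → ℂ) : qf L x = (tail L).det.re * frm L x := by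
  have him : (tail L).det.im = 0 := by
    have hT : (tail L).IsHermitian := by
      unfold tail
      exact hL.submatrix _
    have h : star (tail L).det = (tail L).det := by
      rw [← Matrix.det_conjTranspose, hT.eq]
    have := congrArg Complex.im h
    simp at this
    linarith
  have hC : qfC L x = (tail L).det * ∑ i, ∑ j, star (x i) * L i j * x j := by
    unfold qfC
    rw [Finset.mul_sum]
    refine Finset.sum_congr rfl fun i _ => ?_
    rw [Finset.mul_sum]
    refine Finset.sum_congr rfl fun j _ => ?_
    rw [adj_const L hL hz]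
    ring
  unfold qf frm
  rw [hC, Complex.mul_re, him, zero_mul, sub_zero]

end SPM
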