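import Pool.Agent.Lib.SPM.Modes
import Pool.Agent.Lib.SPM.Tree
import Pool.Agent.Lib.SPM.Chord

/-!
MODULE SPM.Deriv (1.2 h).  First-order condition in the direction `Ar L r`.

PROOF.  b = (L 0 0).re, L 0 0 = b (Hermitian), L 0 j = conj(L j 0), ∑_j L 0 j = 0, κ = det(tail L).
* `Ar L r` is PSD for r ≥ 0: it is (L - l l^*/b) + r l l^*/b, l = first column; the form of the first
  matrix at z is frm of L at z - (l^* z/b) e_0 (Schur complement), the second is r |l^* z|^2/b.
* `Ar L r` has zero row sums (∑_j L 0 j = 0).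
* det(tail(Ar L r)) = r κ: with B = tail L: L (i+1) 0 = -∑_j B i j, L 0 (j+1) = -∑_i B i j,
  b = ∑_ij B i j.  If κ ≠ 0: tail(Ar L r) = B (1 + (r-1)/b • 1 (1^T B)) and
  `Matrix.det_one_add_replicateCol_mul_replicateRow` (or `det_one_add_mul_comm`) gives
  det = κ (1 + (r-1)/b ∑_ij B i j) = κ r.  (No invertibility needed.)
* frm (Ar L r) x = lam + (r-1) lam^2 |x0|^2/b: frm L x = lam nsq x = lam and
  ∑_j L 0 j x j = lam x 0.
So T (n+1) ρ at `Ar L r` and x with `Tree.qf_zeroSum` gives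
r κ (lam + (r-1) lam^2 |x0|^2/b) ≤ ρ per(Ar L r) = ρ b ∑ (m+1) c_m r^(m+1), `Modes.modes`; for r = 1
(`Ar L 1 = L`) equality ρ per L = κ lam.  Apply `Chord.chord` with b := ρ b, K = κ lam,
e = lam |x0|^2/b.
-/

namespace SPM

open Matrix Finset
open scoped ComplexOrder

private theorem corner {n : ℕ} {L : Matrix (Fin (n + 1)) (Fin (n + 1)) ℂ} (hL : L.IsHermitian) :
    L 0 0 = ((L 0 0).re : ℂ) :=
  (Complex.conj_eq_iff_re.1 (hL.apply 0 0)).symm

private theorem lpl {n : ℕ} (L : Matrix (Fin (n + 1)) (Fin (n + 1)) ℂ) (i j : Fin (n + 1)) :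
    (L * (Matrix.single 0 0 1 : Matrix (Fin (n + 1)) (Fin (n + 1)) ℂ) * L) i j =
      L i 0 * L 0 j := by
  rw [Matrix.mul_apply, Finset.sum_eq_single 0]
  · rw [Matrix.mul_apply, Finset.sum_eq_single 0]
    · simp
    · intro k _ hk
      rw [Matrix.single_apply_of_row_ne (Ne.symm hk), mul_zero]
    · simp
  · intro k _ hk
    rw [Matrix.mul_apply, Finset.sum_eq_zero, zero_mul]
    intro l _
    rw [Matrix.single_apply_of_col_ne _ _ (Ne.symm hk), mul_zero]
  · simp

private theorem Ar_psd {n : ℕ} {L : Matrix (Fin (n + 1)) (Fin (n + 1)) ℂ} (hL : L.PosSemidef)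
    (h0 : 0 < (L 0 0).re) {r : ℝ} (hr : 0 ≤ r) : (Ar L r).PosSemidef := by
  have hH := hL.isHermitian
  have hb : L 0 0 = ((L 0 0).re : ℂ) := corner hH
  set b : ℝ := (L 0 0).re with hbdef
  have hbne : (b : ℂ) ≠ 0 := by exact_mod_cast h0.ne'
  set P : Matrix (Fin (n + 1)) (Fin (n + 1)) ℂ := Matrix.single 0 0 1 with hP
  have hPH : Pᴴ = P := by
    rw [hP, Matrix.conjTranspose_single, star_one]
  have hPLP : P * L * P = (b : ℂ) • P := by
    rw [hP, Matrix.single_mul_mul_single, one_mul, mul_one, hb, Matrix.smul_single, smul_eq_mul,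
      mul_one]
  have hPP : P * P = P := by
    rw [hP, Matrix.single_mul_single_same, mul_one]
  set C : Matrix (Fin (n + 1)) (Fin (n + 1)) ℂ := 1 - (b : ℂ)⁻¹ • (P * L) with hC
  have hCH : Cᴴ = 1 - (b : ℂ)⁻¹ • (L * P) := by
    rw [hC, Matrix.conjTranspose_sub, Matrix.conjTranspose_one, Matrix.conjTranspose_smul,
      Matrix.conjTranspose_mul, hPH, hH.eq, star_inv₀]
    congr 2
    simp
  have h1 : Cᴴ * L * C = L - (b : ℂ)⁻¹ • (L * P * L) := by
    have e1 : Cᴴ * L = L - (b : ℂ)⁻¹ • (L * P * L) := by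
      rw [hCH, sub_mul, one_mul, Matrix.smul_mul]
    have e2 : L * P * L * (P * L) = (b : ℂ) • (L * P * L) := by
      have : L * P * L * (P * L) = L * (P * L * P) * L := by noncomm_ring
      rw [this, hPLP, Matrix.mul_smul, Matrix.smul_mul]
    rw [e1, hC, mul_sub, mul_one, sub_mul, Matrix.mul_smul, Matrix.mul_smul, Matrix.smul_mul, e2,
      smul_smul, smul_smul, mul_assoc ((b : ℂ)⁻¹), inv_mul_cancel₀ hbne, mul_one,
      ← Matrix.mul_assoc, sub_self, sub_zero]
  have h2 : (P * L)ᴴ * (P * L) = L * P * L := by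
    rw [Matrix.conjTranspose_mul, hPH, hH.eq]
    have : L * P * (P * L) = L * (P * P) * L := by noncomm_ring
    rw [this, hPP]
  have h3 : Ar L r = Cᴴ * L * C + ((r / b : ℝ) : ℂ) • ((P * L)ᴴ * (P * L)) := by
    rw [h1, h2]
    ext i j
    rw [Matrix.add_apply, Matrix.sub_apply, Matrix.smul_apply, Matrix.smul_apply, hP, lpl]
    simp only [Ar, Matrix.of_apply, smul_eq_mul]
    rw [hb]
    push_cast
    field_simp
    ring
  rw [h3]
  refine (hL.conjTranspose_mul_mul_same C).add ((Matrix.posSemidef_conjTranspose_mul_self _).smul ?_)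
  have : 0 ≤ r / b := by positivity
  exact_mod_cast this

private theorem row0 {n : ℕ} {L : Matrix (Fin (n + 1)) (Fin (n + 1)) ℂ} (hH : L.IsHermitian)
    (hz : ZeroSum L) (j : Fin (n + 1)) : ∑ i, L i j = 0 := by
  have h := congrArg star (hz j)
  rw [star_sum, star_zero] at h
  rw [← h]
  exact Finset.sum_congr rfl fun i _ => (hH.apply i j).symm

private theorem det_tail_Ar {n : ℕ} {L : Matrix (Fin (n + 1)) (Fin (n + 1)) ℂ} (hH : L.IsHermitian)
    (hz : ZeroSum L) (h0 : 0 < (L 0 0).re) (r : ℝ) :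
    (tail (Ar L r)).det = (r : ℂ) * (tail L).det := by
  have hb : L 0 0 = ((L 0 0).re : ℂ) := corner hH
  have hbne : L 0 0 ≠ 0 := by
    rw [hb]
    exact_mod_cast h0.ne'
  set B := tail L with hB
  have hrow : ∀ i : Fin n, L i.succ 0 = -∑ k, B i k := by
    intro i
    have h := hz i.succ
    rw [Fin.sum_univ_succ] at h
    exact eq_neg_of_add_eq_zero_left h
  have hcol : ∀ j : Fin n, L 0 j.succ = -∑ k, B k j := by
    intro j
    have h := row0 hH hz j.succ
    rw [Fin.sum_univ_succ] at h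
    exact eq_neg_of_add_eq_zero_left h
  have hc : L 0 0 = ∑ j, ∑ k, B k j := by
    have h := hz 0
    rw [Fin.sum_univ_succ] at h
    have h' := eq_neg_of_add_eq_zero_left h
    rw [h', ← Finset.sum_neg_distrib]
    exact Finset.sum_congr rfl fun j _ => by rw [hcol, neg_neg]
  set c : ℂ := ((r : ℂ) - 1) / L 0 0 with hcdef
  have h1 : tail (Ar L r) = B * (1 + Matrix.replicateCol Unit (fun _ => c) *
      Matrix.replicateRow Unit (fun j => ∑ k, B k j)) := by
    ext i j
    rw [Matrix.mul_add, Matrix.mul_one, Matrix.add_apply, Matrix.mul_apply]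
    have e1 : ∀ k, (Matrix.replicateCol Unit (fun _ : Fin n => c) *
        Matrix.replicateRow Unit (fun j => ∑ k, B k j) : Matrix (Fin n) (Fin n) ℂ) k j =
        c * ∑ k, B k j := by
      intro k
      rw [Matrix.mul_apply]
      simp
    simp only [e1]
    rw [← Finset.sum_mul]
    show Ar L r i.succ j.succ = B i j + _
    simp only [Ar, Matrix.of_apply]
    rw [hrow, hcol, hcdef]
    show B i j + _ = _
    field_simp
  rw [h1, Matrix.det_mul, Matrix.det_one_add_replicateCol_mul_replicateRow, mul_comm]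
  congr 1
  simp only [dotProduct]
  rw [← Finset.sum_mul, ← hc, hcdef]
  field_simp
  ring

private theorem frm_Ar {n : ℕ} {L : Matrix (Fin (n + 1)) (Fin (n + 1)) ℂ} (hH : L.IsHermitian)
    (r : ℝ) {x : Fin (n + 1) → ℂ} (hx : nsq x = 1) {lam : ℝ}
    (hev : ∀ i, ∑ j, L i j * x j = (lam : ℂ) * x i) :
    frm (Ar L r) x = lam + (r - 1) * (lam ^ 2 * ‖x 0‖ ^ 2 / (L 0 0).re) := by
  have hb : L 0 0 = ((L 0 0).re : ℂ) := corner hH
  have hsum : ∑ i, star (x i) * x i = 1 := by
    have h1 : ∀ i, star (x i) * x i = ((‖x i‖ ^ 2 : ℝ) : ℂ) := by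
      intro i
      have := Complex.conj_mul' (x i)
      push_cast
      exact this
    simp only [h1]
    rw [← Complex.ofReal_sum]
    have : (∑ i, ‖x i‖ ^ 2 : ℝ) = 1 := hx
    rw [this, Complex.ofReal_one]
  have hcol : ∑ i, star (x i) * L i 0 = (lam : ℂ) * star (x 0) := by
    have h := congrArg star (hev 0)
    rw [star_sum, star_mul'] at h
    have e : star (lam : ℂ) = lam := Complex.conj_ofReal lam
    rw [e] at h
    rw [← h]
    refine Finset.sum_congr rfl fun i _ => ?_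
    rw [star_mul', hH.apply i 0, mul_comm]
  have e1 : ∑ i, ∑ j, star (x i) * Ar L r i j * x j =
      (∑ i, star (x i) * ∑ j, L i j * x j) +
      ((r : ℂ) - 1) * ((∑ i, star (x i) * L i 0) * (∑ j, L 0 j * x j) / L 0 0) := by
    have e2 : ∀ i j, star (x i) * Ar L r i j * x j = star (x i) * (L i j * x j) +
        ((r : ℂ) - 1) / L 0 0 * ((star (x i) * L i 0) * (L 0 j * x j)) := by
      intro i j
      simp only [Ar, Matrix.of_apply]
      ring
    simp only [e2, Finset.sum_add_distrib]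
    congr 1
    · exact Finset.sum_congr rfl fun i _ => by rw [Finset.mul_sum]
    · rw [Finset.sum_mul_sum, Finset.sum_div, Finset.mul_sum]
      refine Finset.sum_congr rfl fun i _ => ?_
      rw [Finset.sum_div, Finset.mul_sum]
      refine Finset.sum_congr rfl fun j _ => ?_
      ring
  have e3 : ∑ i, star (x i) * ∑ j, L i j * x j = (lam : ℂ) := by
    simp only [hev]
    calc ∑ i, star (x i) * ((lam : ℂ) * x i) = (lam : ℂ) * ∑ i, star (x i) * x i := by
          rw [Finset.mul_sum]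
          exact Finset.sum_congr rfl fun i _ => by ring
      _ = lam := by rw [hsum, mul_one]
  have e4 : star (x 0) * x 0 = ((‖x 0‖ ^ 2 : ℝ) : ℂ) := by
    have := Complex.conj_mul' (x 0)
    push_cast
    exact this
  unfold frm
  rw [e1, e3, hcol, hev 0]
  have e5 : (lam : ℂ) + ((r : ℂ) - 1) * ((lam : ℂ) * star (x 0) * ((lam : ℂ) * x 0) / L 0 0) =
      ((lam + (r - 1) * (lam ^ 2 * ‖x 0‖ ^ 2 / (L 0 0).re) : ℝ) : ℂ) := by
    have e6 : (lam : ℂ) * star (x 0) * ((lam : ℂ) * x 0) = (lam : ℂ) ^ 2 * (star (x 0) * x 0) := by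
      ring
    rw [e6, e4]
    conv_lhs => rw [hb]
    push_cast
    ring
  rw [e5, Complex.ofReal_re]

private theorem Ar_one {n : ℕ} (L : Matrix (Fin (n + 1)) (Fin (n + 1)) ℂ) : Ar L 1 = L := by
  ext i j
  simp [Ar]

private theorem Ar_zeroSum {n : ℕ} {L : Matrix (Fin (n + 1)) (Fin (n + 1)) ℂ} (hz : ZeroSum L)
    (r : ℝ) : ZeroSum (Ar L r) := by
  intro i
  have e : ∀ j, Ar L r i j = L i j + ((r : ℂ) - 1) * (L i 0 / L 0 0) * L 0 j := by
    intro j
    simp only [Ar, Matrix.of_apply]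
    ring
  simp only [e, Finset.sum_add_distrib]
  rw [hz i, ← Finset.mul_sum, hz 0, mul_zero, add_zero]

theorem first_order {n : ℕ} (ρ : ℝ) (hρ : 0 < ρ) (hTρ : T (n + 1) ρ)
    (L : Matrix (Fin (n + 1)) (Fin (n + 1)) ℂ) (hL : L.PosSemidef) (hz : ZeroSum L)
    (h0 : 0 < (L 0 0).re)
    (x : Fin (n + 1) → ℂ) (hx : nsq x = 1) (lam : ℝ) (hlam : 0 < lam)
    (hev : ∀ i, ∑ j, L i j * x j = (lam : ℂ) * x i)
    (heq : ρ * L.permanent.re = (tail L).det.re * lam) :
    ρ * (L 0 0).re * (tail L).permanent.re ≤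
      (tail L).det.re * lam * (1 - lam * ‖x 0‖ ^ 2 / (L 0 0).re / (n + 1)) := by
  have hH := hL.isHermitian
  obtain ⟨c, hc, hc1, hc2⟩ := modes L hL h0
  have hper : (tail L).permanent.re = ∑ m ∈ range (n + 1), c m := by
    rw [hc1, Complex.ofReal_re]
  rw [hper]
  refine chord n c hc (ρ * (L 0 0).re) ((tail L).det.re * lam) (lam * ‖x 0‖ ^ 2 / (L 0 0).re)
    (by positivity) ?_ ?_
  · intro r hr
    have hP := Ar_psd hL h0 hr
    have h1 := hTρ (Ar L r) hP x
    rw [hx, mul_one, hc2 r hr, Complex.ofReal_re, qf_zeroSum _ hP.isHermitian (Ar_zeroSum hz r) x,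
      det_tail_Ar hH hz h0, frm_Ar hH r hx hev] at h1
    have h2 : ((r : ℂ) * (tail L).det).re = r * (tail L).det.re := by
      rw [Complex.mul_re, Complex.ofReal_re, Complex.ofReal_im, zero_mul, sub_zero]
    rw [h2] at h1
    calc (tail L).det.re * lam * (r * (1 + (r - 1) * (lam * ‖x 0‖ ^ 2 / (L 0 0).re)))
        = r * (tail L).det.re * (lam + (r - 1) * (lam ^ 2 * ‖x 0‖ ^ 2 / (L 0 0).re)) := by ring
      _ ≤ _ := h1
      _ = _ := by ring
  · have h1 := hc2 1 zero_le_one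
    rw [Ar_one] at h1
    rw [← heq, h1, Complex.ofReal_re, mul_assoc]
    congr 2
    exact Finset.sum_congr rfl fun m _ => by rw [one_pow, mul_one]

end SPM
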