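import Pool.Agent.Lib.SPM.Adj

/-!
MODULE SPM.Facts (1.2 h).  Elementary facts about an eigenvector x of a zero-sum PSD matrix L, and the
shifted vector.

PROOF.  `sum_eq_zero`: lam ∑_i x_i = ∑_i ∑_j L i j x j = ∑_j (∑_i L i j) x_j = 0, the column sums are
the conjugates of the row sums.
`corner_eq`: L (i+1) 0 = -∑_j L (i+1) (j+1), L 0 0 = -∑_j L 0 (j+1) = -∑_i L (i+1) 0 (column sum).
`frm_tail`: frm L x = lam nsq x = lam; split off index 0 (`Fin.sum_univ_succ`): frm L x =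
frm (tail L) (vtail x) + 2 Re(conj x0 ∑_j L 0 (j+1) x (j+1)) + b |x0|^2 and
∑_j L 0 (j+1) x (j+1) = (lam - b) x0.  Hence frm (tail L)(vtail x) = lam - 2 (lam - b) t - b t.
`corner_ge`: 0 ≤ z^* L z for z = e_0 - w x with w = conj(x 0): = b - 2 lam t + lam t.
`min_le`: ∑ |x_i|^2 = 1 has n+1 terms, each ≥ |x_0|^2.
`nsq_shift`: expand, ∑_{i} vtail x i = - x 0.   `qf_shift`: `Adj.qfC_add_const` with c = x 0/n,
star c ∑ + c star ∑ + n |c|^2 = -2 t/n + t/n (real).
-/

namespace SPM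

open Matrix Finset
open scoped ComplexOrder

namespace FactsAux

theorem star_mul_self' (z : ℂ) : star z * z = ((‖z‖ ^ 2 : ℝ) : ℂ) := by
  have := Complex.conj_mul' z
  push_cast
  exact this

theorem col_sum {n : ℕ} (L : Matrix (Fin n) (Fin n) ℂ) (hL : L.IsHermitian) (hz : ZeroSum L)
    (j : Fin n) : ∑ i, L i j = 0 := by
  have h1 : ∀ i, L i j = star (L j i) := fun i => (hL.apply i j).symm
  rw [Finset.sum_congr rfl fun i _ => h1 i, ← star_sum, hz j, star_zero]

theorem sum_sq_eq {n : ℕ} (x : Fin n → ℂ) : ∑ i, star (x i) * x i = ((nsq x : ℝ) : ℂ) := by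
  unfold nsq
  push_cast
  refine Finset.sum_congr rfl fun i _ => ?_
  rw [star_mul_self']
  push_cast
  rfl

theorem form_eq {n : ℕ} (L : Matrix (Fin n) (Fin n) ℂ) (x : Fin n → ℂ) (lam : ℝ)
    (hev : ∀ i, ∑ j, L i j * x j = (lam : ℂ) * x i) :
    ∑ i, ∑ j, star (x i) * L i j * x j = (lam : ℂ) * ((nsq x : ℝ) : ℂ) := by
  rw [← sum_sq_eq, Finset.mul_sum]
  refine Finset.sum_congr rfl fun i _ => ?_
  have : ∑ j, star (x i) * L i j * x j = star (x i) * ∑ j, L i j * x j := by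
    rw [Finset.mul_sum]
    exact Finset.sum_congr rfl fun j _ => by ring
  rw [this, hev]
  ring

end FactsAux

open FactsAux

theorem sum_eq_zero {n : ℕ} (L : Matrix (Fin n) (Fin n) ℂ) (hL : L.IsHermitian) (hz : ZeroSum L)
    (x : Fin n → ℂ) (lam : ℝ) (hlam : 0 < lam) (hev : ∀ i, ∑ j, L i j * x j = (lam : ℂ) * x i) :
    ∑ i, x i = 0 := by
  have h1 : (lam : ℂ) * ∑ i, x i = 0 := by
    rw [Finset.mul_sum, ← Finset.sum_congr rfl fun i _ => hev i, Finset.sum_comm]
    refine Finset.sum_eq_zero fun j _ => ?_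
    rw [← Finset.sum_mul, col_sum L hL hz, zero_mul]
  rcases mul_eq_zero.1 h1 with h | h
  · exfalso
    rw [Complex.ofReal_eq_zero] at h
    exact hlam.ne' h
  · exact h

theorem corner_eq {n : ℕ} (L : Matrix (Fin (n + 1)) (Fin (n + 1)) ℂ) (hL : L.IsHermitian)
    (hz : ZeroSum L) : L 0 0 = ∑ i, ∑ j, tail L i j := by
  have h1 := col_sum L hL hz 0
  rw [Fin.sum_univ_succ] at h1
  have h2 : ∀ i : Fin n, ∑ j, tail L i j = -L i.succ 0 := by
    intro i
    have h3 := hz i.succ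
    rw [Fin.sum_univ_succ] at h3
    unfold tail
    simp only [submatrix_apply]
    linear_combination h3
  rw [Finset.sum_congr rfl fun i _ => h2 i, Finset.sum_neg_distrib]
  linear_combination h1

theorem frm_tail {n : ℕ} (L : Matrix (Fin (n + 1)) (Fin (n + 1)) ℂ) (hL : L.IsHermitian)
    (x : Fin (n + 1) → ℂ) (lam : ℝ) (hev : ∀ i, ∑ j, L i j * x j = (lam : ℂ) * x i)
    (hx : nsq x = 1) :
    frm (tail L) (vtail x) = lam - 2 * lam * ‖x 0‖ ^ 2 + (L 0 0).re * ‖x 0‖ ^ 2 := by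
  have h1 := form_eq L x lam hev
  rw [hx, Complex.ofReal_one, mul_one, Fin.sum_univ_succ] at h1
  have hb : L 0 0 = (((L 0 0).re : ℝ) : ℂ) := by
    have := hL.apply 0 0
    exact (Complex.conj_eq_iff_re.1 this).symm
  have h2 := hev 0
  rw [Fin.sum_univ_succ] at h2
  have h3 : ∑ j, star (x 0) * L 0 j * x j = star (x 0) * ((lam : ℂ) * x 0) := by
    rw [← hev 0, Finset.mul_sum]
    exact Finset.sum_congr rfl fun j _ => by ring
  have h4 : ∑ i : Fin n, ∑ j, star (x i.succ) * L i.succ j * x j =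
      (∑ i : Fin n, star (x i.succ) * L i.succ 0) * x 0 +
        ∑ i, ∑ j, star (vtail x i) * tail L i j * vtail x j := by
    rw [Finset.sum_mul, ← Finset.sum_add_distrib]
    refine Finset.sum_congr rfl fun i _ => ?_
    rw [Fin.sum_univ_succ]
    rfl
  have h5 : ∑ i : Fin n, star (x i.succ) * L i.succ 0 = star ((lam : ℂ) * x 0 - L 0 0 * x 0) := by
    rw [← h2, add_sub_cancel_left, star_sum]
    refine Finset.sum_congr rfl fun i _ => ?_
    rw [star_mul', hL.apply i.succ 0, mul_comm]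
  have h6 : star ((lam : ℂ) * x 0 - L 0 0 * x 0) = ((lam : ℂ) - L 0 0) * star (x 0) := by
    rw [← sub_mul, star_mul', star_sub, hL.apply 0 0]
    congr 2
    exact Complex.conj_ofReal lam
  have h7 := star_mul_self' (x 0)
  have h8 : (∑ i, ∑ j, star (vtail x i) * tail L i j * vtail x j) =
      ((lam - 2 * lam * ‖x 0‖ ^ 2 + (L 0 0).re * ‖x 0‖ ^ 2 : ℝ) : ℂ) := by
    rw [h3, h4, h5, h6, hb] at h1
    push_cast at h7 ⊢
    linear_combination h1 - (2 * (lam : ℂ) - (((L 0 0).re : ℝ) : ℂ)) * h7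
  unfold frm
  rw [h8, Complex.ofReal_re]

theorem corner_ge {n : ℕ} (L : Matrix (Fin (n + 1)) (Fin (n + 1)) ℂ) (hL : L.PosSemidef)
    (x : Fin (n + 1) → ℂ) (lam : ℝ) (hev : ∀ i, ∑ j, L i j * x j = (lam : ℂ) * x i)
    (hx : nsq x = 1) : lam * ‖x 0‖ ^ 2 ≤ (L 0 0).re := by
  have hH := hL.1
  set e : Fin (n + 1) → ℂ := Pi.single 0 1 with he
  set z : Fin (n + 1) → ℂ := e - star (x 0) • x with hz
  have h1 := hL.dotProduct_mulVec_nonneg z
  have hLx : L *ᵥ x = (lam : ℂ) • x := by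
    funext i
    exact hev i
  have hxx : star x ⬝ᵥ x = 1 := by
    have := sum_sq_eq x
    rw [hx, Complex.ofReal_one] at this
    exact this
  have hee : star e ⬝ᵥ (L *ᵥ e) = L 0 0 := by
    rw [he, Matrix.mulVec_single_one]
    simp [dotProduct, Pi.single_apply, Matrix.col_apply]
  have hex : star e ⬝ᵥ x = x 0 := by
    rw [he]
    simp [dotProduct, Pi.single_apply]
  have hxe : star x ⬝ᵥ (L *ᵥ e) = (lam : ℂ) * star (x 0) := by
    rw [Matrix.dotProduct_mulVec]
    have h3 : star x ᵥ* L = (lam : ℂ) • star x := by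
      have h4 := congrArg star hLx
      rw [Matrix.star_mulVec, hH.eq, star_smul] at h4
      rw [h4]
      congr 1
      exact Complex.conj_ofReal lam
    rw [h3, he]
    simp
  have h5 : star z ⬝ᵥ (L *ᵥ z) = L 0 0 - (lam : ℂ) * ((‖x 0‖ ^ 2 : ℝ) : ℂ) := by
    rw [hz, Matrix.mulVec_sub, Matrix.mulVec_smul, hLx, star_sub, star_smul, star_star,
      sub_dotProduct, dotProduct_sub, dotProduct_sub, smul_dotProduct, smul_dotProduct,
      dotProduct_smul, dotProduct_smul, dotProduct_smul, dotProduct_smul, hee, hex, hxe, hxx,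
      ← star_mul_self']
    simp only [smul_eq_mul]
    ring
  rw [h5] at h1
  have h6 := (Complex.le_def.1 h1).1
  rw [Complex.sub_re, Complex.re_ofReal_mul, Complex.ofReal_re, Complex.zero_re] at h6
  linarith

theorem min_le {n : ℕ} (x : Fin (n + 1) → ℂ) (hx : nsq x = 1) (hmin : ∀ i, ‖x 0‖ ≤ ‖x i‖) :
    ‖x 0‖ ^ 2 ≤ 1 / ((n : ℝ) + 1) := by
  rw [le_div_iff₀ (by positivity)]
  calc ‖x 0‖ ^ 2 * ((n : ℝ) + 1) = ∑ _i : Fin (n + 1), ‖x 0‖ ^ 2 := by
        rw [Finset.sum_const, Finset.card_univ, Fintype.card_fin, nsmul_eq_mul]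
        push_cast
        ring
    _ ≤ ∑ i, ‖x i‖ ^ 2 := Finset.sum_le_sum fun i _ => by
        have := hmin i
        gcongr
    _ = 1 := hx

namespace FactsAux

theorem sum_vtail {n : ℕ} (x : Fin (n + 1) → ℂ) (hsum : ∑ i, x i = 0) :
    ∑ i, vtail x i = -x 0 := by
  rw [Fin.sum_univ_succ] at hsum
  unfold vtail
  linear_combination hsum

end FactsAux

theorem nsq_shift {n : ℕ} (hn : 0 < n) (x : Fin (n + 1) → ℂ) (hsum : ∑ i, x i = 0)
    (hx : nsq x = 1) :
    nsq (fun i => vtail x i + x 0 / n) = 1 - (n + 1) * ‖x 0‖ ^ 2 / n := by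
  have hn' : (n : ℂ) ≠ 0 := by exact_mod_cast hn.ne'
  have h1 := sum_vtail x hsum
  have h2 : ∑ i, star (vtail x i) = -star (x 0) := by
    rw [← star_sum, h1, star_neg]
  have h3 := sum_sq_eq x
  rw [hx, Complex.ofReal_one, Fin.sum_univ_succ] at h3
  have h4 : ∑ i, star (vtail x i) * vtail x i = 1 - star (x 0) * x 0 := by
    unfold vtail
    linear_combination h3
  have h7 := star_mul_self' (x 0)
  have hsn : star (x 0 / (n : ℂ)) = star (x 0) / n := by
    rw [star_div₀]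
    congr 1
    exact Complex.conj_natCast n
  have h5 : ((nsq (fun i => vtail x i + x 0 / n) : ℝ) : ℂ) =
      ((1 - (n + 1) * ‖x 0‖ ^ 2 / n : ℝ) : ℂ) := by
    rw [← sum_sq_eq]
    have e : ∀ i, star (vtail x i + x 0 / n) * (vtail x i + x 0 / n) =
        star (vtail x i) * vtail x i + (star (vtail x i) * (x 0 / n) +
          (vtail x i * (star (x 0) / n) + (star (x 0) * x 0) / n ^ 2)) := by
      intro i
      rw [star_add, hsn]
      field_simp
      ring
    rw [Finset.sum_congr rfl fun i _ => e i, Finset.sum_add_distrib, Finset.sum_add_distrib,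
      Finset.sum_add_distrib, ← Finset.sum_mul, ← Finset.sum_mul, h1, h2, h4, Finset.sum_const,
      Finset.card_univ, Fintype.card_fin, nsmul_eq_mul, h7]
    push_cast at h7 ⊢
    field_simp
    linear_combination (-2 : ℂ) * h7
  exact_mod_cast h5

theorem qf_shift {n : ℕ} (hn : 0 < n) (B : Matrix (Fin n) (Fin n) ℂ) (x : Fin (n + 1) → ℂ)
    (hsum : ∑ i, x i = 0) :
    qf B (fun i => vtail x i + x 0 / n) = qf B (vtail x) - B.det.re * ‖x 0‖ ^ 2 / n := by
  have hn' : (n : ℂ) ≠ 0 := by exact_mod_cast hn.ne'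
  have h1 := sum_vtail x hsum
  have h2 : ∑ i, star (vtail x i) = -star (x 0) := by
    rw [← star_sum, h1, star_neg]
  have h7 := star_mul_self' (x 0)
  have hsn : star (x 0 / (n : ℂ)) = star (x 0) / n := by
    rw [star_div₀]
    congr 1
    exact Complex.conj_natCast n
  unfold qf
  rw [qfC_add_const, h1, h2, hsn]
  have e : star (x 0) / n * -x 0 + x 0 / n * -star (x 0) +
      (n : ℂ) * (star (x 0) / n * (x 0 / n)) = ((-(‖x 0‖ ^ 2 / n) : ℝ) : ℂ) := by
    push_cast at h7 ⊢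
    field_simp
    linear_combination (-1 : ℂ) * h7
  rw [e, Complex.add_re, Complex.re_mul_ofReal]
  ring

end SPM
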