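import Mathlib

/-!
MP_502342_al: definitions for the block (2,1^(n-2)) of the Schur power matrix.
-/

namespace SPM

open Matrix Finset
open scoped ComplexOrder

/-- The sesquilinear expression `x^* (A o adj(A)^T) x` as a complex number. -/
noncomputable def qfC {n : ℕ} (A : Matrix (Fin n) (Fin n) ℂ) (x : Fin n → ℂ) : ℂ :=
  ∑ i, ∑ j, star (x i) * (A i j * A.adjugate j i) * x j

/-- The real part of `qfC`. -/
noncomputable def qf {n : ℕ} (A : Matrix (Fin n) (Fin n) ℂ) (x : Fin n → ℂ) : ℝ := (qfC A x).re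

/-- The sesquilinear expression `x^* A x` (real part). -/
noncomputable def frm {n : ℕ} (A : Matrix (Fin n) (Fin n) ℂ) (x : Fin n → ℂ) : ℝ :=
  (∑ i, ∑ j, star (x i) * A i j * x j).re

/-- Square of the Euclidean norm. -/
noncomputable def nsq {n : ℕ} (x : Fin n → ℂ) : ℝ := ∑ i, ‖x i‖ ^ 2

/-- The statement `x^* (A o adj(A)^T) x ≤ ρ per(A) |x|^2` for all PSD `A` of order `n`. -/
def T (n : ℕ) (ρ : ℝ) : Prop :=
  ∀ A : Matrix (Fin n) (Fin n) ℂ, A.PosSemidef → ∀ x : Fin n → ℂ,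
    qf A x ≤ ρ * A.permanent.re * nsq x

/-- Removing the first row and the first column. -/
def tail {n : ℕ} (A : Matrix (Fin (n + 1)) (Fin (n + 1)) ℂ) : Matrix (Fin n) (Fin n) ℂ :=
  A.submatrix Fin.succ Fin.succ

/-- The vector without its first entry. -/
def vtail {n : ℕ} (x : Fin (n + 1) → ℂ) : Fin n → ℂ := fun i => x i.succ

/-- `A + s E_kk`. -/
def bump {n : ℕ} (A : Matrix (Fin n) (Fin n) ℂ) (k : Fin n) (s : ℝ) : Matrix (Fin n) (Fin n) ℂ :=
  A + (s : ℂ) • Matrix.single k k 1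

/-- The matrix `A_r = A + (r-1) a a^* / A_00`, `a` the first column: the mode of the first vector
is scaled by `√r`. -/
noncomputable def Ar {n : ℕ} (A : Matrix (Fin (n + 1)) (Fin (n + 1)) ℂ) (r : ℝ) :
    Matrix (Fin (n + 1)) (Fin (n + 1)) ℂ :=
  Matrix.of fun i j => A i j + ((r : ℂ) - 1) * (A i 0 * A 0 j / A 0 0)

/-- Zero row sums. -/
def ZeroSum {n : ℕ} (L : Matrix (Fin n) (Fin n) ℂ) : Prop := ∀ i, ∑ j, L i j = 0

end SPM
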