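import Pool.Agent.Lib.SPM.TrDet
import Pool.Agent.Lib.SPM.Defs

/-!
MODULE SPM.Low (1.3 h).  Lower bounds for `qf B x`, B positive definite.

Notation: κ = det B > 0, b = ∑_ij B i j (real, = 1^T B 1 > 0).  adj B = κ B⁻¹, so
qfC B x = κ ∑_ij conj(x_i) B_ij x_j (B⁻¹)_ji.  Write B⁻¹ = 1 1^T/b + G.
PROOF of `low_zero`.  G is PSD (Cauchy-Schwarz |1^* z|^2 = |1^* B B⁻¹ z|^2 ≤ (1^* B 1)(z^* B⁻¹ z)), D^* B D
(D = diagonal x) is PSD, so the trace of D^* B D * G is ≥ 0 (real part); and the part with 1 1^T/b is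
frm B x / b.
PROOF of `low_theta`.  R = B⁻¹ + (θ-1) 1 1^T/b = G + θ 1 1^T/b is PosDef for θ > 0: PSD, and
det R = θ/κ ≠ 0 by the matrix determinant lemma (`Matrix.det_add_replicateCol_mul_replicateRow` or
`det_one_add_...` after factoring B⁻¹: B⁻¹ (1 + (θ-1)/b B 1 1^T)).  P = D^* B D is PosDef since all
x_i ≠ 0, det P = κ ∏ |x_i|^2.  `TrDet.trace_ge` gives n g ≤ tr(P R) = qf B x/κ + (θ-1) frm B x/b.
-/

namespace SPM

open Matrix Finset
open scoped ComplexOrder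

namespace LowAux

/-- all entries one -/
def J (n : ℕ) : Matrix (Fin n) (Fin n) ℂ := Matrix.of fun _ _ => 1

theorem J_psd (n : ℕ) : (J n).PosSemidef := by
  have h : J n = vecMulVec (fun _ => (1 : ℂ)) (star fun _ => (1 : ℂ)) := by
    ext i j
    simp [J, vecMulVec_apply]
  rw [h]
  exact posSemidef_vecMulVec_self_star _

theorem mul_J_trace {n : ℕ} (P : Matrix (Fin n) (Fin n) ℂ) :
    (P * J n).trace = ∑ i, ∑ j, P i j := by
  simp [Matrix.trace, Matrix.mul_apply, J]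

theorem J_mul_J {n : ℕ} (B : Matrix (Fin n) (Fin n) ℂ) :
    J n * B * J n = (∑ i, ∑ j, B i j) • J n := by
  ext i j
  simp only [Matrix.mul_apply, J, Matrix.of_apply, one_mul, mul_one, Matrix.smul_apply, smul_eq_mul]
  rw [Finset.sum_comm]

theorem b_pos {n : ℕ} (B : Matrix (Fin n) (Fin n) ℂ) (hB : B.PosDef) (hn : 0 < n) :
    0 < ∑ i, ∑ j, B i j := by
  have h1 : (fun _ => (1 : ℂ) : Fin n → ℂ) ≠ 0 := by
    intro h
    have := congrFun h ⟨0, hn⟩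
    simp at this
  have h2 := hB.dotProduct_mulVec_pos h1
  have h3 : star (fun _ => (1 : ℂ) : Fin n → ℂ) ⬝ᵥ (B *ᵥ fun _ => (1 : ℂ)) = ∑ i, ∑ j, B i j := by
    simp [dotProduct, mulVec]
  rwa [h3] at h2

theorem psd_trace {n : ℕ} (P G : Matrix (Fin n) (Fin n) ℂ) (hP : P.PosSemidef) (hG : G.PosSemidef) :
    0 ≤ (P * G).trace.re := by
  obtain ⟨m, v, rfl⟩ := Matrix.posSemidef_iff_eq_sum_vecMulVec.mp hP
  rw [Finset.sum_mul, Matrix.trace_sum, Complex.re_sum]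
  refine Finset.sum_nonneg fun i _ => ?_
  have h1 : (vecMulVec (v i) (star (v i)) * G).trace = star (v i) ⬝ᵥ (G *ᵥ v i) := by
    rw [Matrix.trace_mul_comm, Matrix.mul_vecMulVec, Matrix.trace_vecMulVec, dotProduct_comm]
  rw [h1]
  exact (Complex.nonneg_iff.mp (hG.dotProduct_mulVec_nonneg (v i))).1

/-- the matrix `D^* B D` -/
def PP {n : ℕ} (B : Matrix (Fin n) (Fin n) ℂ) (x : Fin n → ℂ) : Matrix (Fin n) (Fin n) ℂ :=
  (diagonal x)ᴴ * B * diagonal x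

theorem PP_apply {n : ℕ} (B : Matrix (Fin n) (Fin n) ℂ) (x : Fin n → ℂ) (i j : Fin n) :
    PP B x i j = star (x i) * B i j * x j := by
  unfold PP
  rw [Matrix.diagonal_conjTranspose, Matrix.mul_diagonal, Matrix.diagonal_mul]
  rfl

theorem PP_sum {n : ℕ} (B : Matrix (Fin n) (Fin n) ℂ) (x : Fin n → ℂ) :
    (PP B x * J n).trace.re = frm B x := by
  rw [mul_J_trace]
  unfold frm
  simp_rw [PP_apply]

theorem PP_inv {n : ℕ} (B : Matrix (Fin n) (Fin n) ℂ) (hB : B.PosDef) (x : Fin n → ℂ) :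
    qf B x = B.det.re * (PP B x * B⁻¹).trace.re := by
  have hd := Complex.pos_iff.mp hB.det_pos
  have h1 : qfC B x = B.det * (PP B x * B⁻¹).trace := by
    have hadj : B.adjugate = B.det • B⁻¹ := by
      rw [Matrix.inv_def, smul_smul, Ring.mul_inverse_cancel _ (isUnit_iff_ne_zero.2 hB.det_pos.ne'),
        one_smul]
    unfold qfC
    rw [Matrix.trace, Finset.mul_sum]
    refine Finset.sum_congr rfl fun i _ => ?_
    rw [Matrix.diag_apply, Matrix.mul_apply, Finset.mul_sum]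
    refine Finset.sum_congr rfl fun j _ => ?_
    rw [PP_apply, hadj, Matrix.smul_apply, smul_eq_mul]
    ring
  unfold qf
  rw [h1, Complex.mul_re, ← hd.2]
  simp

/-- the matrix `G` -/
noncomputable def GG {n : ℕ} (B : Matrix (Fin n) (Fin n) ℂ) : Matrix (Fin n) (Fin n) ℂ :=
  B⁻¹ - (∑ i, ∑ j, B i j)⁻¹ • J n

theorem GG_psd {n : ℕ} (B : Matrix (Fin n) (Fin n) ℂ) (hB : B.PosDef) (hn : 0 < n) :
    (GG B).PosSemidef := by
  have hb := b_pos B hB hn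
  have hb0 : (∑ i, ∑ j, B i j) ≠ 0 := hb.ne'
  have hbs : star (∑ i, ∑ j, B i j) = ∑ i, ∑ j, B i j := by
    have h := Complex.pos_iff.mp hb
    exact Complex.conj_eq_iff_im.2 h.2.symm
  have hU : IsUnit B.det := isUnit_iff_ne_zero.2 hB.det_pos.ne'
  have hH : (GG B)ᴴ = GG B := by
    unfold GG
    rw [Matrix.conjTranspose_sub, Matrix.conjTranspose_smul, (J_psd n).isHermitian.eq,
      hB.inv.isHermitian.eq, star_inv₀, hbs]
  have hE : GG B * B * GG B = GG B := by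
    unfold GG
    have e1 : (B⁻¹ - (∑ i, ∑ j, B i j)⁻¹ • J n) * B * (B⁻¹ - (∑ i, ∑ j, B i j)⁻¹ • J n) =
        B⁻¹ * B * B⁻¹ - (∑ i, ∑ j, B i j)⁻¹ • (B⁻¹ * B * J n) -
          (∑ i, ∑ j, B i j)⁻¹ • (J n * (B * B⁻¹)) +
          (∑ i, ∑ j, B i j)⁻¹ • (∑ i, ∑ j, B i j)⁻¹ • (J n * B * J n) := by
      simp only [Matrix.sub_mul, Matrix.mul_sub, Matrix.smul_mul, Matrix.mul_smul,
        Matrix.mul_assoc, smul_sub]
      abel
    rw [e1, Matrix.nonsing_inv_mul _ hU, Matrix.mul_nonsing_inv _ hU, J_mul_J, Matrix.one_mul,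
      Matrix.one_mul, Matrix.mul_one, smul_smul _ (∑ i, ∑ j, B i j) (J n), inv_mul_cancel₀ hb0,
      one_smul]
    abel
  have h := hB.posSemidef.conjTranspose_mul_mul_same (GG B)
  rwa [hH, hE] at h

theorem trace_JJ {n : ℕ} (B : Matrix (Fin n) (Fin n) ℂ) (hB : B.PosDef) (hn : 0 < n)
    (x : Fin n → ℂ) : ((∑ i, ∑ j, B i j)⁻¹ * (PP B x * J n).trace).re =
      frm B x / (∑ i, ∑ j, B i j).re := by
  have h := Complex.pos_iff.mp (b_pos B hB hn)
  have hb : (∑ i, ∑ j, B i j) = (((∑ i, ∑ j, B i j).re : ℝ) : ℂ) := by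
    apply Complex.ext
    · rw [Complex.ofReal_re]
    · rw [Complex.ofReal_im, ← h.2]
  rw [← PP_sum]
  generalize hz : (PP B x * J n).trace = z
  generalize hbb : (∑ i, ∑ j, B i j) = b at hb ⊢
  rw [hb, ← Complex.ofReal_inv, Complex.re_ofReal_mul, Complex.ofReal_re]
  rw [div_eq_inv_mul]

theorem R_det {n : ℕ} (B : Matrix (Fin n) (Fin n) ℂ) (hB : B.PosDef) (hn : 0 < n) (θ : ℝ) :
    (B⁻¹ + (((θ : ℂ) - 1) * (∑ i, ∑ j, B i j)⁻¹) • J n).det = B.det⁻¹ * θ := by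
  have hb0 : (∑ i, ∑ j, B i j) ≠ 0 := (b_pos B hB hn).ne'
  have hU : IsUnit B.det := isUnit_iff_ne_zero.2 hB.det_pos.ne'
  generalize hc : ((θ : ℂ) - 1) * (∑ i, ∑ j, B i j)⁻¹ = c
  have e1 : B⁻¹ + c • J n = B⁻¹ * (1 + replicateCol Unit (c • B *ᵥ fun _ => (1 : ℂ)) *
      replicateRow Unit (fun _ => (1 : ℂ))) := by
    have e2 : replicateCol Unit (c • B *ᵥ fun _ => (1 : ℂ)) *
      replicateRow Unit (fun _ => (1 : ℂ)) = c • (B * J n) := by
      ext i j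
      simp [Matrix.mul_apply, J, mulVec, dotProduct]
    rw [e2, Matrix.mul_add, Matrix.mul_one, Matrix.mul_smul, ← Matrix.mul_assoc,
      Matrix.nonsing_inv_mul _ hU, Matrix.one_mul]
  rw [e1, Matrix.det_mul, Matrix.det_one_add_replicateCol_mul_replicateRow, Matrix.det_nonsing_inv,
    Ring.inverse_eq_inv']
  congr 1
  have e3 : (fun _ => (1 : ℂ)) ⬝ᵥ (c • B *ᵥ fun _ => (1 : ℂ)) = c * ∑ i, ∑ j, B i j := by
    simp [dotProduct, mulVec, Finset.mul_sum]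
  rw [e3, ← hc, mul_assoc, inv_mul_cancel₀ hb0, mul_one]
  ring

theorem R_posDef {n : ℕ} (B : Matrix (Fin n) (Fin n) ℂ) (hB : B.PosDef) (hn : 0 < n) (θ : ℝ)
    (hθ : 0 < θ) : (B⁻¹ + (((θ : ℂ) - 1) * (∑ i, ∑ j, B i j)⁻¹) • J n).PosDef := by
  have hb := b_pos B hB hn
  have h1 : B⁻¹ + (((θ : ℂ) - 1) * (∑ i, ∑ j, B i j)⁻¹) • J n =
      GG B + ((θ : ℂ) * (∑ i, ∑ j, B i j)⁻¹) • J n := by
    unfold GG
    rw [sub_mul, one_mul, sub_smul]
    abel
  have h2 : (B⁻¹ + (((θ : ℂ) - 1) * (∑ i, ∑ j, B i j)⁻¹) • J n).PosSemidef := by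
    rw [h1]
    refine (GG_psd B hB hn).add ((J_psd n).smul ?_)
    have h3 : (0 : ℂ) ≤ (θ : ℂ) := by exact_mod_cast hθ.le
    have h4 : (0 : ℂ) ≤ (∑ i, ∑ j, B i j)⁻¹ := by
      have h5 := Complex.pos_iff.mp hb
      have hbr : (∑ i, ∑ j, B i j) = (((∑ i, ∑ j, B i j).re : ℝ) : ℂ) := by
        apply Complex.ext
        · rw [Complex.ofReal_re]
        · rw [Complex.ofReal_im, ← h5.2]
      rw [hbr, ← Complex.ofReal_inv]
      exact_mod_cast (inv_pos.2 h5.1).le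
    exact mul_nonneg h3 h4
  rw [h2.posDef_iff_det_ne_zero, R_det B hB hn]
  exact mul_ne_zero (inv_ne_zero hB.det_pos.ne') (by exact_mod_cast hθ.ne')

theorem PP_posDef {n : ℕ} (B : Matrix (Fin n) (Fin n) ℂ) (hB : B.PosDef) (x : Fin n → ℂ)
    (hx : ∀ i, x i ≠ 0) : (PP B x).PosDef := by
  refine hB.conjTranspose_mul_mul_same ?_
  rw [Matrix.mulVec_injective_iff_isUnit, Matrix.isUnit_iff_isUnit_det, Matrix.det_diagonal,
    isUnit_iff_ne_zero]
  exact Finset.prod_ne_zero_iff.2 fun i _ => hx i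

theorem PP_det {n : ℕ} (B : Matrix (Fin n) (Fin n) ℂ) (x : Fin n → ℂ) :
    (PP B x).det = B.det * ((∏ i, ‖x i‖ ^ 2 : ℝ) : ℂ) := by
  unfold PP
  rw [Matrix.det_mul, Matrix.det_mul, Matrix.det_conjTranspose, Matrix.det_diagonal]
  have h : star (∏ i, x i) * (∏ i, x i) = ((∏ i, ‖x i‖ ^ 2 : ℝ) : ℂ) := by
    rw [star_prod, ← Finset.prod_mul_distrib]
    push_cast
    refine Finset.prod_congr rfl fun i _ => ?_
    have := Complex.conj_mul' (x i)
    exact this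
  rw [← h]
  ring

end LowAux

theorem low_zero {n : ℕ} (B : Matrix (Fin n) (Fin n) ℂ) (hB : B.PosDef) (hn : 0 < n)
    (x : Fin n → ℂ) :
    0 < (∑ i, ∑ j, B i j).re ∧
      B.det.re * (frm B x / (∑ i, ∑ j, B i j).re) ≤ qf B x := by
  have hb := LowAux.b_pos B hB hn
  have hbc := Complex.pos_iff.mp hb
  refine ⟨hbc.1, ?_⟩
  have hd := Complex.pos_iff.mp hB.det_pos
  have hP : (LowAux.PP B x).PosSemidef := hB.posSemidef.conjTranspose_mul_mul_same _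
  have h := LowAux.psd_trace _ _ hP (LowAux.GG_psd B hB hn)
  rw [LowAux.PP_inv B hB x]
  refine mul_le_mul_of_nonneg_left ?_ hd.1.le
  have e := LowAux.trace_JJ B hB hn x
  unfold LowAux.GG at h
  rw [Matrix.mul_sub, Matrix.mul_smul, Matrix.trace_sub, Matrix.trace_smul, smul_eq_mul,
    Complex.sub_re, e] at h
  linarith

theorem low_theta {n : ℕ} (B : Matrix (Fin n) (Fin n) ℂ) (hB : B.PosDef) (hn : 0 < n)
    (x : Fin n → ℂ) (hx : ∀ i, x i ≠ 0) (θ g : ℝ) (hθ : 0 < θ) (hg : 0 ≤ g)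
    (h : g ^ n ≤ θ * ∏ i, ‖x i‖ ^ 2) :
    B.det.re * (frm B x / (∑ i, ∑ j, B i j).re + (n * g - θ * (frm B x / (∑ i, ∑ j, B i j).re)))
      ≤ qf B x := by
  have hd := Complex.pos_iff.mp hB.det_pos
  have hdr : B.det = ((B.det.re : ℝ) : ℂ) := by
    apply Complex.ext
    · rw [Complex.ofReal_re]
    · rw [Complex.ofReal_im, ← hd.2]
  have hR := LowAux.R_posDef B hB hn θ hθ
  have hP := LowAux.PP_posDef B hB x hx
  have hprod : (LowAux.PP B x).det.re *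
      (B⁻¹ + (((θ : ℂ) - 1) * (∑ i, ∑ j, B i j)⁻¹) • LowAux.J n).det.re = θ * ∏ i, ‖x i‖ ^ 2 := by
    rw [LowAux.PP_det, LowAux.R_det B hB hn]
    have h0 : B.det.re ≠ 0 := hd.1.ne'
    rw [hdr, ← Complex.ofReal_inv, ← Complex.ofReal_mul, ← Complex.ofReal_mul, Complex.ofReal_re,
      Complex.ofReal_re]
    field_simp
  have h1 := trace_ge _ _ hP hR g hg (by rw [hprod]; exact h)
  rw [Matrix.mul_add, Matrix.mul_smul, Matrix.trace_add, Matrix.trace_smul, smul_eq_mul,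
    Complex.add_re] at h1
  have e := LowAux.trace_JJ B hB hn x
  have e2 : (((θ : ℂ) - 1) * (∑ i, ∑ j, B i j)⁻¹ * (LowAux.PP B x * LowAux.J n).trace).re =
      (θ - 1) * (frm B x / (∑ i, ∑ j, B i j).re) := by
    rw [← e, mul_assoc, ← Complex.ofReal_one, ← Complex.ofReal_sub, Complex.re_ofReal_mul]
  rw [e2] at h1
  rw [LowAux.PP_inv B hB x]
  refine mul_le_mul_of_nonneg_left ?_ hd.1.le
  linarith

end SPM
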