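import Mathlib

/-!
MODULE SPM.Num (0.7 h).  The final numerical contradiction.

s = lam/b, t = |x_0|^2, N = n+1.
PROOF.  (i) gives p ≤ κ s (1 - s t/(n+1))/ρ < κ s (1 - s t/(n+1)) (s t ≤ 1 so the bracket is positive,
κ, s > 0, ρ > 1).  With τ = (n+1) t/n ≤ 1/n < 1 and (ii), (iii):
κ (s - 2 s t + t + a - t/n) ≤ p (1 - τ) < κ (1 - τ) s (1 - s t/(n+1)).
But s - 2st + t - t/n + a - (1-(n+1)t/n)(s - s^2 t/(n+1))
  = a - t [ (n-1)(s-1)/n - s^2 (1/(n+1) - t/n) ]  and, as t ≤ 1/(n+1),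
1/(n+1) - t/n ≥ (n-1)/(n (n+1)), so the bracket is ≤ ((n-1)/n) (s - 1 - s^2/(n+1))
≤ ((n-1)/n) ((n+1)/4 - 1) = (n-1)(n-3)/(4n).  So the difference is ≥ a - t (n-1)(n-3)/(4n) ≥ 0 (for
n ≤ 3 because a ≥ 0 and t ≥ 0), contradiction.
-/

namespace SPM

theorem final_num (n : ℕ) (hn : 2 ≤ n) (κ s t ρ p q a : ℝ) (hκ : 0 < κ) (hs : 0 < s)
    (ht : 0 ≤ t) (htn : t ≤ 1 / ((n : ℝ) + 1)) (hst : s * t ≤ 1) (hρ : 1 < ρ) (ha : 0 ≤ a)
    (ha4 : 4 ≤ n → t * (((n : ℝ) - 1) * (n - 3) / (4 * n)) ≤ a)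
    (h1 : ρ * p ≤ κ * s * (1 - s * t / (n + 1)))
    (h2 : q - κ * t / n ≤ p * (1 - (n + 1) * t / n))
    (h3 : κ * (s - 2 * s * t + t + a) ≤ q) : False := by
  have hN : (2 : ℝ) ≤ (n : ℝ) := by exact_mod_cast hn
  have ha4' : t * (((n : ℝ) - 1) * (n - 3) / (4 * n)) ≤ a := by
    rcases le_or_gt 4 n with h | h
    · exact ha4 h
    · have h3' : (n : ℝ) ≤ 3 := by
        have : n ≤ 3 := by omega
        exact_mod_cast this
      have h4 : ((n : ℝ) - 1) * (n - 3) / (4 * n) ≤ 0 := by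
        apply div_nonpos_of_nonpos_of_nonneg
        · exact mul_nonpos_of_nonneg_of_nonpos (by linarith) (by linarith)
        · linarith
      have h5 : t * (((n : ℝ) - 1) * (n - 3) / (4 * n)) ≤ 0 :=
        mul_nonpos_of_nonneg_of_nonpos ht h4
      linarith
  clear ha4
  generalize (n : ℝ) = N at *
  have hN0 : 0 < N := by linarith
  have hN1 : 0 < N + 1 := by linarith
  have hu : 0 < 1 - s * t / (N + 1) := by
    have : s * t / (N + 1) < 1 := by
      rw [div_lt_one hN1]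
      linarith
    linarith
  have htN : (N + 1) * t ≤ 1 := by
    have := mul_le_mul_of_nonneg_left htn hN1.le
    rwa [mul_one_div_cancel hN1.ne'] at this
  have hv : 0 < 1 - (N + 1) * t / N := by
    have : (N + 1) * t / N < 1 := by
      rw [div_lt_one hN0]
      linarith
    linarith
  have hK : 0 < κ * s * (1 - s * t / (N + 1)) := by positivity
  have hp : p < κ * s * (1 - s * t / (N + 1)) := by
    rcases le_or_gt p 0 with h | h
    · linarith
    · nlinarith
  have h4 : κ * (s - 2 * s * t + t + a) <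
      κ * s * (1 - s * t / (N + 1)) * (1 - (N + 1) * t / N) + κ * t / N := by
    have := mul_lt_mul_of_pos_right hp hv
    linarith
  have h5 : s - 2 * s * t + t + a < s * (1 - s * t / (N + 1)) * (1 - (N + 1) * t / N) + t / N := by
    have e : κ * s * (1 - s * t / (N + 1)) * (1 - (N + 1) * t / N) + κ * t / N
        = κ * (s * (1 - s * t / (N + 1)) * (1 - (N + 1) * t / N) + t / N) := by ring
    rw [e] at h4
    exact lt_of_mul_lt_mul_left h4 hκ.le
  have h6 : s - 2 * s * t + t + a - (s * (1 - s * t / (N + 1)) * (1 - (N + 1) * t / N) + t / N)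
      = a - t * ((N - 1) * (s - 1) / N - s ^ 2 * (1 / (N + 1) - t / N)) := by
    field_simp
    ring
  have h7 : (N - 1) / (N * (N + 1)) ≤ 1 / (N + 1) - t / N := by
    have e : 1 / (N + 1) - t / N - (N - 1) / (N * (N + 1)) = (1 - (N + 1) * t) / (N * (N + 1)) := by
      field_simp
      ring
    have : 0 ≤ (1 - (N + 1) * t) / (N * (N + 1)) := by
      apply div_nonneg (by linarith)
      positivity
    linarith
  have h8 : (N - 1) * (s - 1) / N - s ^ 2 * (1 / (N + 1) - t / N) ≤ (N - 1) * (N - 3) / (4 * N) := by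
    have e1 : s ^ 2 * ((N - 1) / (N * (N + 1))) ≤ s ^ 2 * (1 / (N + 1) - t / N) :=
      mul_le_mul_of_nonneg_left h7 (sq_nonneg s)
    have e2 : (N - 1) * (N - 3) / (4 * N) - ((N - 1) * (s - 1) / N
        - s ^ 2 * ((N - 1) / (N * (N + 1)))) = (N - 1) / N * (((N + 1) / 2 - s) ^ 2 / (N + 1)) := by
      field_simp
      ring
    have e3 : 0 ≤ (N - 1) / N * (((N + 1) / 2 - s) ^ 2 / (N + 1)) := by
      apply mul_nonneg
      · exact div_nonneg (by linarith) hN0.le
      · positivity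
    linarith
  have h9 : t * ((N - 1) * (s - 1) / N - s ^ 2 * (1 / (N + 1) - t / N)) ≤ a :=
    le_trans (mul_le_mul_of_nonneg_left h8 ht) ha4'
  linarith

end SPM
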