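import Mathlib

/-!
MODULE SPM.Prd (1 h).  A lower bound for a product, and a numerical inequality.

PROOF of `prod_ge`.  Let y_i = ‖x i‖, t = y_0^2 minimal among the y_i^2.  Let p maximise y_p:
y_p^2 ≥ 1/(n+1).  From ∑ x = 0: y_p ≤ ∑_{i ≠ p} y_i ≤ n max_{i ≠ p} y_i, so some q ≠ p has
y_q^2 ≥ y_p^2/n^2 ≥ 1/((n+1) n^2).  If t > 0 is the minimum and p = 0 or q = 0 then all... choose p, q
among the nonzero indices: if p = 0 then all y_i are equal (0 is also the minimum), any index will do;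
if q = 0 then y_i ≥ y_0 = y_q for all i, so any other index ≠ p, 0 may replace q (n ≥ 2).  The product
over the n indices i.succ of y_i^2 is ≥ y_p^2 y_q^2 t^(n-2) ≥ t^(n-2)/((n+1) n)^2.
PROOF of `num_ineq`: a = (n-3)/(4n) < 1/4.  n = 4, 5, 6: norm_num.  For n ≥ 7: a^(n-1) ≤ 4^-(n-1) ≤
1/((n+1) n)^2, i.e. ((n+1) n)^2 ≤ 4^(n-1), by induction from n = 7 (56^2 = 3136 ≤ 4096).
-/

namespace SPM

open Finset

theorem prod_ge (n : ℕ) (hn : 2 ≤ n) (x : Fin (n + 1) → ℂ) (hsum : ∑ i, x i = 0)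
    (hx : ∑ i, ‖x i‖ ^ 2 = 1) (hmin : ∀ i, ‖x 0‖ ≤ ‖x i‖) :
    (‖x 0‖ ^ 2) ^ (n - 2) / (((n : ℝ) + 1) * n) ^ 2 ≤ ∏ i : Fin n, ‖x i.succ‖ ^ 2 := by
  classical
  have hn0 : (0 : ℝ) < n := by exact_mod_cast (by omega : 0 < n)
  obtain ⟨p, -, hp⟩ := Finset.exists_max_image (univ : Finset (Fin n)) (fun i => ‖x i.succ‖)
    ⟨⟨0, by omega⟩, mem_univ _⟩
  have hcard : ((univ : Finset (Fin n)).erase p).card = n - 1 := by
    rw [Finset.card_erase_of_mem (mem_univ p), Finset.card_univ, Fintype.card_fin]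
  obtain ⟨q, hqm, hq⟩ := Finset.exists_max_image ((univ : Finset (Fin n)).erase p)
    (fun i => ‖x i.succ‖) (Finset.card_pos.mp (by rw [hcard]; omega))
  have hqp : q ≠ p := Finset.ne_of_mem_erase hqm
  -- `p` maximises everything
  have hp' : ∀ i : Fin (n + 1), ‖x i‖ ≤ ‖x p.succ‖ := by
    intro i
    rcases Fin.eq_zero_or_eq_succ i with h | ⟨j, h⟩
    · rw [h]; exact hmin _
    · rw [h]; exact hp j (mem_univ _)
  have hq' : ∀ i : Fin (n + 1), i ≠ p.succ → ‖x i‖ ≤ ‖x q.succ‖ := by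
    intro i hi
    rcases Fin.eq_zero_or_eq_succ i with h | ⟨j, h⟩
    · rw [h]; exact hmin _
    · rw [h]
      refine hq j (Finset.mem_erase.mpr ⟨?_, mem_univ _⟩)
      rintro rfl
      exact hi h
  have h1 : 1 / ((n : ℝ) + 1) ≤ ‖x p.succ‖ ^ 2 := by
    rw [div_le_iff₀ (by positivity)]
    calc (1 : ℝ) = ∑ i, ‖x i‖ ^ 2 := hx.symm
      _ ≤ ∑ _i : Fin (n + 1), ‖x p.succ‖ ^ 2 :=
          Finset.sum_le_sum fun i _ => pow_le_pow_left₀ (norm_nonneg _) (hp' i) 2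
      _ = ‖x p.succ‖ ^ 2 * (n + 1) := by
          rw [Finset.sum_const, Finset.card_univ, Fintype.card_fin, nsmul_eq_mul]
          push_cast; ring
  have h2 : ‖x p.succ‖ ≤ n * ‖x q.succ‖ := by
    have h3 : x p.succ = -∑ i ∈ (univ : Finset (Fin (n + 1))).erase p.succ, x i := by
      have := Finset.add_sum_erase (univ : Finset (Fin (n + 1))) x (mem_univ p.succ)
      rw [hsum] at this
      exact eq_neg_of_add_eq_zero_left this
    calc ‖x p.succ‖ = ‖∑ i ∈ (univ : Finset (Fin (n + 1))).erase p.succ, x i‖ := by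
          rw [h3, norm_neg]
      _ ≤ ∑ i ∈ (univ : Finset (Fin (n + 1))).erase p.succ, ‖x i‖ := norm_sum_le _ _
      _ ≤ ∑ _i ∈ (univ : Finset (Fin (n + 1))).erase p.succ, ‖x q.succ‖ :=
          Finset.sum_le_sum fun i hi => hq' i (Finset.ne_of_mem_erase hi)
      _ = n * ‖x q.succ‖ := by
          rw [Finset.sum_const, Finset.card_erase_of_mem (mem_univ _), Finset.card_univ,
            Fintype.card_fin, nsmul_eq_mul, Nat.add_sub_cancel]
  have h4 : 1 / (((n : ℝ) + 1) * n ^ 2) ≤ ‖x q.succ‖ ^ 2 := by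
    have h5 : ‖x p.succ‖ ^ 2 ≤ n ^ 2 * ‖x q.succ‖ ^ 2 := by
      rw [← mul_pow]
      exact pow_le_pow_left₀ (norm_nonneg _) h2 2
    have h6 := h1.trans h5
    rw [div_le_iff₀ (by positivity)] at h6 ⊢
    linarith
  have h7 : ∏ i : Fin n, ‖x i.succ‖ ^ 2 = ‖x p.succ‖ ^ 2 * (‖x q.succ‖ ^ 2 *
      ∏ i ∈ ((univ : Finset (Fin n)).erase p).erase q, ‖x i.succ‖ ^ 2) := by
    rw [Finset.mul_prod_erase _ (fun i : Fin n => ‖x i.succ‖ ^ 2) hqm,
      Finset.mul_prod_erase _ (fun i : Fin n => ‖x i.succ‖ ^ 2) (mem_univ p)]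
  have h8 : (‖x 0‖ ^ 2) ^ (n - 2) ≤
      ∏ i ∈ ((univ : Finset (Fin n)).erase p).erase q, ‖x i.succ‖ ^ 2 := by
    have hc : (((univ : Finset (Fin n)).erase p).erase q).card = n - 2 := by
      rw [Finset.card_erase_of_mem hqm, hcard]; omega
    calc (‖x 0‖ ^ 2) ^ (n - 2)
        = ∏ _i ∈ ((univ : Finset (Fin n)).erase p).erase q, ‖x 0‖ ^ 2 := by
          rw [Finset.prod_const, hc]
      _ ≤ _ := Finset.prod_le_prod (fun i _ => by positivity)
          fun i _ => pow_le_pow_left₀ (norm_nonneg _) (hmin _) 2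
  rw [h7]
  have h9 : (0 : ℝ) ≤ (‖x 0‖ ^ 2) ^ (n - 2) := by positivity
  calc (‖x 0‖ ^ 2) ^ (n - 2) / (((n : ℝ) + 1) * n) ^ 2
      = 1 / ((n : ℝ) + 1) * (1 / (((n : ℝ) + 1) * n ^ 2) * (‖x 0‖ ^ 2) ^ (n - 2)) := by
        field_simp
    _ ≤ _ := by
        refine mul_le_mul h1 (mul_le_mul h4 h8 h9 (by positivity)) (by positivity) (by positivity)

private theorem aux_pow (n : ℕ) (hn : 7 ≤ n) : ((n + 1) * n) ^ 2 ≤ 4 ^ (n - 1) := by
  induction n, hn using Nat.le_induction with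
  | base => norm_num
  | succ m hm ih =>
    have h1 : 4 ^ (m + 1 - 1) = 4 * 4 ^ (m - 1) := by
      rw [← pow_succ']
      congr 1
      omega
    rw [h1]
    refine le_trans ?_ (Nat.mul_le_mul_left 4 ih)
    have h2 : ((m + 1 + 1) * (m + 1)) ≤ 2 * ((m + 1) * m) := by nlinarith
    calc ((m + 1 + 1) * (m + 1)) ^ 2 ≤ (2 * ((m + 1) * m)) ^ 2 := Nat.pow_le_pow_left h2 2
      _ = 4 * ((m + 1) * m) ^ 2 := by ring

theorem num_ineq (n : ℕ) (hn : 4 ≤ n) :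
    (((n : ℝ) - 3) / (4 * n)) ^ (n - 1) ≤ 1 / (((n : ℝ) + 1) * n) ^ 2 := by
  rcases Nat.lt_or_ge n 7 with h | h
  · interval_cases n <;> norm_num
  · have h1 := aux_pow n h
    have hn0 : (0 : ℝ) < n := by exact_mod_cast (by omega : 0 < n)
    have hn7 : (7 : ℝ) ≤ n := by exact_mod_cast h
    have h2 : ((n : ℝ) - 3) / (4 * n) ≤ 1 / 4 := by
      rw [div_le_div_iff₀ (by positivity) (by norm_num)]
      linarith
    have h3 : (0 : ℝ) ≤ ((n : ℝ) - 3) / (4 * n) := div_nonneg (by linarith) (by positivity)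
    calc (((n : ℝ) - 3) / (4 * n)) ^ (n - 1) ≤ (1 / 4) ^ (n - 1) := pow_le_pow_left₀ h3 h2 _
      _ = 1 / 4 ^ (n - 1) := by rw [one_div_pow]
      _ ≤ 1 / (((n : ℝ) + 1) * n) ^ 2 := by
          refine one_div_le_one_div_of_le (by positivity) ?_
          exact_mod_cast h1

end SPM
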