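import Pool.Agent.Lib.SPM.Eig
import Pool.Agent.Lib.SPM.Deriv
import Pool.Agent.Lib.SPM.Facts
import Pool.Agent.Lib.SPM.Low
import Pool.Agent.Lib.SPM.Prd
import Pool.Agent.Lib.SPM.Num
import Pool.Agent.Lib.SPM.PerPos

/-! Assembly: no worst zero-sum matrix. -/

namespace SPM

open Matrix Finset
open scoped ComplexOrder

theorem core {n : ℕ} (hn : 2 ≤ n) (ρ : ℝ) (hρ : 1 < ρ) (hT : T n 1) (hTρ : T (n + 1) ρ)
    (L : Matrix (Fin (n + 1)) (Fin (n + 1)) ℂ) (hL : L.PosSemidef) (hz : ZeroSum L)
    (x : Fin (n + 1) → ℂ) (hx : nsq x = 1) (hper : 0 < L.permanent.re)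
    (heq : qf L x = ρ * L.permanent.re) (hmin : ∀ i, ‖x 0‖ ≤ ‖x i‖) : False := by
  obtain ⟨hκ, lam, hlam, hev, hlk⟩ := eig ρ (by linarith) hTρ L hL hz x hx hper heq
  have hn0 : 0 < n := by omega
  have hnR : (0 : ℝ) < n := by exact_mod_cast hn0
  have hBpsd : (tail L).PosSemidef := hL.submatrix _
  have hBpd : (tail L).PosDef := by
    refine (Matrix.PosSemidef.posDef_iff_isUnit hBpsd).2 ?_
    rw [Matrix.isUnit_iff_isUnit_det, isUnit_iff_ne_zero]
    intro h
    rw [h] at hκ
    simp at hκ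
  obtain ⟨hb, hlow0⟩ := low_zero (tail L) hBpd hn0 (vtail x)
  have hcorner : (L 0 0).re = (∑ i, ∑ j, tail L i j).re := by rw [corner_eq L hL.1 hz]
  rw [← hcorner] at hb hlow0
  set b := (L 0 0).re with hbdef
  set t := ‖x 0‖ ^ 2 with htdef
  set κ := (tail L).det.re with hκdef
  set p := (tail L).permanent.re with hpdef
  have hsum := sum_eq_zero L hL.1 hz x lam hlam hev
  have hfo := first_order ρ (by linarith) hTρ L hL hz hb x hx lam hlam hev hlk
  have hfrm := frm_tail L hL.1 x lam hev hx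
  have hcg := corner_ge L hL x lam hev hx
  have htn := min_le x hx hmin
  have hns := nsq_shift hn0 x hsum hx
  have hqs := qf_shift hn0 (tail L) x hsum
  have hTn := hT (tail L) hBpsd (fun i => vtail x i + x 0 / n)
  rw [hns, hqs, one_mul] at hTn
  have ht0 : 0 ≤ t := by positivity
  set s := lam / b with hsdef
  have hs : 0 < s := div_pos hlam hb
  have hsb : s * b = lam := by rw [hsdef]; field_simp
  have hst : s * t ≤ 1 := by
    rw [hsdef, div_mul_eq_mul_div, div_le_one hb]
    exact hcg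
  have hα : frm (tail L) (vtail x) / b = s - 2 * s * t + t := by
    rw [hfrm, ← hbdef, ← htdef, hsdef]
    field_simp
  have hα' : 0 ≤ t * (s - 2 * s * t + t) ∧ t * (s - 2 * s * t + t) ≤ 1 := by
    have h2t : 2 * t ≤ 1 := by
      have : 1 / ((n : ℝ) + 1) ≤ 1 / 3 := by
        apply one_div_le_one_div_of_le (by norm_num)
        have : (2 : ℝ) ≤ n := by exact_mod_cast hn
        linarith
      linarith
    constructor
    · have : 0 ≤ s * (1 - 2 * t) := mul_nonneg hs.le (by linarith)
      nlinarith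
    · nlinarith [mul_nonneg ht0 ht0, mul_le_mul_of_nonneg_right hst (by linarith : 0 ≤ 1 - 2 * t)]
  -- the lower bound
  obtain ⟨a, ha0, ha4, hq⟩ : ∃ a : ℝ, 0 ≤ a ∧
      (4 ≤ n → t * (((n : ℝ) - 1) * (n - 3) / (4 * n)) ≤ a) ∧
      κ * (s - 2 * s * t + t + a) ≤ qf (tail L) (vtail x) := by
    by_cases h4 : 4 ≤ n ∧ 0 < t
    · obtain ⟨h4, ht⟩ := h4
      have h4R : (4 : ℝ) ≤ n := by exact_mod_cast h4
      set a0 : ℝ := ((n : ℝ) - 3) / (4 * n) with ha0def
      have ha0pos : 0 < a0 := by
        rw [ha0def]; apply div_pos <;> linarith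
      have hxi : ∀ i, vtail x i ≠ 0 := by
        intro i h
        have h1 := hmin i.succ
        have h2 : ‖x i.succ‖ = 0 := by
          have : x i.succ = 0 := h
          rw [this, norm_zero]
        have h3 : ‖x 0‖ = 0 := le_antisymm (h2 ▸ h1) (norm_nonneg _)
        rw [htdef, h3] at ht
        norm_num at ht
      have hprod := prod_ge n hn x hsum (by simpa [nsq] using hx) hmin
      have hnum := num_ineq n h4
      have hpow : (a0 * t) ^ n ≤ a0 * t ^ 2 * ∏ i, ‖vtail x i‖ ^ 2 := by
        have e1 : (a0 * t) ^ n = a0 * t ^ 2 * (a0 ^ (n - 1) * t ^ (n - 2)) := by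
          have h1 : n = 1 + (n - 1) := by omega
          have h2 : n = 2 + (n - 2) := by omega
          rw [mul_pow]
          conv_lhs => rw [show a0 ^ n = a0 ^ (1 + (n - 1)) by rw [← h1],
            show t ^ n = t ^ (2 + (n - 2)) by rw [← h2]]
          rw [pow_add, pow_add]
          ring
        rw [e1]
        apply mul_le_mul_of_nonneg_left _ (by positivity)
        calc a0 ^ (n - 1) * t ^ (n - 2) ≤ 1 / (((n : ℝ) + 1) * n) ^ 2 * t ^ (n - 2) :=
              mul_le_mul_of_nonneg_right hnum (by positivity)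
          _ = t ^ (n - 2) / (((n : ℝ) + 1) * n) ^ 2 := by ring
          _ ≤ _ := hprod
      have hlow := low_theta (tail L) hBpd hn0 (vtail x) hxi (a0 * t ^ 2) (a0 * t)
        (by positivity) (by positivity) hpow
      rw [← hcorner, hα] at hlow
      refine ⟨n * (a0 * t) - a0 * t ^ 2 * (s - 2 * s * t + t), ?_, ?_, hlow⟩
      · have : a0 * t * (t * (s - 2 * s * t + t)) ≤ a0 * t * 1 :=
          mul_le_mul_of_nonneg_left hα'.2 (by positivity)
        have h5 : 0 ≤ (n - 1 : ℝ) * (a0 * t) := mul_nonneg (by linarith) (by positivity)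
        nlinarith
      · intro _
        have : a0 * t * (t * (s - 2 * s * t + t)) ≤ a0 * t * 1 :=
          mul_le_mul_of_nonneg_left hα'.2 (by positivity)
        have e : t * (((n : ℝ) - 1) * (n - 3) / (4 * n)) = (n - 1) * (a0 * t) := by
          rw [ha0def]; ring
        rw [e]
        nlinarith
    · refine ⟨0, le_rfl, ?_, ?_⟩
      · intro h4'
        have : t = 0 := by
          by_contra h
          exact h4 ⟨h4', lt_of_le_of_ne ht0 (Ne.symm h)⟩
        rw [this, zero_mul]
      · rw [add_zero, ← hα]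
        exact hlow0
  refine final_num n hn κ s t ρ p (qf (tail L) (vtail x)) a hκ hs ht0 htn hst hρ ha0 ha4 ?_ ?_ hq
  · have e : ρ * b * p ≤ κ * lam * (1 - lam * t / b / (n + 1)) := hfo
    have e2 : lam * t / b = s * t := by rw [hsdef]; ring
    rw [e2] at e
    have e3 : b * (ρ * p) ≤ b * (κ * s * (1 - s * t / (n + 1))) := by
      calc b * (ρ * p) = ρ * b * p := by ring
        _ ≤ κ * lam * (1 - s * t / (n + 1)) := e
        _ = b * (κ * s * (1 - s * t / (n + 1))) := by rw [← hsb]; ring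
    exact le_of_mul_le_mul_left e3 hb
  · exact hTn

end SPM
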