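import Pool.Agent.Lib.SPM.Tree

/-!
MODULE SPM.Eig (0.7 h).  At a worst zero-sum matrix x is an eigenvector.

PROOF.  κ = (tail L).det.re, μ = ρ per(L).re > 0.  By `Tree.qf_zeroSum`: κ frm L x = μ, and by T for
every z: κ frm L z ≤ μ nsq z.  κ ≥ 0 (det of a PSD matrix), and κ ≠ 0 because μ > 0.  lam := μ/κ > 0.
The matrix P = lam • 1 - L is PSD (form lam nsq z - frm L z ≥ 0, Hermitian) and its form vanishes at x,
so P x = 0 (`Matrix.PosSemidef.dotProduct_mulVec_zero_iff`).
-/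

namespace SPM

open Matrix Finset
open scoped ComplexOrder

private theorem eig_form {n : ℕ} (L : Matrix (Fin n) (Fin n) ℂ) (z : Fin n → ℂ) :
    (star z ⬝ᵥ (L *ᵥ z)).re = frm L z := by
  unfold frm
  congr 1
  simp only [dotProduct, Matrix.mulVec, Pi.star_apply, Finset.mul_sum]
  refine Finset.sum_congr rfl fun i _ => Finset.sum_congr rfl fun j _ => ?_
  ring

private theorem eig_nsq {n : ℕ} (z : Fin n → ℂ) : star z ⬝ᵥ z = (nsq z : ℂ) := by
  unfold nsq
  simp only [dotProduct, Pi.star_apply]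
  push_cast
  refine Finset.sum_congr rfl fun i _ => ?_
  have h := RCLike.conj_mul (z i)
  simpa using h

theorem eig {n : ℕ} (ρ : ℝ) (hρ : 0 < ρ) (hTρ : T (n + 1) ρ)
    (L : Matrix (Fin (n + 1)) (Fin (n + 1)) ℂ) (hL : L.PosSemidef) (hz : ZeroSum L)
    (x : Fin (n + 1) → ℂ) (hx : nsq x = 1) (hper : 0 < L.permanent.re)
    (heq : qf L x = ρ * L.permanent.re) :
    0 < (tail L).det.re ∧ ∃ lam : ℝ, 0 < lam ∧ (∀ i, ∑ j, L i j * x j = (lam : ℂ) * x i) ∧
      ρ * L.permanent.re = (tail L).det.re * lam := by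
  have hH : L.IsHermitian := hL.isHermitian
  have htail : (tail L).PosSemidef := hL.submatrix Fin.succ
  have hκ0 : 0 ≤ (tail L).det.re := (Complex.le_def.mp htail.det_nonneg).1
  have hμ : 0 < ρ * L.permanent.re := mul_pos hρ hper
  have h1 : (tail L).det.re * frm L x = ρ * L.permanent.re := by
    rw [← qf_zeroSum L hH hz x, heq]
  have hκ : 0 < (tail L).det.re := by
    rcases hκ0.lt_or_eq with h | h
    · exact h
    · rw [← h, zero_mul] at h1
      exact absurd h1 hμ.ne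
  refine ⟨hκ, ρ * L.permanent.re / (tail L).det.re, div_pos hμ hκ, ?_, by
    field_simp⟩
  set lam : ℝ := ρ * L.permanent.re / (tail L).det.re with hlam
  have hfrm : ∀ z, frm L z ≤ lam * nsq z := by
    intro z
    have h2 := hTρ L hL z
    rw [qf_zeroSum L hH hz z] at h2
    rw [hlam, div_mul_eq_mul_div, le_div_iff₀ hκ]
    linarith
  have hfx : frm L x = lam := by
    rw [hlam, eq_div_iff hκ.ne']
    linarith
  have hPH : (((lam : ℂ) • (1 : Matrix (Fin (n + 1)) (Fin (n + 1)) ℂ)) - L).IsHermitian := by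
    refine Matrix.IsHermitian.sub ?_ hH
    unfold Matrix.IsHermitian
    rw [Matrix.conjTranspose_smul, Matrix.conjTranspose_one]
    congr 1
    exact Complex.conj_ofReal lam
  have hform : ∀ z : Fin (n + 1) → ℂ,
      (star z ⬝ᵥ ((((lam : ℂ) • (1 : Matrix (Fin (n + 1)) (Fin (n + 1)) ℂ)) - L) *ᵥ z)).re =
        lam * nsq z - frm L z := by
    intro z
    rw [Matrix.sub_mulVec, Matrix.smul_mulVec, Matrix.one_mulVec, dotProduct_sub, dotProduct_smul,
      Complex.sub_re, eig_form, eig_nsq, smul_eq_mul, ← Complex.ofReal_mul, Complex.ofReal_re]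
  have hform_im : ∀ z : Fin (n + 1) → ℂ,
      (star z ⬝ᵥ ((((lam : ℂ) • (1 : Matrix (Fin (n + 1)) (Fin (n + 1)) ℂ)) - L) *ᵥ z)).im = 0 := by
    intro z
    exact hPH.im_star_dotProduct_mulVec_self z
  have hP : (((lam : ℂ) • (1 : Matrix (Fin (n + 1)) (Fin (n + 1)) ℂ)) - L).PosSemidef := by
    refine Matrix.PosSemidef.of_dotProduct_mulVec_nonneg hPH fun z => ?_
    rw [Complex.le_def]
    refine ⟨?_, ?_⟩
    · rw [hform z, Complex.zero_re]
      linarith [hfrm z]
    · rw [hform_im z, Complex.zero_im]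
  have hPx : ((((lam : ℂ) • (1 : Matrix (Fin (n + 1)) (Fin (n + 1)) ℂ)) - L) *ᵥ x) = 0 := by
    rw [← hP.dotProduct_mulVec_zero_iff x]
    apply Complex.ext
    · rw [hform x, hfx, hx, Complex.zero_re]
      ring
    · rw [hform_im x, Complex.zero_im]
  intro i
  have h3 := congrFun hPx i
  rw [Matrix.sub_mulVec, Matrix.smul_mulVec, Matrix.one_mulVec] at h3
  simp only [Pi.sub_apply, Pi.smul_apply, smul_eq_mul, Pi.zero_apply] at h3
  have h4 : (L *ᵥ x) i = ∑ j, L i j * x j := rfl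
  rw [← h4]
  exact (sub_eq_zero.mp h3).symm

end SPM
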