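import Pool.Agent.Lib.SPM.Border
import Pool.Agent.Lib.SPM.CB

/-!
MODULE SPM.Modes (1 h).  The permanent of `A_r`.

PROOF.  Put a = A 0 0 > 0 (real), u_i = A (i+1) 0, and B = tail A - u u^*/a (Schur complement).
B is PSD: `x^* B x = y^* A y` with y = (-(∑ conj(u_i) x_i)/a, x) (use `A.IsHermitian`: A 0 (j+1) =
conj (u j)); or Mathlib's Schur complement lemmas (`Matrix.PosSemidef.fromBlocks₁₁`).
Let `c` be from `CB.per_modes` for B and b_i = u_i/√a: Q(r) := per(B + r b b^*) = ∑ c_m r^m (r ≥ 0),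
and tail (Ar A r) = B + r b b^*.  At r = 1: tail A, so per(tail A) = ∑ c_m.
By `Border.per_border` for `Ar A r` (its corner is r a, first column r u, first row r u^*):
per(A_r) = r a Q(r) + dper (tail A_r) (r u) (r conj u) = r a Q(r) + r^2 dper (tail A_r) u (conj u)
(`dper_smul`), and for r > 0 by `hasDerivAt_per` (with u := b, v := conj b; a * dper .. b (conj b) =
dper .. u (conj u)) `dper (tail A_r) u (conj u) = a Q'(r) = a ∑ m c_m r^(m-1)` (derivative of a
polynomial; Q equals the polynomial on a neighbourhood of r > 0).  Hence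
per(A_r) = a ∑ (m+1) c_m r^(m+1) for r > 0; for r = 0 the matrix A_0 has zero first row, and both
sides are 0.
-/

namespace SPM

open Matrix Finset
open scoped ComplexOrder

namespace ModesAux

/-- the congruence matrix of the Schur complement -/
noncomputable def E {n : ℕ} (A : Matrix (Fin (n + 1)) (Fin (n + 1)) ℂ) :
    Matrix (Fin (n + 1)) (Fin n) ℂ :=
  Matrix.of fun k j => Fin.cases (-(A 0 j.succ / A 0 0)) (fun i => if i = j then 1 else 0) k

/-- the Schur complement -/
noncomputable def B {n : ℕ} (A : Matrix (Fin (n + 1)) (Fin (n + 1)) ℂ) :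
    Matrix (Fin n) (Fin n) ℂ :=
  Matrix.of fun i j => A i.succ j.succ - A i.succ 0 * A 0 j.succ / A 0 0

theorem E_zero {n : ℕ} (A : Matrix (Fin (n + 1)) (Fin (n + 1)) ℂ) (j : Fin n) :
    E A 0 j = -(A 0 j.succ / A 0 0) := rfl

theorem E_succ {n : ℕ} (A : Matrix (Fin (n + 1)) (Fin (n + 1)) ℂ) (i j : Fin n) :
    E A i.succ j = if i = j then 1 else 0 := rfl

theorem B_eq {n : ℕ} (A : Matrix (Fin (n + 1)) (Fin (n + 1)) ℂ) (hA : A.IsHermitian)
    (h0 : A 0 0 ≠ 0) : (E A)ᴴ * A * E A = B A := by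
  have hs : ∀ i j, star (A i j) = A j i := fun i j => hA.apply j i
  ext i j
  rw [Matrix.mul_apply, Fin.sum_univ_succ]
  simp only [Matrix.mul_apply, Fin.sum_univ_succ, Matrix.conjTranspose_apply, E_zero, E_succ]
  simp only [star_neg, star_div₀, hs, apply_ite star, star_one, star_zero, ite_mul, one_mul,
    zero_mul, Finset.sum_ite_eq', Finset.mem_univ, if_true, mul_ite, mul_one, mul_zero]
  unfold B
  rw [Matrix.of_apply]
  field_simp
  ring

theorem B_posSemidef {n : ℕ} (A : Matrix (Fin (n + 1)) (Fin (n + 1)) ℂ) (hA : A.PosSemidef)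
    (h0 : A 0 0 ≠ 0) : (B A).PosSemidef := by
  rw [← B_eq A hA.1 h0]
  exact hA.conjTranspose_mul_mul_same (E A)

end ModesAux

theorem modes {n : ℕ} (A : Matrix (Fin (n + 1)) (Fin (n + 1)) ℂ) (hA : A.PosSemidef)
    (h0 : 0 < (A 0 0).re) :
    ∃ c : ℕ → ℝ, (∀ m, 0 ≤ c m) ∧
      (tail A).permanent = ((∑ m ∈ range (n + 1), c m : ℝ) : ℂ) ∧
      ∀ r : ℝ, 0 ≤ r → (Ar A r).permanent =
        (((A 0 0).re * ∑ m ∈ range (n + 1), ((m : ℝ) + 1) * c m * r ^ (m + 1) : ℝ) : ℂ) := by
  set a : ℝ := (A 0 0).re with ha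
  have hs : ∀ i j, star (A i j) = A j i := fun i j => hA.1.apply j i
  have hA0 : A 0 0 = (a : ℂ) := by
    have h := hs 0 0
    rw [Complex.star_def, Complex.conj_eq_iff_real] at h
    obtain ⟨t, ht⟩ := h
    rw [ha, ht]
    simp
  have ha0 : A 0 0 ≠ 0 := by
    rw [hA0]
    exact_mod_cast h0.ne'
  set b : Fin n → ℂ := fun i => A i.succ 0 / ((√a : ℝ) : ℂ) with hb
  have hsq : ((√a : ℝ) : ℂ) * ((√a : ℝ) : ℂ) = (a : ℂ) := by
    rw [← Complex.ofReal_mul, Real.mul_self_sqrt h0.le]
  have hsq0 : ((√a : ℝ) : ℂ) ≠ 0 := by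
    exact_mod_cast (Real.sqrt_pos.2 h0).ne'
  have hstar : ∀ j, star (b j) = A 0 j.succ / ((√a : ℝ) : ℂ) := by
    intro j
    rw [hb]
    simp only
    rw [star_div₀, hs, Complex.star_def, Complex.conj_ofReal]
  have hbb : ∀ i j, b i * star (b j) = A i.succ 0 * A 0 j.succ / A 0 0 := by
    intro i j
    rw [hstar, hA0, ← hsq, hb]
    simp only
    field_simp
  obtain ⟨c, hc, hcr⟩ := per_modes (ModesAux.B A) (ModesAux.B_posSemidef A hA ha0) b
  have htail : ∀ r : ℝ, tail (Ar A r) =
      Matrix.of fun i j => ModesAux.B A i j + (r : ℂ) * (b i * star (b j)) := by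
    intro r
    ext i j
    simp only [tail, Ar, Matrix.submatrix_apply, Matrix.of_apply, ModesAux.B, hbb]
    ring
  refine ⟨c, hc, ?_, ?_⟩
  · have h1 := hcr 1 zero_le_one
    have h2 : tail A = Matrix.of fun i j => ModesAux.B A i j + ((1 : ℝ) : ℂ) * (b i * star (b j)) := by
      ext i j
      simp only [tail, Matrix.submatrix_apply, Matrix.of_apply, ModesAux.B, hbb]
      push_cast
      ring
    rw [h2, h1]
    simp
  · intro r hr
    have hper : (Ar A r).permanent = (r : ℂ) * a * (tail (Ar A r)).permanent +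
        ((r : ℂ) * ((√a : ℝ) : ℂ)) * ((r : ℂ) * ((√a : ℝ) : ℂ)) *
          dper (tail (Ar A r)) b (fun j => star (b j)) := by
      rw [per_border (Ar A r)]
      have e1 : Ar A r 0 0 = (r : ℂ) * a := by
        rw [Ar, Matrix.of_apply, ← hA0]
        field_simp
        ring
      have e2 : (fun i : Fin n => Ar A r i.succ 0) =
          fun i => ((r : ℂ) * ((√a : ℝ) : ℂ)) * b i := by
        funext i
        rw [Ar, Matrix.of_apply, hb]
        field_simp
        ring
      have e3 : (fun j : Fin n => Ar A r 0 j.succ) =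
          fun j => ((r : ℂ) * ((√a : ℝ) : ℂ)) * star (b j) := by
        funext j
        rw [Ar, Matrix.of_apply, hstar]
        field_simp
        ring
      rw [e1, e2, e3, dper_smul]
    rcases hr.eq_or_lt with h | hpos
    · rw [hper, ← h]
      simp
    · have hd := hasDerivAt_per (ModesAux.B A) b (fun j => star (b j)) r
      have hP : HasDerivAt (fun t : ℝ => ((∑ m ∈ range (n + 1), c m * t ^ m : ℝ) : ℂ))
          ((∑ m ∈ range (n + 1), c m * (m * r ^ (m - 1)) : ℝ) : ℂ) r := by
        apply HasDerivAt.ofReal_comp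
        refine HasDerivAt.fun_sum fun m _ => ?_
        exact (hasDerivAt_pow m r).const_mul (c m)
      have hev : (fun t : ℝ => (Matrix.of fun i j => ModesAux.B A i j +
          (t : ℂ) * (b i * star (b j))).permanent) =ᶠ[nhds r]
          fun t : ℝ => ((∑ m ∈ range (n + 1), c m * t ^ m : ℝ) : ℂ) := by
        filter_upwards [lt_mem_nhds hpos] with t ht
        exact hcr t ht.le
      have hu := hd.unique (hP.congr_of_eventuallyEq hev)
      rw [hper, htail, hcr r hr, hu]
      have h2 : ((r : ℂ) * ((√a : ℝ) : ℂ)) * ((r : ℂ) * ((√a : ℝ) : ℂ)) = (r : ℂ) ^ 2 * a := by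
        rw [← hsq]
        ring
      rw [h2]
      have h3 : r * a * (∑ m ∈ range (n + 1), c m * r ^ m) +
          r ^ 2 * a * (∑ m ∈ range (n + 1), c m * (m * r ^ (m - 1))) =
          a * ∑ m ∈ range (n + 1), ((m : ℝ) + 1) * c m * r ^ (m + 1) := by
        rw [Finset.mul_sum, Finset.mul_sum, Finset.mul_sum, ← Finset.sum_add_distrib]
        refine Finset.sum_congr rfl fun m _ => ?_
        rcases Nat.eq_zero_or_pos m with hm | hm
        · subst hm
          simp
          ring
        · obtain ⟨k, rfl⟩ : ∃ k, m = k + 1 := ⟨m - 1, by omega⟩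
          simp only [Nat.add_sub_cancel]
          push_cast
          ring
      rw [← h3]
      push_cast
      ring

end SPM
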