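import Pool.Agent.Lib.SPM.Defs

/-!
MODULE SPM.RepA.  The Schur power matrix acts on the functions `FX X`.

PROOF of `intertwine`.  Fix j.  ∑_τ (∏_t A (σ t) (τ t)) sgn(τ) X_j (τ j) = det of the matrix N with rows
N t = A (σ t) · for t ≠ j and N j l = A (σ j) l * X_j l (Leibniz); expand along the replaced row and
use that the rows of `A.submatrix σ id` are permuted rows of `A`.
-/

namespace SPM

open Matrix Finset

/-- The function `g ↦ sgn(g) ∑_j X_j(g j)` on the symmetric group. -/
noncomputable def FX {n : ℕ} (X : Fin n → Fin n → ℂ) (g : Equiv.Perm (Fin n)) : ℂ :=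
  ((Equiv.Perm.sign g : ℤ) : ℂ) * ∑ j, X j (g j)

namespace RepAAux

/-- Replacing the row `j` of `A` permuted by `σ`. -/
theorem det_perm_update {n : ℕ} (A : Matrix (Fin n) (Fin n) ℂ) (σ : Equiv.Perm (Fin n))
    (j : Fin n) (b : Fin n → ℂ) :
    ((A.submatrix σ id).updateRow j b).det =
      ((Equiv.Perm.sign σ : ℤ) : ℂ) * (A.updateRow (σ j) b).det := by
  have h : (A.submatrix σ id).updateRow j b = (A.updateRow (σ j) b).submatrix σ id := by
    ext a c
    simp only [Matrix.updateRow_apply, Matrix.submatrix_apply, id_eq]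
    by_cases hc : a = j
    · subst hc; simp
    · have : σ a ≠ σ j := fun h => hc (σ.injective h)
      simp [hc, this]
  rw [h, Matrix.det_permute]

/-- Expansion of the determinant with replaced row along the adjugate. -/
theorem det_update_eq {n : ℕ} (A : Matrix (Fin n) (Fin n) ℂ) (i : Fin n) (b : Fin n → ℂ) :
    (A.updateRow i b).det = ∑ l, b l * A.adjugate l i := by
  have h1 : (A.updateRow i b).det = A.transpose.cramer b i := by
    rw [Matrix.cramer_transpose_apply]
  rw [h1, Matrix.cramer_eq_adjugate_mulVec, ← Matrix.adjugate_transpose]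
  simp only [Matrix.mulVec, dotProduct, Matrix.transpose_apply]
  exact Finset.sum_congr rfl fun l _ => mul_comm _ _

/-- The contribution of one index `j`. -/
theorem one_term {n : ℕ} (A : Matrix (Fin n) (Fin n) ℂ) (x : Fin n → ℂ)
    (σ : Equiv.Perm (Fin n)) (j : Fin n) :
    ∑ τ : Equiv.Perm (Fin n), (∏ i, A (σ i) (τ i)) * (((Equiv.Perm.sign τ : ℤ) : ℂ) * x (τ j)) =
      ((Equiv.Perm.sign σ : ℤ) : ℂ) * ∑ l, A (σ j) l * A.adjugate l (σ j) * x l := by
  have h1 := det_perm_update A σ j (fun l => A (σ j) l * x l)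
  rw [det_update_eq A, ← Matrix.det_transpose, Matrix.det_apply'] at h1
  have h2 : ∑ l, A (σ j) l * A.adjugate l (σ j) * x l =
      ∑ l, A (σ j) l * x l * A.adjugate l (σ j) :=
    Finset.sum_congr rfl fun l _ => by ring
  rw [h2, ← h1]
  refine Finset.sum_congr rfl fun τ _ => ?_
  have h3 : ∏ i, ((A.submatrix σ id).updateRow j (fun l => A (σ j) l * x l)).transpose (τ i) i =
      (∏ i, A (σ i) (τ i)) * x (τ j) := by
    rw [← Finset.mul_prod_erase Finset.univ _ (Finset.mem_univ j),
      ← Finset.mul_prod_erase Finset.univ (fun i => A (σ i) (τ i)) (Finset.mem_univ j)]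
    have h4 : ∏ i ∈ Finset.univ.erase j,
        ((A.submatrix σ id).updateRow j (fun l => A (σ j) l * x l)).transpose (τ i) i =
        ∏ i ∈ Finset.univ.erase j, A (σ i) (τ i) := by
      refine Finset.prod_congr rfl fun i hi => ?_
      have : i ≠ j := (Finset.mem_erase.mp hi).1
      simp [Matrix.updateRow_apply, this]
    rw [h4]
    simp only [Matrix.transpose_apply, Matrix.updateRow_self]
    ring
  rw [h3]
  ring

end RepAAux

theorem intertwine {n : ℕ} (A : Matrix (Fin n) (Fin n) ℂ) (X : Fin n → Fin n → ℂ)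
    (σ : Equiv.Perm (Fin n)) :
    ∑ τ : Equiv.Perm (Fin n), (∏ i, A (σ i) (τ i)) * FX X τ =
      FX (fun j i => ∑ l, A i l * A.adjugate l i * X j l) σ := by
  unfold FX
  have h1 : ∀ τ : Equiv.Perm (Fin n),
      (∏ i, A (σ i) (τ i)) * (((Equiv.Perm.sign τ : ℤ) : ℂ) * ∑ j, X j (τ j)) =
      ∑ j, (∏ i, A (σ i) (τ i)) * (((Equiv.Perm.sign τ : ℤ) : ℂ) * X j (τ j)) := by
    intro τ
    rw [Finset.mul_sum, Finset.mul_sum]
  rw [Finset.sum_congr rfl fun τ _ => h1 τ, Finset.sum_comm, Finset.mul_sum]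
  exact Finset.sum_congr rfl fun j _ => RepAAux.one_term A (X j) σ j

end SPM
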