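import Pool.Agent.Lib.SPM.RepA

/-!
MODULE SPM.RepI (1 h).  Inner products of the functions `FX X`.

PROOF.  sgn^2 = 1, so ∑_σ conj(FX X σ) FX Z σ = ∑_j ∑_l S_jl, S_jl = ∑_σ conj(X_j(σ j)) Z_l(σ l).
S_jj = (n-1)! ∑_i conj(X_j i) Z_j i (number of σ with σ j = i is (n-1)!; or: for φ, ∑_σ φ(σ j) does not
depend on j (substitute σ ∘ swap), and ∑_j ∑_σ φ(σ j) = ∑_σ ∑_i φ i = n! ∑ φ; similarly for the mixed
version with fixed functions X_j =: u, Z_l =: v).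
For fixed u, v and j ≠ l put S(j,l) = ∑_σ conj(u(σ j)) v(σ l): it does not depend on l ≠ j (substitute
σ ∘ swap l l'), and ∑_l S(j,l) = ∑_σ conj(u(σ j)) ∑_i v i = 0.  So (n-1) S(j,l) = -S(j,j) =
-(n-1)! ∑ conj(u) v, S(j,l) = -(n-2)! ∑_i conj(u i) v i.
Sum: ∑_j (n-1)! <X_j,Z_j> - (n-2)! ∑_{j≠l} <X_j,Z_l> = (n-2)! (n ∑_j <X_j,Z_j> - ∑_{j,l} <X_j,Z_l>).
-/

namespace SPM

open Matrix Finset

private theorem sum_perm_comp {n : ℕ} (φ : Fin n → ℂ) (j j' : Fin n) :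
    ∑ σ : Equiv.Perm (Fin n), φ (σ j) = ∑ σ : Equiv.Perm (Fin n), φ (σ j') := by
  rw [← Equiv.sum_comp (Equiv.mulRight (Equiv.swap j j')) fun σ : Equiv.Perm (Fin n) => φ (σ j)]
  refine Finset.sum_congr rfl fun σ _ => ?_
  simp

private theorem sum_perm_apply {n : ℕ} (hn : 1 ≤ n) (φ : Fin n → ℂ) (j : Fin n) :
    ∑ σ : Equiv.Perm (Fin n), φ (σ j) = (((n - 1).factorial : ℕ) : ℂ) * ∑ i, φ i := by
  have h1 : ∑ j' : Fin n, ∑ σ : Equiv.Perm (Fin n), φ (σ j') =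
      (n : ℂ) * ∑ σ : Equiv.Perm (Fin n), φ (σ j) := by
    rw [Finset.sum_congr rfl fun j' _ => sum_perm_comp φ j' j]
    simp
  have h2 : ∑ j' : Fin n, ∑ σ : Equiv.Perm (Fin n), φ (σ j') =
      ((n.factorial : ℕ) : ℂ) * ∑ i, φ i := by
    rw [Finset.sum_comm]
    rw [Finset.sum_congr rfl fun σ _ => Equiv.sum_comp σ φ]
    simp [Fintype.card_perm]
  obtain ⟨m, rfl⟩ : ∃ m, n = m + 1 := ⟨n - 1, by omega⟩
  have h3 : ((m + 1 : ℕ) : ℂ) ≠ 0 := by exact_mod_cast Nat.succ_ne_zero m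
  apply mul_left_cancel₀ h3
  rw [← h1, h2, Nat.factorial_succ]
  simp only [Nat.add_sub_cancel]
  push_cast
  ring

private theorem S_comp {n : ℕ} (u v : Fin n → ℂ) {j l l' : Fin n} (hl : l ≠ j) (hl' : l' ≠ j) :
    ∑ σ : Equiv.Perm (Fin n), star (u (σ j)) * v (σ l) =
      ∑ σ : Equiv.Perm (Fin n), star (u (σ j)) * v (σ l') := by
  rw [← Equiv.sum_comp (Equiv.mulRight (Equiv.swap l l'))
    fun σ : Equiv.Perm (Fin n) => star (u (σ j)) * v (σ l)]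
  refine Finset.sum_congr rfl fun σ _ => ?_
  simp [Equiv.swap_apply_of_ne_of_ne hl.symm hl'.symm]

private theorem S_off {n : ℕ} (hn : 2 ≤ n) (u v : Fin n → ℂ) (hv : ∑ i, v i = 0) {j l : Fin n}
    (hl : l ≠ j) :
    ∑ σ : Equiv.Perm (Fin n), star (u (σ j)) * v (σ l) =
      -((((n - 2).factorial : ℕ) : ℂ) * ∑ i, star (u i) * v i) := by
  have h1 : ∑ l' : Fin n, ∑ σ : Equiv.Perm (Fin n), star (u (σ j)) * v (σ l') = 0 := by
    rw [Finset.sum_comm]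
    refine Finset.sum_eq_zero fun σ _ => ?_
    rw [← Finset.mul_sum, Equiv.sum_comp σ v, hv, mul_zero]
  have h2 : ∑ l' : Fin n, ∑ σ : Equiv.Perm (Fin n), star (u (σ j)) * v (σ l') =
      ∑ σ : Equiv.Perm (Fin n), star (u (σ j)) * v (σ j) +
        ((n : ℂ) - 1) * ∑ σ : Equiv.Perm (Fin n), star (u (σ j)) * v (σ l) := by
    rw [← Finset.add_sum_erase _ _ (Finset.mem_univ j)]
    congr 1
    rw [Finset.sum_congr rfl fun l' hl' => S_comp u v (Finset.ne_of_mem_erase hl') hl]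
    rw [Finset.sum_const, Finset.card_erase_of_mem (Finset.mem_univ j), Finset.card_univ,
      Fintype.card_fin, nsmul_eq_mul]
    rw [Nat.cast_sub (by omega)]
    simp
  have h3 := sum_perm_apply (by omega) (fun i => star (u i) * v i) j
  rw [h2, h3] at h1
  obtain ⟨m, rfl⟩ : ∃ m, n = m + 2 := ⟨n - 2, by omega⟩
  have h4 : ((m + 1 : ℕ) : ℂ) ≠ 0 := by exact_mod_cast Nat.succ_ne_zero m
  apply mul_left_cancel₀ h4
  have e1 : m + 2 - 1 = m + 1 := by omega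
  have e2 : m + 2 - 2 = m := by omega
  rw [e1, Nat.factorial_succ] at h1
  rw [e2]
  push_cast at h1 ⊢
  linear_combination h1

theorem inner_FX {n : ℕ} (hn : 2 ≤ n) (X Z : Fin n → Fin n → ℂ) (hZ : ∀ j, ∑ i, Z j i = 0) :
    ∑ σ : Equiv.Perm (Fin n), star (FX X σ) * FX Z σ =
      (((n - 2).factorial : ℕ) : ℂ) * ((n : ℂ) * ∑ j, ∑ i, star (X j i) * Z j i -
        ∑ j, ∑ l, ∑ i, star (X j i) * Z l i) := by
  have h1 : ∀ σ : Equiv.Perm (Fin n), star (FX X σ) * FX Z σ =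
      ∑ j, ∑ l, star (X j (σ j)) * Z l (σ l) := by
    intro σ
    unfold FX
    have hs : (((Equiv.Perm.sign σ : ℤ) : ℂ)) * (((Equiv.Perm.sign σ : ℤ) : ℂ)) = 1 := by
      rw [← Int.cast_mul, ← Units.val_mul, Int.units_mul_self]
      simp
    have hs' : star (((Equiv.Perm.sign σ : ℤ) : ℂ)) = (((Equiv.Perm.sign σ : ℤ) : ℂ)) := by
      simp
    rw [star_mul', hs', star_sum]
    rw [mul_mul_mul_comm, hs, one_mul, Finset.sum_mul_sum]
  rw [Finset.sum_congr rfl fun σ _ => h1 σ, Finset.sum_comm]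
  have h2 : ∀ j : Fin n, ∑ σ : Equiv.Perm (Fin n), ∑ l, star (X j (σ j)) * Z l (σ l) =
      (((n - 2).factorial : ℕ) : ℂ) * ((n : ℂ) * ∑ i, star (X j i) * Z j i -
        ∑ l, ∑ i, star (X j i) * Z l i) := by
    intro j
    rw [Finset.sum_comm, ← Finset.add_sum_erase _ _ (Finset.mem_univ j)]
    rw [Finset.sum_congr rfl fun l hl => S_off hn (X j) (Z l) (hZ l) (Finset.ne_of_mem_erase hl)]
    have h3 := sum_perm_apply (by omega) (fun i => star (X j i) * Z j i) j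
    rw [h3]
    rw [← Finset.add_sum_erase _ (fun l => ∑ i, star (X j i) * Z l i) (Finset.mem_univ j)]
    rw [Finset.sum_neg_distrib, ← Finset.mul_sum]
    obtain ⟨m, rfl⟩ : ∃ m, n = m + 2 := ⟨n - 2, by omega⟩
    have e1 : m + 2 - 1 = m + 1 := by omega
    have e2 : m + 2 - 2 = m := by omega
    rw [e1, e2, Nat.factorial_succ]
    push_cast
    ring
  rw [Finset.sum_congr rfl fun j _ => h2 j, ← Finset.mul_sum, Finset.sum_sub_distrib,
    ← Finset.mul_sum]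

end SPM
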