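import Mathlib

/-!
MODULE SPM.TrDet (0.8 h).  Arithmetic-geometric mean for tr(PR).

PROOF.  R = C^* C with C invertible (R PosDef; e.g. `Matrix.PosDef` square root or
`posSemidef_iff_eq_conjTranspose_mul_self`), X = C P C^* is PosDef, tr X = tr(P R)
(`Matrix.trace_mul_cycle`), det X = det P |det C|^2 = det P det R.  X is Hermitian:
tr X = ∑ eigenvalues, det X = ∏ eigenvalues (`Matrix.IsHermitian.trace_eq_sum_eigenvalues`,
`det_eq_prod_eigenvalues`), all positive.  AM-GM (`Real.inner_le_nnorm_mul_nnorm` is NOT needed; use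
`Real.geom_mean_le_arith_mean_weighted` or `inner_mul_le`...): (∏ e_i) ≤ ((∑ e_i)/n)^n.  If
(∑ e_i)/n < g then ∏ e_i < g^n ≤ det P det R = ∏ e_i, contradiction (n ≥ 1; n = 0 trivial).
-/

namespace SPM

open Matrix Finset
open scoped ComplexOrder

open scoped MatrixOrder in
private theorem exists_sqrt {n : ℕ} (R : Matrix (Fin n) (Fin n) ℂ) (hR : R.PosSemidef) :
    ∃ C : Matrix (Fin n) (Fin n) ℂ, R = Cᴴ * C := by
  obtain ⟨C, hC⟩ := CStarAlgebra.nonneg_iff_eq_star_mul_self.mp hR.nonneg
  exact ⟨C, by rw [hC, star_eq_conjTranspose]⟩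

theorem trace_ge {n : ℕ} (P R : Matrix (Fin n) (Fin n) ℂ) (hP : P.PosDef) (hR : R.PosDef) (g : ℝ)
    (hg : 0 ≤ g) (h : g ^ n ≤ P.det.re * R.det.re) : n * g ≤ (P * R).trace.re := by
  obtain ⟨C, hC⟩ := exists_sqrt R hR.posSemidef
  set X : Matrix (Fin n) (Fin n) ℂ := C * P * Cᴴ with hX
  have hXp : X.PosSemidef := hP.posSemidef.mul_mul_conjTranspose_same C
  have htr : X.trace = (P * R).trace := by
    rw [hX, Matrix.trace_mul_cycle, hC, Matrix.trace_mul_comm]
  have hdet : X.det = P.det * R.det := by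
    rw [hX, hC, det_mul, det_mul, det_mul]
    ring
  set e : Fin n → ℝ := hXp.isHermitian.eigenvalues with he
  have he0 : ∀ i, 0 ≤ e i := hXp.eigenvalues_nonneg
  have hsum : (P * R).trace.re = ∑ i, e i := by
    rw [← htr, hXp.isHermitian.trace_eq_sum_eigenvalues]
    simp [he]
  have hprod : P.det.re * R.det.re = ∏ i, e i := by
    have h1 : (∏ i, (e i : ℂ)) = P.det * R.det := by
      rw [← hdet, hXp.isHermitian.det_eq_prod_eigenvalues]
      rfl
    have h2 : P.det = ((P.det.re : ℝ) : ℂ) := by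
      have h3 := hP.isHermitian.det_eq_prod_eigenvalues
      apply Complex.ext
      · simp
      · rw [h3]
        simp [← Complex.ofReal_prod]
    have h4 : R.det = ((R.det.re : ℝ) : ℂ) := by
      have h3 := hR.isHermitian.det_eq_prod_eigenvalues
      apply Complex.ext
      · simp
      · rw [h3]
        simp [← Complex.ofReal_prod]
    have h5 : ((∏ i, e i : ℝ) : ℂ) = ((P.det.re * R.det.re : ℝ) : ℂ) := by
      rw [Complex.ofReal_prod, h1, Complex.ofReal_mul, ← h2, ← h4]
    exact (Complex.ofReal_injective h5).symm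
  rw [hsum]
  rw [hprod] at h
  rcases Nat.eq_zero_or_pos n with hn | hn
  · subst hn
    simp
  · have hn' : (0 : ℝ) < n := by exact_mod_cast hn
    have hAM := Real.geom_mean_le_arith_mean_weighted univ (fun _ : Fin n => (1 : ℝ) / n) e
      (fun i _ => by positivity)
      (by rw [Finset.sum_const, card_univ, Fintype.card_fin, nsmul_eq_mul]; field_simp)
      (fun i _ => he0 i)
    rw [Real.finsetProd_rpow univ e (fun i _ => he0 i)] at hAM
    have h6 : g ≤ (∏ i, e i) ^ ((1 : ℝ) / n) := by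
      calc g = (g ^ n) ^ ((1 : ℝ) / n) := by
            rw [one_div, Real.pow_rpow_inv_natCast hg hn.ne']
        _ ≤ (∏ i, e i) ^ ((1 : ℝ) / n) :=
            Real.rpow_le_rpow (pow_nonneg hg n) h (by positivity)
    have h7 : ∑ i, (1 : ℝ) / n * e i = (∑ i, e i) / n := by
      rw [← Finset.mul_sum]
      ring
    rw [h7] at hAM
    have h8 : g ≤ (∑ i, e i) / n := h6.trans hAM
    rw [le_div_iff₀ hn'] at h8
    linarith

end SPM
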